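import Pool.Agent.Work.MP_6d8919_an.Space

/-!
# MP_6d8919_an: why zeros in the open upper half-plane have to be excluded

`ω = cosh` satisfies all written hypotheses of the setting (with `σ = 1`) but has zeros in the
upper half-plane, and the listed fact `‖D‖ = ‖ω'‖` fails for it.
-/

open Complex Set Filter Topology Metric
open scoped ComplexConjugate

namespace Pool.Agent.Work.MP_6d8919_an

theorem norm_exp_le' (z : ℂ) : ‖exp z‖ ≤ Real.exp ‖z‖ := by
  rw [Complex.norm_exp]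
  exact Real.exp_le_exp.2 (Complex.re_le_norm z)

theorem typeLE_of_norm_le_exp {f : ℂ → ℂ} {C : ℝ} (hC : 0 ≤ C)
    (h : ∀ z, ‖f z‖ ≤ C * Real.exp ‖z‖) : TypeLE f 1 := by
  intro ε hε
  refine ⟨C, fun z => (h z).trans (mul_le_mul_of_nonneg_left (Real.exp_le_exp.2 ?_) hC)⟩
  nlinarith [norm_nonneg z, mul_nonneg hε.le (norm_nonneg z)]

theorem norm_cosh_le (z : ℂ) : ‖cosh z‖ ≤ Real.exp ‖z‖ := by
  rw [Complex.cosh, norm_div]
  have h1 := norm_exp_le' z
  have h2 := norm_exp_le' (-z)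
  rw [norm_neg] at h2
  have h3 := norm_add_le (exp z) (exp (-z))
  rw [div_le_iff₀ (by simp)]
  simp only [Complex.norm_ofNat]
  linarith

theorem norm_sinh_le (z : ℂ) : ‖sinh z‖ ≤ Real.exp ‖z‖ := by
  rw [Complex.sinh, norm_div]
  have h1 := norm_exp_le' z
  have h2 := norm_exp_le' (-z)
  rw [norm_neg] at h2
  have h3 := norm_sub_le (exp z) (exp (-z))
  rw [div_le_iff₀ (by simp)]
  simp only [Complex.norm_ofNat]
  linarith

theorem norm_sin_le (z : ℂ) : ‖sin z‖ ≤ Real.exp ‖z‖ := by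
  have h1 : ‖sin z‖ = ‖sinh (z * I)‖ := by
    rw [Complex.sinh_mul_I, norm_mul, Complex.norm_I, mul_one]
  rw [h1]
  have := norm_sinh_le (z * I)
  rwa [norm_mul, Complex.norm_I, mul_one] at this

theorem hasType_cosh : HasType cosh 1 := by
  constructor
  · exact typeLE_of_norm_le_exp (C := 1) zero_le_one (fun z => by rw [one_mul]; exact norm_cosh_le z)
  · intro t ht
    by_contra hcon
    push Not at hcon
    obtain ⟨C, hC⟩ := ht ((1 - t) / 2) (by linarith)
    -- `e^x / 2 ≤ C e^{(1+t)x/2}` fails for large `x`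
    have h1 : ∀ x : ℝ, 0 ≤ x → Real.exp ((1 - t) / 2 * x) ≤ 2 * C := by
      intro x hx
      have h2 := hC x
      rw [← Complex.ofReal_cosh, Complex.norm_real, Real.norm_eq_abs,
        abs_of_pos (Real.cosh_pos x), Complex.norm_real, Real.norm_eq_abs, abs_of_nonneg hx] at h2
      have h3 : Real.exp x / 2 ≤ Real.cosh x := by
        rw [Real.cosh_eq]
        have := Real.exp_pos (-x)
        linarith
      have h4 : Real.exp x = Real.exp ((t + (1 - t) / 2) * x) * Real.exp ((1 - t) / 2 * x) := by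
        rw [← Real.exp_add]; congr 1; ring
      have h5 : 0 < Real.exp ((t + (1 - t) / 2) * x) := Real.exp_pos _
      have h6 : Real.exp ((t + (1 - t) / 2) * x) * Real.exp ((1 - t) / 2 * x)
          ≤ Real.exp ((t + (1 - t) / 2) * x) * (2 * C) := by
        rw [← h4]; linarith
      exact le_of_mul_le_mul_left h6 h5
    have h2 : Tendsto (fun x : ℝ => Real.exp ((1 - t) / 2 * x)) atTop atTop :=
      Real.tendsto_exp_atTop.comp (tendsto_id.const_mul_atTop (by linarith))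
    obtain ⟨x, hx1, hx2⟩ := ((h2.eventually_gt_atTop (2 * C)).and (eventually_ge_atTop 0)).exists
    exact absurd (h1 x hx2) (not_le.2 hx1)

theorem norm_sinh_le_cosh (x : ℝ) : ‖sinh (x : ℂ)‖ ≤ ‖cosh (x : ℂ)‖ := by
  rw [← Complex.ofReal_sinh, ← Complex.ofReal_cosh, Complex.norm_real, Complex.norm_real,
    Real.norm_eq_abs, Real.norm_eq_abs, abs_of_pos (Real.cosh_pos x)]
  rw [abs_le]
  have h1 := Real.cosh_sq x
  have h2 := Real.cosh_pos x
  constructor <;> nlinarith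

theorem cosh_deriv_mem : deriv cosh ∈ Esub cosh 1 := by
  have h : deriv cosh = sinh := by
    funext z; exact (Complex.hasDerivAt_cosh z).deriv
  rw [h]
  exact ⟨Complex.differentiable_sinh,
    typeLE_of_norm_le_exp (C := 1) zero_le_one (fun z => by rw [one_mul]; exact norm_sinh_le z),
    1, fun x => by rw [one_mul]; exact norm_sinh_le_cosh x⟩

/-- The function `(4/5) sinh z + (3/5) sin z`. -/
noncomputable def bad (z : ℂ) : ℂ := 4 / 5 * sinh z + 3 / 5 * sin z

theorem bad_hasDerivAt (z : ℂ) : HasDerivAt bad (4 / 5 * cosh z + 3 / 5 * cos z) z := by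
  have h1 := (Complex.hasDerivAt_sinh z).const_mul (4 / 5 : ℂ)
  have h2 := (Complex.hasDerivAt_sin z).const_mul (3 / 5 : ℂ)
  exact h1.add h2

theorem bad_real (x : ℝ) : ‖bad x‖ ≤ 1 * ‖cosh (x : ℂ)‖ := by
  have h1 : bad x = ((4 / 5 * Real.sinh x + 3 / 5 * Real.sin x : ℝ) : ℂ) := by
    unfold bad; push_cast; ring
  rw [h1, ← Complex.ofReal_cosh, Complex.norm_real, Complex.norm_real, Real.norm_eq_abs,
    Real.norm_eq_abs, abs_of_pos (Real.cosh_pos x), one_mul]
  apply abs_le_of_sq_le_sq _ (Real.cosh_pos x).le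
  have h2 := Real.cosh_sq x
  have h3 := Real.sin_sq_le_one x
  rw [h2]
  nlinarith [sq_nonneg (3 / 5 * Real.sinh x - 4 / 5 * Real.sin x)]

theorem bad_mem : bad ∈ Esub cosh 1 := by
  refine ⟨fun z => (bad_hasDerivAt z).differentiableAt,
    typeLE_of_norm_le_exp (C := 2) (by norm_num) (fun z => ?_), 1, bad_real⟩
  unfold bad
  refine (norm_add_le _ _).trans ?_
  rw [norm_mul, norm_mul]
  have h1 := norm_sinh_le z
  have h2 := norm_sin_le z
  have h3 : ‖(4 / 5 : ℂ)‖ = 4 / 5 := by norm_num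
  have h4 : ‖(3 / 5 : ℂ)‖ = 3 / 5 := by norm_num
  rw [h3, h4]
  linarith [Real.exp_pos ‖z‖]

/-- `ω = cosh`, `σ = 1` satisfies all written hypotheses of the setting, `‖ω'‖ ≤ 1`, but some
`f ∈ E_ω` with `‖f‖ ≤ 1` has `‖f'(0)/ω(0)‖ = 7/5`. -/
def CoshExample : Prop :=
  Differentiable ℂ cosh ∧ HasType cosh 1 ∧ (∀ z : ℂ, 0 < z.im → ‖cosh (-z)‖ ≤ ‖cosh z‖) ∧
  (∃ w : Space cosh 1, w.fn = deriv cosh ∧ ‖w‖ ≤ 1) ∧
  ∃ f : Space cosh 1, ‖f‖ ≤ 1 ∧ ‖deriv f.fn 0 / cosh 0‖ = 7 / 5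

theorem coshExample : CoshExample := by
  refine ⟨Complex.differentiable_cosh, hasType_cosh, fun z _ => by rw [Complex.cosh_neg],
    ⟨⟨_, cosh_deriv_mem⟩, rfl, ?_⟩, ⟨⟨_, bad_mem⟩, ?_, ?_⟩⟩
  · refine Space.norm_le _ zero_le_one fun x => ?_
    have h : deriv cosh (x : ℂ) = sinh x := (Complex.hasDerivAt_cosh _).deriv
    change ‖deriv cosh (x : ℂ)‖ ≤ _
    rw [h, one_mul]
    exact norm_sinh_le_cosh x
  · exact Space.norm_le _ zero_le_one bad_real
  · change ‖deriv bad 0 / cosh 0‖ = 7 / 5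
    rw [(bad_hasDerivAt 0).deriv, Complex.cosh_zero, Complex.cos_zero]
    norm_num

end Pool.Agent.Work.MP_6d8919_an
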