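import Pool.Agent.Work.MP_6d8919_an.Basic

/-!
# Schwarz–Pick and Harnack estimates for zero-free holomorphic functions on a disc
-/

open Complex Set Filter Topology Metric MeasureTheory
open scoped Real ComplexConjugate

namespace Pool.Agent.Work.MP_6d8919_an

/-- A zero-free holomorphic function on a disc has a logarithm. -/
theorem exists_log_ball {G : ℂ → ℂ} {c : ℂ} {ρ : ℝ} (hρ : 0 < ρ)
    (hG : DifferentiableOn ℂ G (ball c ρ)) (hne : ∀ z ∈ ball c ρ, G z ≠ 0) :
    ∃ L : ℂ → ℂ, (∀ z ∈ ball c ρ, HasDerivAt L (deriv G z / G z) z) ∧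
      ∀ z ∈ ball c ρ, exp (L z) = G z := by
  have hd : DifferentiableOn ℂ (fun z => deriv G z / G z) (ball c ρ) :=
    (hG.deriv isOpen_ball).div hG hne
  obtain ⟨L, hLc, hL⟩ := hd.isExactOn_ball.with_val_at c (log (G c))
  refine ⟨L, hL, ?_⟩
  have hcm : c ∈ ball c ρ := mem_ball_self hρ
  have hGd : ∀ z ∈ ball c ρ, HasDerivAt G (deriv G z) z := fun z hz =>
    (hG.differentiableAt (isOpen_ball.mem_nhds hz)).hasDerivAt
  have hder : ∀ z ∈ ball c ρ, HasDerivAt (fun z => G z * exp (-L z)) 0 z := by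
    intro z hz
    have h1 := (hGd z hz).mul ((hL z hz).neg.cexp)
    refine h1.congr_deriv ?_
    have := hne z hz
    field_simp
    ring
  have hconst : ∀ z ∈ ball c ρ, G z * exp (-L z) = G c * exp (-L c) := by
    intro z hz
    refine (convex_ball c ρ).is_const_of_fderivWithin_eq_zero (𝕜 := ℂ)
      (f := fun z => G z * exp (-L z)) ?_ ?_ hz hcm
    · intro w hw
      exact (hder w hw).differentiableAt.differentiableWithinAt
    · intro w hw
      rw [fderivWithin_of_isOpen isOpen_ball hw]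
      have := (hder w hw).hasFDerivAt.fderiv
      rw [this]
      ext
      simp
  intro z hz
  have h1 := hconst z hz
  rw [hLc, exp_neg (log (G c)), exp_log (hne c hcm), mul_inv_cancel₀ (hne c hcm), exp_neg] at h1
  have h2 : exp (L z) ≠ 0 := exp_ne_zero _
  field_simp at h1
  exact h1.symm

/-- The Schwarz–Pick estimates for a holomorphic function with positive real part. -/
theorem re_pos_estimates {f : ℂ → ℂ} {c : ℂ} {ρ : ℝ} (hρ : 0 < ρ)
    (hf : DifferentiableOn ℂ f (ball c ρ)) (hp : ∀ z ∈ ball c ρ, 0 < (f z).re) :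
    ‖deriv f c‖ ≤ 2 / ρ * (f c).re ∧ ∀ z ∈ ball c ρ,
      (ρ - ‖z - c‖) * (f z).re ≤ (ρ + ‖z - c‖) * (f c).re ∧
      (ρ - ‖z - c‖) * (f c).re ≤ (ρ + ‖z - c‖) * (f z).re := by
  have hcm : c ∈ ball c ρ := mem_ball_self hρ
  set a := f c with ha
  have hα : 0 < a.re := hp c hcm
  set h : ℂ → ℂ := fun z => (f z - a) / (f z + conj a) with hh
  have hden : ∀ z ∈ ball c ρ, f z + conj a ≠ 0 := by
    intro z hz h0
    have := congrArg Complex.re h0
    simp only [add_re, conj_re, zero_re] at this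
    linarith [hp z hz]
  have hhc : h c = 0 := by simp [hh, ← ha]
  have hhd : DifferentiableOn ℂ h (ball c ρ) :=
    (hf.sub_const a).div (hf.add_const _) hden
  have hmaps : MapsTo h (ball c ρ) (closedBall (h c) 1) := by
    intro z hz
    rw [hhc, mem_closedBall, dist_zero_right, hh]
    simp only
    rw [norm_div, div_le_one (norm_pos_iff.2 (hden z hz))]
    rw [← abs_of_nonneg (norm_nonneg (f z - a)), ← abs_of_nonneg (norm_nonneg (f z + conj a)),
      ← sq_le_sq, ← Complex.normSq_eq_norm_sq, ← Complex.normSq_eq_norm_sq,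
      Complex.normSq_apply, Complex.normSq_apply]
    simp only [add_re, add_im, sub_re, sub_im, conj_re, conj_im]
    have := mul_pos (hp z hz) hα
    nlinarith
  constructor
  · have h1 := norm_deriv_le_div_of_mapsTo_ball hhd hmaps hρ
    have hfd : HasDerivAt f (deriv f c) c :=
      (hf.differentiableAt (isOpen_ball.mem_nhds hcm)).hasDerivAt
    have h2 : HasDerivAt h (deriv f c / (a + conj a)) c := by
      have h3 := (hfd.sub_const a).div (hfd.add_const (conj a)) (hden c hcm)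
      refine h3.congr_deriv ?_
      rw [← ha, sub_self, zero_mul, sub_zero]
      have h4 : a + conj a ≠ 0 := hden c hcm
      field_simp
    rw [h2.deriv, norm_div] at h1
    have h5 : ‖a + conj a‖ = 2 * a.re := by
      rw [Complex.add_conj, Complex.norm_real, Real.norm_eq_abs, abs_of_pos (by positivity)]
    rw [h5, div_le_div_iff₀ (by positivity) hρ] at h1
    rw [div_mul_eq_mul_div, le_div_iff₀ hρ]
    linarith
  · intro z hz
    have h1 := dist_le_div_mul_dist_of_mapsTo_ball hhd hmaps hz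
    rw [hhc, dist_zero_right, dist_eq_norm_sub] at h1
    have hr : ‖z - c‖ < ρ := by
      rwa [mem_ball, dist_eq_norm_sub] at hz
    set r := ‖z - c‖ with hrd
    have hr0 : 0 ≤ r := norm_nonneg _
    have hu := hp z hz
    -- the squared inequality
    have h2 : ρ * ‖f z - a‖ ≤ r * ‖f z + conj a‖ := by
      have h3 : ‖h z‖ = ‖f z - a‖ / ‖f z + conj a‖ := by
        rw [hh]; simp only [norm_div]
      rw [h3, div_le_iff₀ (norm_pos_iff.2 (hden z hz))] at h1
      have h4 := mul_le_mul_of_nonneg_left h1 hρ.le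
      have h5 : ρ * (1 / ρ * r * ‖f z + conj a‖) = r * ‖f z + conj a‖ := by
        field_simp
      rwa [h5] at h4
    have h3 : (ρ * ‖f z - a‖) ^ 2 ≤ (r * ‖f z + conj a‖) ^ 2 :=
      pow_le_pow_left₀ (by positivity) h2 2
    rw [mul_pow, mul_pow, ← Complex.normSq_eq_norm_sq (f z - a),
      ← Complex.normSq_eq_norm_sq (f z + conj a),
      Complex.normSq_apply, Complex.normSq_apply] at h3
    simp only [add_re, add_im, sub_re, sub_im, conj_re, conj_im] at h3
    set u := (f z).re with hud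
    set v := (f z).im with hvd
    have h4 : (ρ * (u - a.re)) ^ 2 ≤ (r * (u + a.re)) ^ 2 := by
      have h5 : (r ^ 2) * ((v - a.im) * (v - a.im)) ≤ (ρ ^ 2) * ((v - a.im) * (v - a.im)) :=
        mul_le_mul_of_nonneg_right (pow_le_pow_left₀ hr0 hr.le 2) (mul_self_nonneg _)
      nlinarith
    have h5 : |ρ * (u - a.re)| ≤ r * (u + a.re) := by
      have := abs_le_of_sq_le_sq' h4 (by positivity)
      exact abs_le.2 this
    have h6 := abs_le.1 h5
    constructor <;> nlinarith [h6.1, h6.2]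

/-- The estimates in the closed case `0 ≤ Re f`. -/
theorem re_nonneg_estimates {f : ℂ → ℂ} {c : ℂ} {ρ : ℝ} (hρ : 0 < ρ)
    (hf : DifferentiableOn ℂ f (ball c ρ)) (hp : ∀ z ∈ ball c ρ, 0 ≤ (f z).re) :
    ‖deriv f c‖ ≤ 2 / ρ * (f c).re ∧ ∀ z ∈ ball c ρ,
      (ρ - ‖z - c‖) * (f z).re ≤ (ρ + ‖z - c‖) * (f c).re ∧
      (ρ - ‖z - c‖) * (f c).re ≤ (ρ + ‖z - c‖) * (f z).re := by
  have key : ∀ η : ℝ, 0 < η → ‖deriv f c‖ ≤ 2 / ρ * ((f c).re + η) ∧ ∀ z ∈ ball c ρ,
      (ρ - ‖z - c‖) * ((f z).re + η) ≤ (ρ + ‖z - c‖) * ((f c).re + η) ∧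
      (ρ - ‖z - c‖) * ((f c).re + η) ≤ (ρ + ‖z - c‖) * ((f z).re + η) := by
    intro η hη
    have := re_pos_estimates (f := fun z => f z + (η : ℂ)) (c := c) hρ (hf.add_const _) (by
      intro z hz
      simp only [add_re, ofReal_re]
      linarith [hp z hz])
    simpa [deriv_add_const] using this
  constructor
  · refine le_of_forall_pos_le_add fun ε hε => ?_
    have h1 := (key (ε * ρ / 2) (by positivity)).1
    have h2 : 2 / ρ * ((f c).re + ε * ρ / 2) = 2 / ρ * (f c).re + ε := by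
      field_simp
    linarith
  · intro z hz
    have hr : ‖z - c‖ < ρ := by
      rwa [mem_ball, dist_eq_norm_sub] at hz
    have hr0 : 0 ≤ ‖z - c‖ := norm_nonneg _
    constructor
    · refine le_of_forall_pos_le_add fun ε hε => ?_
      have h1 := ((key (ε / (2 * ρ)) (by positivity)).2 z hz).1
      have h3 : (ρ + ‖z - c‖) * (ε / (2 * ρ)) ≤ ε := by
        rw [mul_div_assoc', div_le_iff₀ (by positivity)]
        nlinarith
      have h4 : 0 ≤ (ρ - ‖z - c‖) * (ε / (2 * ρ)) := by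
        have : 0 ≤ ρ - ‖z - c‖ := by linarith
        positivity
      nlinarith
    · refine le_of_forall_pos_le_add fun ε hε => ?_
      have h1 := ((key (ε / (2 * ρ)) (by positivity)).2 z hz).2
      have h3 : (ρ + ‖z - c‖) * (ε / (2 * ρ)) ≤ ε := by
        rw [mul_div_assoc', div_le_iff₀ (by positivity)]
        nlinarith
      have h4 : 0 ≤ (ρ - ‖z - c‖) * (ε / (2 * ρ)) := by
        have : 0 ≤ ρ - ‖z - c‖ := by linarith
        positivity
      nlinarith

/-- All three estimates for a zero-free function bounded by `K`. -/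
theorem zero_free_estimates {G : ℂ → ℂ} {c : ℂ} {ρ K : ℝ} (hρ : 0 < ρ)
    (hG : DifferentiableOn ℂ G (ball c ρ)) (hne : ∀ z ∈ ball c ρ, G z ≠ 0)
    (hK : ∀ z ∈ ball c ρ, ‖G z‖ ≤ K) :
    ‖deriv G c / G c‖ ≤ 2 / ρ * Real.log (K / ‖G c‖) ∧ ∀ z ∈ ball c ρ,
      (ρ - ‖z - c‖) * Real.log (K / ‖G z‖) ≤ (ρ + ‖z - c‖) * Real.log (K / ‖G c‖) ∧
      (ρ - ‖z - c‖) * Real.log (K / ‖G c‖) ≤ (ρ + ‖z - c‖) * Real.log (K / ‖G z‖) := by
  have hcm : c ∈ ball c ρ := mem_ball_self hρ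
  obtain ⟨L, hL, hexp⟩ := exists_log_ball hρ hG hne
  have hK0 : 0 < K := lt_of_lt_of_le (norm_pos_iff.2 (hne c hcm)) (hK c hcm)
  have hre : ∀ z ∈ ball c ρ, ((Real.log K : ℂ) - L z).re = Real.log (K / ‖G z‖) := by
    intro z hz
    have h1 : 0 < ‖G z‖ := norm_pos_iff.2 (hne z hz)
    rw [Real.log_div hK0.ne' h1.ne', ← hexp z hz, Complex.norm_exp, Real.log_exp]
    simp
  have hnn : ∀ z ∈ ball c ρ, 0 ≤ ((Real.log K : ℂ) - L z).re := by
    intro z hz
    rw [hre z hz]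
    have h1 : 0 < ‖G z‖ := norm_pos_iff.2 (hne z hz)
    exact Real.log_nonneg ((one_le_div h1).2 (hK z hz))
  have hd : DifferentiableOn ℂ (fun z => (Real.log K : ℂ) - L z) (ball c ρ) := fun z hz =>
    ((hL z hz).const_sub _).differentiableAt.differentiableWithinAt
  have key := re_nonneg_estimates hρ hd hnn
  refine ⟨?_, ?_⟩
  · have h1 := key.1
    rw [((hL c hcm).const_sub _).deriv, norm_neg, hre c hcm] at h1
    exact h1
  · intro z hz
    have h1 := key.2 z hz
    rw [hre z hz, hre c hcm] at h1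
    exact h1

theorem logDeriv_le {G : ℂ → ℂ} {c : ℂ} {ρ K : ℝ} (hρ : 0 < ρ)
    (hG : DifferentiableOn ℂ G (ball c ρ)) (hne : ∀ z ∈ ball c ρ, G z ≠ 0)
    (hK : ∀ z ∈ ball c ρ, ‖G z‖ ≤ K) :
    ‖deriv G c / G c‖ ≤ 2 / ρ * Real.log (K / ‖G c‖) :=
  (zero_free_estimates hρ hG hne hK).1

theorem harnack_out {G : ℂ → ℂ} {c : ℂ} {ρ K : ℝ} (hρ : 0 < ρ)
    (hG : DifferentiableOn ℂ G (ball c ρ)) (hne : ∀ z ∈ ball c ρ, G z ≠ 0)
    (hK : ∀ z ∈ ball c ρ, ‖G z‖ ≤ K) {z : ℂ} (hz : z ∈ ball c ρ) :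
    Real.log (K / ‖G z‖) ≤ (ρ + ‖z - c‖) / (ρ - ‖z - c‖) * Real.log (K / ‖G c‖) := by
  have hr : ‖z - c‖ < ρ := by
    rwa [mem_ball, dist_eq_norm_sub] at hz
  have := ((zero_free_estimates hρ hG hne hK).2 z hz).1
  rw [div_mul_eq_mul_div, le_div_iff₀ (by linarith)]
  linarith

theorem harnack_in {G : ℂ → ℂ} {c : ℂ} {ρ K : ℝ} (hρ : 0 < ρ)
    (hG : DifferentiableOn ℂ G (ball c ρ)) (hne : ∀ z ∈ ball c ρ, G z ≠ 0)
    (hK : ∀ z ∈ ball c ρ, ‖G z‖ ≤ K) {z : ℂ} (hz : z ∈ ball c ρ) :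
    Real.log (K / ‖G c‖) ≤ (ρ + ‖z - c‖) / (ρ - ‖z - c‖) * Real.log (K / ‖G z‖) := by
  have hr : ‖z - c‖ < ρ := by
    rwa [mem_ball, dist_eq_norm_sub] at hz
  have := ((zero_free_estimates hρ hG hne hK).2 z hz).2
  rw [div_mul_eq_mul_div, le_div_iff₀ (by linarith)]
  linarith

end Pool.Agent.Work.MP_6d8919_an
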