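import Pool.Agent.Work.MP_6d8919_an.Basic

/-!
Item J: approximate eigenfunctions give admissible points.
-/

open Complex Set Filter Topology Metric MeasureTheory
open scoped Real ComplexConjugate

namespace Pool.Agent.Work.MP_6d8919_an

theorem norm_exp_mul (l z : ℂ) : ‖exp (l * z)‖ = Real.exp (l.re * z.re - l.im * z.im) := by
  rw [Complex.norm_exp, Complex.mul_re]

theorem adm_of_approx {ω : ℂ → ℂ} {M : ℝ} (hω : Core ω M) {l : ℂ}
    (H : ∀ ε : ℝ, 0 < ε → ∃ f : ℂ → ℂ, Differentiable ℂ f ∧ (∀ z, ‖f z‖ ≤ wt ω z) ∧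
      (∀ z, ‖deriv f z - l * f z‖ ≤ ε * wt ω z) ∧ ∃ x : ℝ, (1 - ε) * ‖ω x‖ ≤ ‖f x‖) :
    l ∈ Adm ω := by
  intro R ε hε
  have hM := hω.M_nonneg
  set R' : ℝ := max R 0 with hR'
  have hR0 : 0 ≤ R' := le_max_right _ _
  -- choice of the small parameter
  set D : ℝ := 1 + R' * Real.exp ((M + ‖l‖) * R') with hD
  have hD0 : 0 < D := by positivity
  obtain ⟨ε', hε', hsmall⟩ : ∃ ε' : ℝ, 0 < ε' ∧ Real.exp (-ε) ≤ 1 - ε' * D := by
    have h1 : Real.exp (-ε) < 1 := by rw [Real.exp_lt_one_iff]; linarith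
    refine ⟨(1 - Real.exp (-ε)) / D, div_pos (by linarith) hD0, ?_⟩
    rw [div_mul_cancel₀ _ hD0.ne']
    linarith
  obtain ⟨f, hfd, hfw, hfe, x, hx⟩ := H ε' hε'
  have hwx : 0 < ‖ω x‖ := norm_pos_iff.2 (hω.ne x (by simp))
  -- the main estimate
  have key : ∀ z : ℂ, ‖z‖ ≤ R' → Real.exp (l.re * z.re - l.im * z.im - ε) * ‖ω x‖ ≤
      wt ω (x + z) := by
    intro z hz
    set F : ℝ → ℂ := fun s => f (x + s * z) * exp (-(l * (s * z))) with hF
    have hder : ∀ s : ℝ, HasDerivAt F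
        (z * (deriv f (x + s * z) - l * f (x + s * z)) * exp (-(l * (s * z)))) s := by
      intro s
      have h0 : HasDerivAt (fun s : ℝ => (s : ℂ) * z) z s := by
        have := (Complex.ofRealCLM.hasDerivAt (x := s)).mul_const z
        simpa using this
      have h1 : HasDerivAt (fun s : ℝ => (x : ℂ) + (s : ℂ) * z) z s := h0.const_add _
      have h2 : HasDerivAt (fun s : ℝ => f (x + s * z)) (deriv f (x + s * z) * z) s :=
        (hfd (x + s * z)).hasDerivAt.comp s h1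
      have h3 : HasDerivAt (fun s : ℝ => exp (-(l * (s * z))))
          (exp (-(l * (s * z))) * (-(l * z))) s := ((h0.const_mul l).neg).cexp
      have h4 := h2.mul h3
      refine h4.congr_deriv ?_
      ring
    have hbound : ∀ s ∈ Icc (0 : ℝ) 1, ‖z * (deriv f (x + s * z) - l * f (x + s * z)) *
        exp (-(l * (s * z)))‖ ≤ R' * ε' * Real.exp ((M + ‖l‖) * R') * ‖ω x‖ := by
      intro s hs
      have hsz : ‖(s : ℂ) * z‖ ≤ R' := by
        rw [norm_mul, Complex.norm_real, Real.norm_eq_abs, abs_of_nonneg hs.1]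
        calc s * ‖z‖ ≤ 1 * ‖z‖ := mul_le_mul_of_nonneg_right hs.2 (norm_nonneg _)
          _ ≤ R' := by rw [one_mul]; exact hz
      rw [norm_mul, norm_mul]
      have h1 : ‖exp (-(l * (s * z)))‖ ≤ Real.exp (‖l‖ * R') := by
        rw [Complex.norm_exp]
        apply Real.exp_le_exp.2
        calc (-(l * (s * z))).re ≤ ‖-(l * (s * z))‖ := Complex.re_le_norm _
          _ = ‖l‖ * ‖(s : ℂ) * z‖ := by rw [norm_neg, norm_mul]
          _ ≤ ‖l‖ * R' := mul_le_mul_of_nonneg_left hsz (norm_nonneg _)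
      have h2 : ‖deriv f (x + s * z) - l * f (x + s * z)‖ ≤ ε' * (Real.exp (M * R') * ‖ω x‖) := by
        refine (hfe _).trans (mul_le_mul_of_nonneg_left ?_ hε'.le)
        refine (wt_add hω _ _).trans ?_
        rw [wt_real]
        exact mul_le_mul_of_nonneg_right (Real.exp_le_exp.2 (mul_le_mul_of_nonneg_left hsz hM))
          hwx.le
      calc ‖z‖ * ‖deriv f (x + s * z) - l * f (x + s * z)‖ * ‖exp (-(l * (s * z)))‖
          ≤ R' * (ε' * (Real.exp (M * R') * ‖ω x‖)) * Real.exp (‖l‖ * R') := by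
            gcongr
        _ = R' * ε' * (Real.exp (M * R') * Real.exp (‖l‖ * R')) * ‖ω x‖ := by ring
        _ = R' * ε' * Real.exp ((M + ‖l‖) * R') * ‖ω x‖ := by
            rw [← Real.exp_add]; congr 3; ring
    have h1 : ‖F 1 - F 0‖ ≤ R' * ε' * Real.exp ((M + ‖l‖) * R') * ‖ω x‖ * (1 - 0) :=
      norm_image_sub_le_of_norm_deriv_le_segment' (fun s _ => (hder s).hasDerivWithinAt)
        (fun s hs => hbound s ⟨hs.1, hs.2.le⟩) 1 (right_mem_Icc.2 zero_le_one)
    have hF0 : F 0 = f x := by simp [hF]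
    have hF1 : F 1 = f (x + z) * exp (-(l * z)) := by simp [hF]
    have h2 : ‖f x‖ ≤ ‖F 1‖ + R' * ε' * Real.exp ((M + ‖l‖) * R') * ‖ω x‖ := by
      have h3 : ‖F 0‖ ≤ ‖F 1‖ + ‖F 1 - F 0‖ := by
        calc ‖F 0‖ = ‖F 1 - (F 1 - F 0)‖ := by rw [sub_sub_cancel]
          _ ≤ ‖F 1‖ + ‖F 1 - F 0‖ := norm_sub_le _ _
      rw [hF0] at h3
      rw [hF0] at h1
      linarith
    have h3 : Real.exp (-ε) * ‖ω x‖ ≤ ‖F 1‖ := by
      have h4 : Real.exp (-ε) * ‖ω x‖ ≤ (1 - ε' * D) * ‖ω x‖ :=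
        mul_le_mul_of_nonneg_right hsmall hwx.le
      rw [hD] at h4
      linarith [hx]
    have h4 : ‖F 1‖ = ‖f (x + z)‖ * Real.exp (-(l.re * z.re - l.im * z.im)) := by
      rw [hF1, norm_mul, Complex.norm_exp]
      congr 2
    have h5 : Real.exp (l.re * z.re - l.im * z.im - ε) * ‖ω x‖ ≤ ‖f (x + z)‖ := by
      rw [h4] at h3
      have h6 := mul_le_mul_of_nonneg_left h3 (Real.exp_pos (l.re * z.re - l.im * z.im)).le
      calc Real.exp (l.re * z.re - l.im * z.im - ε) * ‖ω x‖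
          = Real.exp (l.re * z.re - l.im * z.im) * (Real.exp (-ε) * ‖ω x‖) := by
            rw [← mul_assoc, ← Real.exp_add]; congr 2
        _ ≤ Real.exp (l.re * z.re - l.im * z.im) *
            (‖f (x + z)‖ * Real.exp (-(l.re * z.re - l.im * z.im))) := h6
        _ = ‖f (x + z)‖ * (Real.exp (l.re * z.re - l.im * z.im) *
            Real.exp (-(l.re * z.re - l.im * z.im))) := by ring
        _ = ‖f (x + z)‖ := by rw [← Real.exp_add, add_neg_cancel, Real.exp_zero, mul_one]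
    exact h5.trans (hfw _)
  refine ⟨x, fun z hz him => ?_⟩
  have hzR : ‖z‖ ≤ R' := hz.trans (le_max_left _ _)
  rcases le_total 0 l.im with hl | hl
  · have h1 := key (conj z) (by rw [Complex.norm_conj]; exact hzR)
    have h2 : (x : ℂ) + conj z = conj ((x : ℂ) + z) := by rw [map_add, Complex.conj_ofReal]
    rw [h2, wt_conj, wt_of_nonneg ω (by simpa using him), Complex.conj_re, Complex.conj_im] at h1
    rw [abs_of_nonneg hl]
    convert h1 using 3
    ring
  · have h1 := key z hzR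
    rw [wt_of_nonneg ω (by simpa using him)] at h1
    rw [abs_of_nonpos hl]
    convert h1 using 3
    ring

theorem adm_norm_le {ω : ℂ → ℂ} {M : ℝ} (hω : Core ω M) {l : ℂ} (hl : l ∈ Adm ω) : ‖l‖ ≤ M := by
  have hM := hω.M_nonneg
  rcases eq_or_ne l 0 with rfl | hl0
  · simpa using hM
  have hn : 0 < ‖l‖ := norm_pos_iff.2 hl0
  by_contra hcon
  push Not at hcon
  -- choose R with (|l| - M) R > 1
  set R : ℝ := 2 / (‖l‖ - M) with hR
  have hR0 : 0 < R := div_pos two_pos (by linarith)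
  obtain ⟨x, hx⟩ := hl R 1 one_pos
  have hwx : 0 < ‖ω x‖ := norm_pos_iff.2 (hω.ne x (by simp))
  set z : ℂ := ⟨R * l.re / ‖l‖, R * |l.im| / ‖l‖⟩ with hz
  have hzn : ‖z‖ = R := by
    have h1 : ‖z‖ ^ 2 = R ^ 2 := by
      rw [← Complex.normSq_eq_norm_sq, Complex.normSq_apply, hz]
      have h2 : ‖l‖ ^ 2 = l.re ^ 2 + |l.im| ^ 2 := by
        rw [← Complex.normSq_eq_norm_sq, Complex.normSq_apply, sq_abs]; ring
      simp only
      have h3 : R * l.re / ‖l‖ * (R * l.re / ‖l‖) + R * |l.im| / ‖l‖ * (R * |l.im| / ‖l‖) =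
          R ^ 2 * (l.re ^ 2 + |l.im| ^ 2) / ‖l‖ ^ 2 := by
        field_simp
      rw [h3, ← h2]
      field_simp
    have h2 : 0 ≤ ‖z‖ := norm_nonneg _
    nlinarith
  have hzim : 0 ≤ z.im := by rw [hz]; positivity
  have h1 := hx z hzn.le hzim
  have h2 : ‖ω (x + z)‖ ≤ Real.exp (M * R) * ‖ω x‖ := by
    have := lip_exp hω.entire hω.bd (z := (x : ℂ)) (w := (x : ℂ) + z) (by simp)
      (by simpa using hzim)
    rwa [add_sub_cancel_left, hzn] at this
  have h3 : l.re * z.re + |l.im| * z.im = ‖l‖ * R := by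
    have h2 : ‖l‖ ^ 2 = l.re ^ 2 + |l.im| ^ 2 := by
      rw [← Complex.normSq_eq_norm_sq, Complex.normSq_apply, sq_abs]; ring
    rw [hz]
    simp only
    have h4 : l.re * (R * l.re / ‖l‖) + |l.im| * (R * |l.im| / ‖l‖) =
        R * (l.re ^ 2 + |l.im| ^ 2) / ‖l‖ := by
      field_simp
    rw [h4, ← h2]
    field_simp
  rw [h3] at h1
  have h4 : Real.exp (‖l‖ * R - 1) ≤ Real.exp (M * R) :=
    le_of_mul_le_mul_right (h1.trans h2) hwx
  have h5 := Real.exp_le_exp.1 h4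
  have h6 : (‖l‖ - M) * R = 2 := by rw [hR]; field_simp
  linarith

theorem isClosed_adm (ω : ℂ → ℂ) : IsClosed (Adm ω) := by
  refine isClosed_of_closure_subset fun l hl => ?_
  intro R ε hε
  set R' : ℝ := max R 1 with hR'
  have hR1 : 1 ≤ R' := le_max_right _ _
  obtain ⟨l', hl', hd⟩ := Metric.mem_closure_iff.1 hl (ε / (4 * R')) (by positivity)
  obtain ⟨x, hx⟩ := hl' R' (ε / 2) (by linarith)
  refine ⟨x, fun z hz hzi => le_trans ?_ (hx z (hz.trans (le_max_left _ _)) hzi)⟩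
  apply mul_le_mul_of_nonneg_right _ (norm_nonneg _)
  apply Real.exp_le_exp.2
  rw [dist_eq_norm] at hd
  have h1 : (l.re - l'.re) * z.re ≤ ‖l - l'‖ * ‖z‖ := by
    have h2 : |l.re - l'.re| ≤ ‖l - l'‖ := by
      have := Complex.abs_re_le_norm (l - l')
      rwa [Complex.sub_re] at this
    calc (l.re - l'.re) * z.re ≤ |(l.re - l'.re) * z.re| := le_abs_self _
      _ = |l.re - l'.re| * |z.re| := abs_mul _ _
      _ ≤ ‖l - l'‖ * ‖z‖ := mul_le_mul h2 (Complex.abs_re_le_norm z) (abs_nonneg _)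
          (norm_nonneg _)
  have h2 : (|l.im| - |l'.im|) * z.im ≤ ‖l - l'‖ * ‖z‖ := by
    have h3 : |l.im| - |l'.im| ≤ ‖l - l'‖ := by
      have := Complex.abs_im_le_norm (l - l')
      rw [Complex.sub_im] at this
      exact (abs_sub_abs_le_abs_sub _ _).trans this
    calc (|l.im| - |l'.im|) * z.im ≤ ‖l - l'‖ * z.im := mul_le_mul_of_nonneg_right h3 hzi
      _ ≤ ‖l - l'‖ * ‖z‖ := mul_le_mul_of_nonneg_left
          ((le_abs_self _).trans (Complex.abs_im_le_norm z)) (norm_nonneg _)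
  have h3 : ‖l - l'‖ * ‖z‖ ≤ ε / 4 := by
    calc ‖l - l'‖ * ‖z‖ ≤ ε / (4 * R') * R' :=
          mul_le_mul hd.le (hz.trans (le_max_left _ _)) (norm_nonneg _) (by positivity)
      _ = ε / 4 := by field_simp
  linarith

theorem adm_of_le {ω : ℂ → ℂ} {l l' : ℂ} (hre : l'.re = l.re) (him : |l'.im| ≤ |l.im|)
    (hl : l ∈ Adm ω) : l' ∈ Adm ω := by
  intro R ε hε
  obtain ⟨x, hx⟩ := hl R ε hε
  refine ⟨x, fun z hz hzi => le_trans ?_ (hx z hz hzi)⟩
  apply mul_le_mul_of_nonneg_right _ (norm_nonneg _)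
  apply Real.exp_le_exp.2
  rw [hre]
  have := mul_le_mul_of_nonneg_right him hzi
  linarith

end Pool.Agent.Work.MP_6d8919_an
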