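import Pool.Agent.Work.MP_6d8919_an.Defs

/-!
# MP_6d8919_an: basic estimates
-/

open Complex Set Filter Topology Metric Asymptotics Bornology
open scoped ComplexConjugate

namespace Pool.Agent.Work.MP_6d8919_an

/-- Growth hypothesis used several times. -/
def ExpGrowth (g : ℂ → ℂ) : Prop := ∃ A B : ℝ, ∀ z : ℂ, ‖g z‖ ≤ B * Real.exp (A * ‖z‖)

/-- `w^#(z) = conj (w (conj z))` -/
noncomputable def shp (w : ℂ → ℂ) (z : ℂ) : ℂ := conj (w (conj z))

theorem lip_exp {ω : ℂ → ℂ} {M : ℝ} (hd : Differentiable ℂ ω)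
    (hb : ∀ z : ℂ, 0 ≤ z.im → ‖deriv ω z‖ ≤ M * ‖ω z‖) {z w : ℂ} (hz : 0 ≤ z.im) (hw : 0 ≤ w.im) :
    ‖ω w‖ ≤ Real.exp (M * ‖w - z‖) * ‖ω z‖ := by
  set f : ℝ → ℂ := fun t => ω (z + t * (w - z)) with hf
  have hder : ∀ t : ℝ, HasDerivAt f ((w - z) * deriv ω (z + t * (w - z))) t := by
    intro t
    have h1 : HasDerivAt (fun t : ℝ => z + (t : ℂ) * (w - z)) (w - z) t := by
      have := (Complex.ofRealCLM.hasDerivAt (x := t)).mul_const (w - z)
      simpa using this.const_add z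
    have h2 := (hd (z + t * (w - z))).hasDerivAt.scomp t h1
    simpa [Function.comp_def, smul_eq_mul] using h2
  have him : ∀ t : ℝ, t ∈ Ico (0 : ℝ) 1 → 0 ≤ (z + t * (w - z)).im := by
    intro t ht
    have : (z + t * (w - z)).im = (1 - t) * z.im + t * w.im := by
      simp [Complex.add_im, Complex.mul_im]; ring
    rw [this]
    have := ht.1; have := ht.2
    have h1 : 0 ≤ (1 - t) * z.im := mul_nonneg (by linarith) hz
    have h2 : 0 ≤ t * w.im := mul_nonneg (by linarith) hw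
    linarith
  have := norm_le_gronwallBound_of_norm_deriv_right_le (f := f)
    (f' := fun t => (w - z) * deriv ω (z + t * (w - z))) (δ := ‖ω z‖) (K := M * ‖w - z‖) (ε := 0)
    (a := 0) (b := 1) (fun t _ => (hder t).continuousAt.continuousWithinAt)
    (fun t _ => (hder t).hasDerivWithinAt) (by simp [hf]) (by
      intro t ht
      rw [norm_mul, add_zero]
      have h3 := hb _ (him t ht)
      have h4 : ‖w - z‖ * ‖deriv ω (z + t * (w - z))‖ ≤ ‖w - z‖ * (M * ‖ω (z + t * (w - z))‖) :=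
        mul_le_mul_of_nonneg_left h3 (norm_nonneg _)
      calc _ ≤ _ := h4
        _ = _ := by simp only [hf]; ring) 1 (by simp)
  rw [gronwallBound_ε0] at this
  simp only [hf] at this
  have h5 : z + ((1 : ℝ) : ℂ) * (w - z) = w := by push_cast; ring
  rw [h5] at this
  calc _ ≤ _ := this
    _ = _ := by rw [sub_zero, mul_one]; ring

theorem Core.M_nonneg {ω : ℂ → ℂ} {M : ℝ} (hω : Core ω M) : 0 ≤ M := by
  have h1 := hω.bd 0 (by simp)
  have h2 : 0 < ‖ω 0‖ := norm_pos_iff.2 (hω.ne 0 (by simp))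
  by_contra h
  push Not at h
  have : M * ‖ω 0‖ < 0 := mul_neg_of_neg_of_pos h h2
  linarith [norm_nonneg (deriv ω 0)]

theorem wt_nonneg (ω : ℂ → ℂ) (z : ℂ) : 0 ≤ wt ω z := norm_nonneg _

theorem wt_of_nonneg (ω : ℂ → ℂ) {z : ℂ} (hz : 0 ≤ z.im) : wt ω z = ‖ω z‖ := by
  unfold wt; rw [abs_of_nonneg hz]

theorem wt_real (ω : ℂ → ℂ) (x : ℝ) : wt ω x = ‖ω x‖ := wt_of_nonneg ω (by simp)

theorem wt_conj (ω : ℂ → ℂ) (z : ℂ) : wt ω (conj z) = wt ω z := by
  unfold wt; simp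

theorem wt_of_nonpos (ω : ℂ → ℂ) {z : ℂ} (hz : z.im ≤ 0) : wt ω z = ‖ω (conj z)‖ := by
  rw [← wt_conj, wt_of_nonneg]; simpa using hz

theorem Core.wt_pos {ω : ℂ → ℂ} {M : ℝ} (hω : Core ω M) (z : ℂ) : 0 < wt ω z :=
  norm_pos_iff.2 (hω.ne _ (abs_nonneg _))

theorem Core.norm_le_wt {ω : ℂ → ℂ} {M : ℝ} (hω : Core ω M) (z : ℂ) : ‖ω z‖ ≤ wt ω z := by
  rcases le_total 0 z.im with h | h
  · rw [wt_of_nonneg ω h]
  · rw [wt_of_nonpos ω h]
    have := hω.conj_le (conj z) (by simpa using h)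
    simpa using this

theorem wt_add {ω : ℂ → ℂ} {M : ℝ} (hω : Core ω M) (z h : ℂ) :
    wt ω (z + h) ≤ Real.exp (M * ‖h‖) * wt ω z := by
  unfold wt
  refine (lip_exp hω.entire hω.bd (z := ⟨z.re, |z.im|⟩) (w := ⟨(z + h).re, |(z + h).im|⟩)
    (abs_nonneg _) (abs_nonneg _)).trans ?_
  refine mul_le_mul_of_nonneg_right (Real.exp_le_exp.2 (mul_le_mul_of_nonneg_left ?_ hω.M_nonneg))
    (norm_nonneg _)
  rw [Complex.norm_def, Complex.norm_def]
  apply Real.sqrt_le_sqrt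
  rw [Complex.normSq_apply, Complex.normSq_apply]
  simp only [Complex.sub_re, Complex.sub_im, Complex.add_re, Complex.add_im]
  have h1 : z.re + h.re - z.re = h.re := by ring
  rw [h1]
  have h2 : |(|z.im + h.im| - |z.im|)| ≤ |h.im| := by
    have := abs_abs_sub_abs_le (z.im + h.im) z.im
    simpa using this
  have h3 : (|z.im + h.im| - |z.im|) * (|z.im + h.im| - |z.im|) ≤ h.im * h.im := by
    rw [← abs_mul_abs_self (|z.im + h.im| - |z.im|), ← abs_mul_abs_self h.im]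
    exact mul_self_le_mul_self (abs_nonneg _) h2
  linarith

/-- Lower bound `|ω z| ≥ e^{-M|z|} |ω 0|` on the closed half-plane. -/
theorem Core.lower {ω : ℂ → ℂ} {M : ℝ} (hd : Differentiable ℂ ω)
    (hb : ∀ z : ℂ, 0 ≤ z.im → ‖deriv ω z‖ ≤ M * ‖ω z‖) {z : ℂ} (hz : 0 ≤ z.im) :
    ‖ω 0‖ ≤ Real.exp (M * ‖z‖) * ‖ω z‖ := by
  have := lip_exp hd hb (z := z) (w := 0) hz (by simp)
  simpa using this

/-- **Phragmén–Lindelöf** in the upper half-plane, for functions of exponential growth. -/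
theorem pl_upper {Q : ℂ → ℂ} {A B C : ℝ} (hQ : DiffContOnCl ℂ Q {z | 0 < z.im})
    (hg : ∀ z : ℂ, 0 < z.im → ‖Q z‖ ≤ B * Real.exp (A * ‖z‖))
    (hr : ∀ x : ℝ, ‖Q x‖ ≤ C) {B' : ℝ} (hi : ∀ y : ℝ, 0 < y → ‖Q (y * I)‖ ≤ B') :
    ∀ z : ℂ, 0 ≤ z.im → ‖Q z‖ ≤ C := by
  have hm : MapsTo (fun w : ℂ => I * w) {w | 0 < w.re} {z | 0 < z.im} := by
    intro w hw
    simpa using hw
  have hQ' : DiffContOnCl ℂ (fun w => Q (I * w)) {w | 0 < w.re} :=
    hQ.comp (differentiable_id.const_mul I).diffContOnCl hm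
  intro z hz
  have key := PhragmenLindelof.right_half_plane_of_bounded_on_real (f := fun w => Q (I * w))
    (C := C) (z := -I * z) hQ' ⟨1, by norm_num, A, ?_⟩ ?_ ?_ ?_
  · have : I * (-I * z) = z := by
      rw [← mul_assoc]; simp
    simp only [this] at key
    exact key
  · refine IsBigO.of_bound B ?_
    filter_upwards [mem_inf_of_right (mem_principal_self _)] with w hw
    have := hg (I * w) (hm hw)
    rw [Real.rpow_one, Real.norm_eq_abs, Real.abs_exp]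
    simpa using this
  · refine ⟨B', ?_⟩
    rw [eventually_map]
    filter_upwards [eventually_gt_atTop 0] with y hy
    have := hi y hy
    rwa [mul_comm] at this
  · intro x
    have : I * (x * I) = ((-x : ℝ) : ℂ) := by
      rw [mul_comm (x : ℂ) I, ← mul_assoc]; simp
    simp only [this]
    exact hr (-x)
  · simpa using hz

theorem diffContOnCl_upper {Q : ℂ → ℂ} (h1 : DifferentiableOn ℂ Q {z | 0 < z.im})
    (h2 : ContinuousOn Q {z | 0 ≤ z.im}) : DiffContOnCl ℂ Q {z | 0 < z.im} := by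
  refine ⟨h1, ?_⟩
  rwa [Complex.closure_setOfPred_lt_im]

end Pool.Agent.Work.MP_6d8919_an
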