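import Pool.Agent.Work.MP_6d8919_an.Basic

/-!
# MP_6d8919_an: Cauchy theorem for a half disc; integrals of divided differences
-/

open Complex Set Filter Topology Metric MeasureTheory
open scoped Real ComplexConjugate

namespace Pool.Agent.Work.MP_6d8919_an

/-- Differentiation under the integral sign, for jointly continuous integrands. -/
theorem hasDerivAt_integral_param {h h' : ℂ → ℝ → ℂ} (hc : Continuous (Function.uncurry h))
    (hc' : Continuous (Function.uncurry h'))
    (hd : ∀ z t, HasDerivAt (fun z => h z t) (h' z t) z) (a b : ℝ) (z : ℂ) :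
    HasDerivAt (fun z => ∫ t in a..b, h z t) (∫ t in a..b, h' z t) z := by
  have hK : IsCompact (closedBall z 1 ×ˢ (uIcc a b)) :=
    (isCompact_closedBall z 1).prod isCompact_uIcc
  obtain ⟨C, hC⟩ := hK.exists_bound_of_continuousOn hc'.continuousOn
  have hcz : ∀ w, Continuous (h w) := fun w => hc.comp (Continuous.prodMk_right w)
  have hcz' : ∀ w, Continuous (h' w) := fun w => hc'.comp (Continuous.prodMk_right w)
  refine (intervalIntegral.hasDerivAt_integral_of_dominated_loc_of_deriv_le (μ := volume)
    (F := h) (F' := h') (s := closedBall z 1) (bound := fun _ => C) (closedBall_mem_nhds z one_pos)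
    (Eventually.of_forall fun w => (hcz w).aestronglyMeasurable) ((hcz z).intervalIntegrable _ _)
    (hcz' z).aestronglyMeasurable (ae_of_all _ fun t ht w hw => ?_) intervalIntegrable_const
    (ae_of_all _ fun t _ w _ => hd w t)).2
  exact hC (w, t) ⟨hw, uIoc_subset_uIcc ht⟩

theorem dslope_eq_integral {g : ℂ → ℂ} (hg : Differentiable ℂ g) (z t : ℂ) :
    dslope g z t = ∫ s in (0 : ℝ)..1, deriv g (z + s * (t - z)) := by
  rcases eq_or_ne t z with h | h
  · subst h
    simp [dslope_same]
  · rw [dslope_of_ne _ h, slope_def_field]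
    have h1 : ∫ s in (0 : ℝ)..1, deriv g (z + s * (t - z)) * (t - z) =
        g (z + (1 : ℝ) * (t - z)) - g (z + (0 : ℝ) * (t - z)) := by
      have hcont : Continuous fun s : ℝ => deriv g (z + s * (t - z)) * (t - z) := by
        have := (hg.contDiff (n := 1)).continuous_deriv (le_refl _)
        fun_prop
      refine intervalIntegral.integral_eq_sub_of_hasDerivAt (f := fun s : ℝ => g (z + s * (t - z)))
        (fun s _ => ?_) (hcont.intervalIntegrable _ _)
      have h1 : HasDerivAt (fun s : ℝ => z + (s : ℂ) * (t - z)) (t - z) s := by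
        have := (Complex.ofRealCLM.hasDerivAt (x := s)).mul_const (t - z)
        simpa using this.const_add z
      have h2 := (hg (z + s * (t - z))).hasDerivAt.scomp s h1
      simpa [Function.comp_def, smul_eq_mul, mul_comm] using h2
    rw [intervalIntegral.integral_mul_const] at h1
    have h2 : t - z ≠ 0 := sub_ne_zero.2 h
    have h3 : g (z + (1 : ℝ) * (t - z)) - g (z + (0 : ℝ) * (t - z)) = g t - g z := by
      push_cast
      simp
    rw [h3] at h1
    rw [← h1, mul_div_assoc, div_self h2, mul_one]

theorem differentiable_integral_dslope {g : ℂ → ℂ} (hg : Differentiable ℂ g) {c : ℝ → ℂ}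
    (hc : Continuous c) (T : ℝ) :
    Differentiable ℂ fun z : ℂ => ∫ t in (-T)..T, c t * dslope g z (t : ℂ) := by
  have hg1 : ContDiff ℂ 2 g := hg.contDiff
  have hg' : Differentiable ℂ (deriv g) := fun z =>
    (hg.analyticAt z).deriv.differentiableAt
  have hcd : Continuous (deriv g) := hg'.continuous
  have hcd' : Continuous (deriv (deriv g)) := (hg'.contDiff (n := 1)).continuous_deriv (le_refl _)
  -- inner integral
  set D : ℂ → ℝ → ℂ := fun z t => ∫ s in (0 : ℝ)..1, deriv g (z + s * (t - z)) with hD
  set D' : ℂ → ℝ → ℂ := fun z t =>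
    ∫ s in (0 : ℝ)..1, deriv (deriv g) (z + s * (t - z)) * (1 - s) with hD'
  have hDc : Continuous (Function.uncurry D) := by
    refine intervalIntegral.continuous_parametric_intervalIntegral_of_continuous' (μ := volume)
      (f := fun (p : ℂ × ℝ) (s : ℝ) => deriv g (p.1 + s * (p.2 - p.1))) ?_ 0 1
    simp only [Function.uncurry_def]
    fun_prop
  have hDc' : Continuous (Function.uncurry D') := by
    refine intervalIntegral.continuous_parametric_intervalIntegral_of_continuous' (μ := volume)
      (f := fun (p : ℂ × ℝ) (s : ℝ) => deriv (deriv g) (p.1 + s * (p.2 - p.1)) * (1 - s)) ?_ 0 1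
    simp only [Function.uncurry_def]
    fun_prop
  have hDd : ∀ z t, HasDerivAt (fun z => D z t) (D' z t) z := by
    intro z t
    refine hasDerivAt_integral_param (h := fun z s => deriv g (z + s * (t - z)))
      (h' := fun z s => deriv (deriv g) (z + s * (t - z)) * (1 - s)) ?_ ?_ ?_ 0 1 z
    · simp only [Function.uncurry_def]; fun_prop
    · simp only [Function.uncurry_def]; fun_prop
    · intro w s
      have h1 : HasDerivAt (fun w : ℂ => w + (s : ℂ) * (t - w)) (1 - s) w := by
        have h2 := (hasDerivAt_id' w).fun_add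
          (((hasDerivAt_id' w).const_sub (t : ℂ)).const_mul (s : ℂ))
        refine h2.congr_deriv ?_
        ring
      exact (hg' _).hasDerivAt.comp w h1
  have key : (fun z : ℂ => ∫ t in (-T)..T, c t * dslope g z (t : ℂ)) =
      fun z : ℂ => ∫ t in (-T)..T, c t * D z t := by
    funext z
    refine intervalIntegral.integral_congr fun t _ => ?_
    simp only [hD]
    rw [dslope_eq_integral hg]
  rw [key]
  intro z
  refine (hasDerivAt_integral_param (h := fun z t => c t * D z t) (h' := fun z t => c t * D' z t)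
    ?_ ?_ ?_ (-T) T z).differentiableAt
  · have := hDc
    simp only [Function.uncurry_def] at this ⊢
    fun_prop
  · have := hDc'
    simp only [Function.uncurry_def] at this ⊢
    fun_prop
  · intro w t
    exact (hDd w t).const_mul (c t)

theorem half_disc {g : ℂ → ℂ} {T : ℝ} (hT : 0 < T)
    (hd : DifferentiableOn ℂ g {z | ‖z‖ < T ∧ 0 < z.im})
    (hc : ContinuousOn g {z | ‖z‖ ≤ T ∧ 0 ≤ z.im}) :
    ∫ t in (-T)..T, g t = - ∫ θ in (0 : ℝ)..π, g (T * exp (θ * I)) * (T * I * exp (θ * I)) := by
  -- the half-disc is compact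
  have hcomp : IsCompact {z : ℂ | ‖z‖ ≤ T ∧ 0 ≤ z.im} := by
    have h1 : {z : ℂ | ‖z‖ ≤ T ∧ 0 ≤ z.im} = closedBall 0 T ∩ {z | 0 ≤ z.im} := by
      ext z; simp
    rw [h1]
    exact (isCompact_closedBall 0 T).inter_right (isClosed_le continuous_const continuous_im)
  obtain ⟨C, hC⟩ := hcomp.exists_bound_of_continuousOn hc
  have hC0 : 0 ≤ C := (norm_nonneg _).trans (hC 0 ⟨by simpa using hT.le, by simp⟩)
  -- continuity on the real axis
  have hcr : ContinuousOn (fun t : ℝ => g t) (Icc (-T) T) := by
    refine hc.comp continuous_ofReal.continuousOn fun t ht => ⟨?_, by simp⟩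
    rw [Complex.norm_real, Real.norm_eq_abs]
    exact abs_le.2 ht
  have hir : ∀ a b : ℝ, a ∈ Icc (-T) T → b ∈ Icc (-T) T →
      IntervalIntegrable (fun t : ℝ => g t) volume a b := fun a b ha hb =>
    (hcr.mono (uIcc_subset_Icc ha hb)).intervalIntegrable
  -- points of arcs
  have harc : ∀ r : ℝ, 0 < r → r ≤ T → ∀ θ : ℝ, 0 ≤ θ → θ ≤ π →
      ((r : ℂ) * exp (θ * I)) ∈ {z : ℂ | ‖z‖ ≤ T ∧ 0 ≤ z.im} := by
    intro r hr hrT θ h0 h1
    refine ⟨?_, ?_⟩
    · rw [norm_mul, Complex.norm_exp_ofReal_mul_I, mul_one, Complex.norm_real,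
        Real.norm_eq_abs, abs_of_pos hr]
      exact hrT
    · rw [Complex.im_ofReal_mul, Complex.exp_ofReal_mul_I_im]
      exact mul_nonneg hr.le (Real.sin_nonneg_of_nonneg_of_le_pi h0 h1)
  set A : ℝ → ℂ := fun r => ∫ θ in (0 : ℝ)..π, g (r * exp (θ * I)) * (r * I * exp (θ * I)) with hA
  -- the identity for the half-annulus
  have hann : ∀ ε : ℝ, 0 < ε → ε < T →
      (∫ t in ε..T, g t) + (∫ t in (-T)..(-ε), g t) + A T - A ε = 0 := by
    intro ε hε hεT
    have hlog : Real.log ε < Real.log T := Real.log_lt_log hε hεT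
    set F : ℂ → ℂ := fun w => g (exp w) * exp w with hF
    have hmem : ∀ x : ℝ, x ∈ Icc (Real.log ε) (Real.log T) → 0 < Real.exp x ∧ Real.exp x ≤ T := by
      intro x hx
      exact ⟨Real.exp_pos x, by rw [← Real.exp_log hT]; exact Real.exp_le_exp.2 hx.2⟩
    have hexp : ∀ w : ℂ, exp w = (Real.exp w.re : ℂ) * exp (w.im * I) := by
      intro w
      conv_lhs => rw [← Complex.re_add_im w]
      rw [Complex.exp_add, Complex.ofReal_exp]
    have hFc : ContinuousOn F (uIcc (Real.log ε) (Real.log T) ×ℂ uIcc (0 : ℝ) π) := by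
      refine ContinuousOn.mul (hc.comp continuous_exp.continuousOn ?_)
        continuous_exp.continuousOn
      intro w hw
      rw [uIcc_of_le hlog.le, uIcc_of_le Real.pi_pos.le] at hw
      rw [hexp w]
      exact harc _ (hmem _ hw.1).1 (hmem _ hw.1).2 _ hw.2.1 hw.2.2
    have hFd : DifferentiableOn ℂ F (Ioo (min (Real.log ε) (Real.log T))
        (max (Real.log ε) (Real.log T)) ×ℂ Ioo (min (0 : ℝ) π) (max (0 : ℝ) π)) := by
      refine DifferentiableOn.mul (hd.comp differentiable_exp.differentiableOn ?_)
        differentiable_exp.differentiableOn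
      intro w hw
      rw [min_eq_left hlog.le, max_eq_right hlog.le, min_eq_left Real.pi_pos.le,
        max_eq_right Real.pi_pos.le] at hw
      refine ⟨?_, ?_⟩
      · rw [Complex.norm_exp]
        calc Real.exp w.re < Real.exp (Real.log T) := Real.exp_lt_exp.2 hw.1.2
          _ = T := Real.exp_log hT
      · rw [Complex.exp_im]
        exact mul_pos (Real.exp_pos _) (Real.sin_pos_of_pos_of_lt_pi hw.2.1 hw.2.2)
    have key := Complex.integral_boundary_rect_eq_zero_of_continuousOn_of_differentiableOn F
      (⟨Real.log ε, 0⟩ : ℂ) (⟨Real.log T, π⟩ : ℂ) hFc hFd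
    simp only [hF] at key
    have e1 : ∫ x in (Real.log ε)..(Real.log T),
        g (exp (x + ((0 : ℝ) : ℂ) * I)) * exp (x + ((0 : ℝ) : ℂ) * I) = ∫ t in ε..T, g t := by
      have := intervalIntegral.integral_deriv_smul_comp' (f := Real.exp) (f' := Real.exp)
        (a := Real.log ε) (b := Real.log T) (g := fun t : ℝ => g t)
        (fun x _ => Real.hasDerivAt_exp x) Real.continuous_exp.continuousOn (by
          refine hcr.mono ?_
          rintro _ ⟨x, hx, rfl⟩
          rw [uIcc_of_le hlog.le] at hx
          have := hmem x hx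
          exact ⟨by linarith, this.2⟩)
      rw [Real.exp_log hε, Real.exp_log hT] at this
      rw [← this]
      refine intervalIntegral.integral_congr fun x _ => ?_
      simp [mul_comm]
    have e2 : ∫ x in (Real.log ε)..(Real.log T),
        g (exp (x + (π : ℂ) * I)) * exp (x + (π : ℂ) * I) = - ∫ t in (-T)..(-ε), g t := by
      have := intervalIntegral.integral_deriv_smul_comp' (f := fun x => - Real.exp x)
        (f' := fun x => - Real.exp x)
        (a := Real.log ε) (b := Real.log T) (g := fun t : ℝ => g t)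
        (fun x _ => (Real.hasDerivAt_exp x).fun_neg) Real.continuous_exp.neg.continuousOn (by
          refine hcr.mono ?_
          rintro _ ⟨x, hx, rfl⟩
          rw [uIcc_of_le hlog.le] at hx
          have := hmem x hx
          exact ⟨by linarith, by linarith⟩)
      rw [Real.exp_log hε, Real.exp_log hT] at this
      rw [intervalIntegral.integral_symm (-ε) (-T), neg_neg, ← this]
      refine intervalIntegral.integral_congr fun x _ => ?_
      simp only [Complex.exp_add, Complex.exp_pi_mul_I, Function.comp_apply, Complex.real_smul,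
        Complex.ofReal_neg, Complex.ofReal_exp, mul_neg, mul_one]
      ring
    have e3 : ∀ r : ℝ, 0 < r → I • ∫ y in (0 : ℝ)..π,
        g (exp ((Real.log r : ℂ) + y * I)) * exp ((Real.log r : ℂ) + y * I) = A r := by
      intro r hr
      rw [hA, smul_eq_mul, ← intervalIntegral.integral_const_mul]
      refine intervalIntegral.integral_congr fun x _ => ?_
      simp only [Complex.exp_add, ← Complex.ofReal_exp, Real.exp_log hr]
      ring
    rw [e1, e2, e3 T hT, e3 ε hε] at key
    linear_combination key
  -- bound for the small arc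
  have hAb : ∀ ε : ℝ, 0 < ε → ε < T → ‖A ε‖ ≤ C * ε * π := by
    intro ε hε hεT
    have := intervalIntegral.norm_integral_le_of_norm_le_const (a := (0 : ℝ)) (b := π)
      (f := fun θ : ℝ => g (ε * exp (θ * I)) * (ε * I * exp (θ * I))) (C := C * ε) (by
        intro θ hθ
        rw [uIoc_of_le Real.pi_pos.le] at hθ
        rw [norm_mul]
        have h1 := hC _ (harc ε hε hεT.le θ hθ.1.le hθ.2)
        have h2 : ‖(ε : ℂ) * I * exp (θ * I)‖ = ε := by
          rw [norm_mul, norm_mul, Complex.norm_exp_ofReal_mul_I, mul_one, Complex.norm_I, mul_one,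
            Complex.norm_real, Real.norm_eq_abs, abs_of_pos hε]
        rw [h2]
        exact mul_le_mul_of_nonneg_right h1 hε.le)
    rwa [sub_zero, abs_of_pos Real.pi_pos] at this
  -- bound for the small interval
  have hIb : ∀ ε : ℝ, 0 < ε → ε < T → ‖∫ t in (-ε)..ε, g t‖ ≤ C * (2 * ε) := by
    intro ε hε hεT
    have := intervalIntegral.norm_integral_le_of_norm_le_const (a := -ε) (b := ε)
      (f := fun t : ℝ => g t) (C := C) (by
        intro t ht
        rw [uIoc_of_le (by linarith)] at ht
        refine hC _ ⟨?_, by simp⟩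
        rw [Complex.norm_real, Real.norm_eq_abs]
        exact abs_le.2 ⟨by linarith [ht.1], by linarith [ht.2]⟩)
    rwa [show ε - -ε = 2 * ε by ring, abs_of_pos (by linarith)] at this
  have hfin : ∀ ε : ℝ, 0 < ε → ε < T →
      ‖(∫ t in (-T)..T, g t) + A T‖ ≤ C * (2 * ε) + C * ε * π := by
    intro ε hε hεT
    have h1 : (∫ t in (-T)..T, g t) =
        (∫ t in (-T)..(-ε), g t) + (∫ t in (-ε)..ε, g t) + ∫ t in ε..T, g t := by
      rw [intervalIntegral.integral_add_adjacent_intervals,
        intervalIntegral.integral_add_adjacent_intervals]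
      · exact hir _ _ ⟨le_refl _, by linarith⟩ ⟨by linarith, by linarith⟩
      · exact hir _ _ ⟨by linarith, by linarith⟩ ⟨by linarith, le_refl _⟩
      · exact hir _ _ ⟨le_refl _, by linarith⟩ ⟨by linarith, by linarith⟩
      · exact hir _ _ ⟨by linarith, by linarith⟩ ⟨by linarith, by linarith⟩
    have h2 : (∫ t in (-T)..T, g t) + A T = (∫ t in (-ε)..ε, g t) + A ε := by
      rw [h1]
      linear_combination hann ε hε hεT
    rw [h2]
    exact (norm_add_le _ _).trans (add_le_add (hIb ε hε hεT) (hAb ε hε hεT))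
  have hzero : (∫ t in (-T)..T, g t) + A T = 0 := by
    rw [← norm_le_zero_iff]
    refine le_of_forall_pos_le_add fun δ hδ => ?_
    set K : ℝ := C * 2 + C * π with hK
    have hK0 : 0 ≤ K := by positivity
    obtain ⟨ε, hε0, hε1⟩ : ∃ ε : ℝ, 0 < ε ∧ ε < min T (δ / (K + 1)) :=
      exists_between (lt_min hT (by positivity))
    have h1 := hfin ε hε0 (hε1.trans_le (min_le_left _ _))
    have h2 : ε ≤ δ / (K + 1) := (hε1.trans_le (min_le_right _ _)).le
    rw [le_div_iff₀ (by positivity)] at h2
    have h3 : C * (2 * ε) + C * ε * π = K * ε := by rw [hK]; ring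
    rw [h3] at h1
    nlinarith
  exact eq_neg_of_add_eq_zero_left hzero

end Pool.Agent.Work.MP_6d8919_an
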