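import Pool.Agent.Work.MP_6d8919_an.Basic

/-!
# MP_6d8919_an: bound for the kernel
-/

open Complex Set Filter Topology Metric MeasureTheory
open scoped Real ComplexConjugate

namespace Pool.Agent.Work.MP_6d8919_an

theorem differentiable_shp {w : ℂ → ℂ} (hw : Differentiable ℂ w) : Differentiable ℂ (shp w) := by
  intro z
  have h := (hw (conj z)).conj_conj
  rw [Complex.conj_conj] at h
  exact h

theorem kernel_bound {w : ℂ → ℂ} {M : ℝ} (hw : Core w M) (t : ℝ) (z : ℂ) :
    ‖dslope (shp w) z (t : ℂ) / shp w t - dslope w z (t : ℂ) / w t‖ ≤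
      4 * Real.exp (2 * M) * wt w z / (‖w t‖ * (1 + ‖(t : ℂ) - z‖)) := by
  have hwt : w t ≠ 0 := hw.ne t (by simp)
  have hst : shp w t ≠ 0 := by
    unfold shp
    rw [Complex.conj_ofReal]
    exact (map_ne_zero _).2 hwt
  have hnst : ‖shp w t‖ = ‖w t‖ := by
    unfold shp
    rw [Complex.conj_ofReal, Complex.norm_conj]
  have hpos : 0 < ‖w t‖ := norm_pos_iff.2 hwt
  have hM := hw.M_nonneg
  have hsd : Differentiable ℂ (shp w) := differentiable_shp hw.entire
  set φ : ℂ → ℂ := fun ζ => w ζ / w t - shp w ζ / shp w t with hφ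
  have hφd : Differentiable ℂ φ := (hw.entire.div_const _).sub (hsd.div_const _)
  have hφt : φ t = 0 := by
    simp only [hφ]
    rw [div_self hwt, div_self hst, sub_self]
  have hns : ∀ ζ, ‖shp w ζ‖ ≤ wt w ζ := by
    intro ζ
    unfold shp
    rw [Complex.norm_conj, ← wt_conj]
    exact hw.norm_le_wt _
  have hφb : ∀ ζ, ‖φ ζ‖ ≤ 2 * wt w ζ / ‖w t‖ := by
    intro ζ
    simp only [hφ]
    refine (norm_sub_le _ _).trans ?_
    rw [norm_div, norm_div, hnst, ← add_div]
    refine div_le_div_of_nonneg_right ?_ hpos.le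
    linarith [hw.norm_le_wt ζ, hns ζ]
  have hexpr : dslope (shp w) z (t : ℂ) / shp w t - dslope w z (t : ℂ) / w t =
      -dslope φ t z := by
    by_cases hzt : z = t
    · subst hzt
      rw [dslope_same, dslope_same, dslope_same]
      have : deriv φ (t : ℂ) = deriv w t / w t - deriv (shp w) t / shp w t := by
        simp only [hφ]
        rw [deriv_fun_sub ((hw.entire _).div_const _) ((hsd _).div_const _), deriv_div_const,
          deriv_div_const]
      rw [this]
      ring
    · rw [dslope_of_ne _ (Ne.symm hzt), dslope_of_ne _ (Ne.symm hzt), dslope_of_ne _ hzt,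
        slope_def_field, slope_def_field, slope_def_field, hφt]
      simp only [hφ]
      have h1 : (t : ℂ) - z ≠ 0 := sub_ne_zero.2 (Ne.symm hzt)
      have h2 : z - (t : ℂ) ≠ 0 := sub_ne_zero.2 hzt
      field_simp
      ring
  rw [hexpr, norm_neg]
  have he1 : 1 ≤ Real.exp M := Real.one_le_exp hM
  have he2 : Real.exp (2 * M) = Real.exp M * Real.exp M := by rw [← Real.exp_add]; ring_nf
  have hwz : 0 < wt w z := hw.wt_pos z
  by_cases hfar : 1 ≤ ‖(t : ℂ) - z‖
  · have hzt : z ≠ t := by
      rintro rfl
      simp at hfar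
      linarith
    rw [dslope_of_ne _ hzt, slope_def_field, hφt, sub_zero, norm_div]
    have h3 : ‖z - (t : ℂ)‖ = ‖(t : ℂ) - z‖ := norm_sub_rev _ _
    rw [h3]
    set r := ‖(t : ℂ) - z‖ with hr
    have hrpos : 0 < r := by linarith
    calc ‖φ z‖ / r ≤ (2 * wt w z / ‖w t‖) / r := div_le_div_of_nonneg_right (hφb z) hrpos.le
      _ = 4 * wt w z / (‖w t‖ * (2 * r)) := by field_simp; ring
      _ ≤ 4 * wt w z / (‖w t‖ * (1 + r)) := by
          apply div_le_div_of_nonneg_left (by positivity) (by positivity)
          apply mul_le_mul_of_nonneg_left (by linarith) hpos.le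
      _ ≤ 4 * Real.exp (2 * M) * wt w z / (‖w t‖ * (1 + r)) := by
          apply div_le_div_of_nonneg_right _ (by positivity)
          have : 1 ≤ Real.exp (2 * M) := Real.one_le_exp (by linarith)
          nlinarith
  · push Not at hfar
    have hball : ‖dslope φ t z‖ ≤ 2 * Real.exp M := by
      have hd : Differentiable ℂ (dslope φ t) := by
        rw [← differentiableOn_univ]
        exact (Complex.differentiableOn_dslope univ_mem).2 hφd.differentiableOn
      refine Complex.norm_le_of_forall_mem_frontier_norm_le (U := ball (t : ℂ) 1)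
        isBounded_ball hd.diffContOnCl ?_ (subset_closure ?_)
      · intro ζ hζ
        rw [frontier_ball _ one_ne_zero, mem_sphere_iff_norm] at hζ
        have hne : ζ ≠ t := by
          rintro rfl
          simp at hζ
        rw [dslope_of_ne _ hne, slope_def_field, hφt, sub_zero, norm_div, hζ, div_one]
        refine (hφb ζ).trans ?_
        rw [div_le_iff₀ hpos]
        have h4 := wt_add hw (t : ℂ) (ζ - t)
        rw [hζ, mul_one, wt_real, add_sub_cancel] at h4
        linarith
      · rw [mem_ball_iff_norm, norm_sub_rev]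
        exact hfar
    refine hball.trans ?_
    rw [le_div_iff₀ (by positivity)]
    have h5 := wt_add hw z ((t : ℂ) - z)
    rw [add_sub_cancel, wt_real] at h5
    have h6 : Real.exp (M * ‖(t : ℂ) - z‖) ≤ Real.exp M := by
      apply Real.exp_le_exp.2
      nlinarith
    have h7 : ‖w t‖ ≤ Real.exp M * wt w z := h5.trans (mul_le_mul_of_nonneg_right h6 hwz.le)
    calc 2 * Real.exp M * (‖w t‖ * (1 + ‖(t : ℂ) - z‖))
        ≤ 2 * Real.exp M * ((Real.exp M * wt w z) * 2) := by
          apply mul_le_mul_of_nonneg_left _ (by positivity)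
          apply mul_le_mul h7 (by linarith) (by positivity) (by positivity)
      _ = 4 * Real.exp (2 * M) * wt w z := by rw [he2]; ring

end Pool.Agent.Work.MP_6d8919_an
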