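import Pool.Agent.Work.MP_6d8919_an.Basic
import Pool.Agent.Work.MP_6d8919_an.HalfDisc

/-!
# MP_6d8919_an: the localised reproducing kernel
-/

open Complex Set Filter Topology Metric MeasureTheory
open scoped Real ComplexConjugate

namespace Pool.Agent.Work.MP_6d8919_an

noncomputable def Hf (l : ℂ) (d T : ℝ) (z : ℂ) : ℂ := exp (l * z - d * z ^ 2 / T)

noncomputable def Pf (w : ℂ → ℂ) (l : ℂ) (d T : ℝ) (z : ℂ) : ℂ :=
  ∫ t in (-T)..T, Hf l d T t / w t * dslope w z (t : ℂ)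

noncomputable def Ff (w : ℂ → ℂ) (l : ℂ) (d T : ℝ) (z : ℂ) : ℂ :=
  (2 * π * I)⁻¹ * (conj (Pf w (conj l) d T (conj z)) - Pf w l d T z)

theorem differentiable_Hf (l : ℂ) (d T : ℝ) : Differentiable ℂ (Hf l d T) := by
  unfold Hf
  fun_prop

theorem norm_arc {T : ℝ} (hT : 0 < T) (θ : ℝ) : ‖(T * exp (θ * I) : ℂ)‖ = T := by
  rw [norm_mul, Complex.norm_exp_ofReal_mul_I, mul_one, Complex.norm_real, Real.norm_eq_abs,
    abs_of_pos hT]

theorem arc_re (T θ : ℝ) : (T * exp (θ * I) : ℂ).re = T * Real.cos θ := by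
  rw [Complex.re_ofReal_mul, Complex.exp_ofReal_mul_I_re]

theorem arc_im (T θ : ℝ) : (T * exp (θ * I) : ℂ).im = T * Real.sin θ := by
  rw [Complex.im_ofReal_mul, Complex.exp_ofReal_mul_I_im]

theorem norm_Hf_arc_le {l : ℂ} {d T : ℝ} (hT : 0 < T) (hd : 0 < d) {ζ : ℂ} (hζ : ‖ζ‖ = T)
    (him : 0 ≤ ζ.im) :
    ‖Hf l d T ζ‖ ≤ Real.exp (l.re * ζ.re + (|l.im| + 2 * d) * ζ.im - d * T) := by
  unfold Hf
  rw [Complex.norm_exp]
  apply Real.exp_le_exp.2
  have h1 : (l * ζ - d * ζ ^ 2 / T : ℂ).re =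
      l.re * ζ.re - l.im * ζ.im - d * (ζ.re ^ 2 - ζ.im ^ 2) / T := by
    have h2 : (d * ζ ^ 2 / T : ℂ) = ((d / T : ℝ) : ℂ) * ζ ^ 2 := by push_cast; ring
    rw [h2, Complex.sub_re, Complex.re_ofReal_mul, Complex.mul_re, pow_two, Complex.mul_re]
    ring
  rw [h1]
  have h3 : ζ.re ^ 2 + ζ.im ^ 2 = T ^ 2 := by
    rw [← hζ, Complex.sq_norm, Complex.normSq_apply]; ring
  have h4 : ζ.im ≤ T := by rw [← hζ]; exact (le_abs_self _).trans (Complex.abs_im_le_norm ζ)
  have h5 : ζ.re ^ 2 - ζ.im ^ 2 = T ^ 2 - 2 * ζ.im ^ 2 := by linarith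
  rw [h5]
  have h6 : d * (T ^ 2 - 2 * ζ.im ^ 2) / T = d * T - 2 * d * (ζ.im ^ 2 / T) := by
    field_simp
  rw [h6]
  have h7 : ζ.im ^ 2 / T ≤ ζ.im := by
    rw [div_le_iff₀ hT]
    nlinarith
  have h8 : -(l.im * ζ.im) ≤ |l.im| * ζ.im := by
    have := neg_abs_le l.im
    nlinarith
  nlinarith [mul_le_mul_of_nonneg_left h7 (by positivity : (0 : ℝ) ≤ 2 * d)]

theorem Pf_estimate {w : ℂ → ℂ} {M : ℝ} (hw : Core w M) {l : ℂ} {d T τ : ℝ} (hT : 0 < T)
    (hd : 0 < d) (hdl : |l.im| + 2 * d ≤ τ)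
    (hlow : ∀ z : ℂ, ‖z‖ ≤ T → 0 ≤ z.im → Real.exp (l.re * z.re + τ * z.im - 1) ≤ ‖w z‖)
    {z : ℂ} (hz : ‖z‖ ≤ 3 / 4 * T) :
    ‖Pf w l d T z + ∫ θ in (0 : ℝ)..π, Hf l d T (T * exp (θ * I)) * (T * I * exp (θ * I)) /
      (T * exp (θ * I) - z)‖ ≤ 4 * π * Real.exp (1 - d * T) * ‖w z‖ := by
  have hwd := hw.entire
  have hds : Differentiable ℂ (dslope w z) := by
    rw [← differentiableOn_univ, Complex.differentiableOn_dslope univ_mem]
    exact hwd.differentiableOn
  have hH := differentiable_Hf l d T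
  have hcont : ContinuousOn (fun t : ℂ => Hf l d T t / w t * dslope w z t)
      {z | ‖z‖ ≤ T ∧ 0 ≤ z.im} := by
    refine ContinuousOn.mul (ContinuousOn.div hH.continuous.continuousOn
      hwd.continuous.continuousOn fun t ht => hw.ne t ht.2) hds.continuous.continuousOn
  have hdiff : DifferentiableOn ℂ (fun t : ℂ => Hf l d T t / w t * dslope w z t)
      {z | ‖z‖ < T ∧ 0 < z.im} := by
    refine DifferentiableOn.mul (DifferentiableOn.div hH.differentiableOn
      hwd.differentiableOn fun t ht => hw.ne t ht.2.le) hds.differentiableOn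
  have hhd := half_disc hT hdiff hcont
  have hP : Pf w l d T z = - ∫ θ in (0 : ℝ)..π, (Hf l d T (T * exp (θ * I)) /
      w (T * exp (θ * I)) * dslope w z (T * exp (θ * I))) * (T * I * exp (θ * I)) := by
    rw [← hhd]; rfl
  have hne : ∀ θ : ℝ, (T * exp (θ * I) : ℂ) - z ≠ 0 := by
    intro θ h
    have h1 : (T * exp (θ * I) : ℂ) = z := sub_eq_zero.1 h
    have h2 := norm_arc hT θ
    rw [h1] at h2
    linarith
  have him : ∀ θ ∈ Set.uIcc (0 : ℝ) π, 0 ≤ (T * exp (θ * I) : ℂ).im := by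
    intro θ hθ
    rw [Set.uIcc_of_le Real.pi_pos.le] at hθ
    rw [arc_im]
    exact mul_nonneg hT.le (Real.sin_nonneg_of_mem_Icc hθ)
  have harc : Continuous fun θ : ℝ => (T * exp (θ * I) : ℂ) := by fun_prop
  have hint1 : IntervalIntegrable (fun θ : ℝ => (Hf l d T (T * exp (θ * I)) /
      w (T * exp (θ * I)) * dslope w z (T * exp (θ * I))) * (T * I * exp (θ * I)))
      volume 0 π := by
    apply ContinuousOn.intervalIntegrable
    refine ContinuousOn.mul (ContinuousOn.mul (ContinuousOn.div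
      (hH.continuous.comp harc).continuousOn (hwd.continuous.comp harc).continuousOn ?_)
      (hds.continuous.comp harc).continuousOn) (by fun_prop)
    intro θ hθ
    exact hw.ne _ (him θ hθ)
  have hint2 : IntervalIntegrable (fun θ : ℝ => Hf l d T (T * exp (θ * I)) *
      (T * I * exp (θ * I)) / (T * exp (θ * I) - z)) volume 0 π := by
    apply Continuous.intervalIntegrable
    refine Continuous.div ((hH.continuous.comp harc).mul (by fun_prop)) (by fun_prop) hne
  rw [hP, neg_add_eq_sub, ← intervalIntegral.integral_sub hint2 hint1]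
  have hb := intervalIntegral.norm_integral_le_of_norm_le_const
    (a := 0) (b := π) (C := 4 * Real.exp (1 - d * T) * ‖w z‖)
    (f := fun θ : ℝ => Hf l d T (T * exp (θ * I)) *
      (T * I * exp (θ * I)) / (T * exp (θ * I) - z) -
      (Hf l d T (T * exp (θ * I)) /
      w (T * exp (θ * I)) * dslope w z (T * exp (θ * I))) * (T * I * exp (θ * I))) ?_
  · refine hb.trans (le_of_eq ?_)
    rw [sub_zero, abs_of_pos Real.pi_pos]; ring
  intro θ hθ
  have hθ' : θ ∈ Set.uIcc (0 : ℝ) π := Set.uIoc_subset_uIcc hθ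
  set ζ : ℂ := T * exp (θ * I) with hζ
  have hζn : ‖ζ‖ = T := norm_arc hT θ
  have hζi : 0 ≤ ζ.im := him θ hθ'
  have hζz : ζ - z ≠ 0 := hne θ
  have hwζ : w ζ ≠ 0 := hw.ne ζ hζi
  have hζz' : ζ ≠ z := sub_ne_zero.1 hζz
  rw [dslope_of_ne _ hζz', slope_def_field]
  have e1 : Hf l d T ζ * (T * I * exp (θ * I)) / (ζ - z) -
      Hf l d T ζ / w ζ * ((w ζ - w z) / (ζ - z)) * (T * I * exp (θ * I)) =
      (Hf l d T ζ / w ζ) * (T * I * exp (θ * I)) / (ζ - z) * w z := by
    field_simp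
    ring
  rw [e1, norm_mul, norm_div, norm_mul, norm_div]
  refine mul_le_mul_of_nonneg_right ?_ (norm_nonneg _)
  have e2 : ‖(T * I * exp (θ * I) : ℂ)‖ = T := by
    rw [mul_right_comm, norm_mul, norm_arc hT, Complex.norm_I, mul_one]
  have e3 : T / 4 ≤ ‖ζ - z‖ := by
    have := norm_sub_norm_le ζ z
    linarith
  have e4 : ‖Hf l d T ζ‖ / ‖w ζ‖ ≤ Real.exp (1 - d * T) := by
    rw [div_le_iff₀ (norm_pos_iff.2 hwζ)]
    calc ‖Hf l d T ζ‖ ≤ Real.exp (l.re * ζ.re + (|l.im| + 2 * d) * ζ.im - d * T) :=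
          norm_Hf_arc_le hT hd hζn hζi
      _ ≤ Real.exp ((1 - d * T) + (l.re * ζ.re + τ * ζ.im - 1)) := by
          apply Real.exp_le_exp.2
          nlinarith
      _ = Real.exp (1 - d * T) * Real.exp (l.re * ζ.re + τ * ζ.im - 1) := Real.exp_add _ _
      _ ≤ Real.exp (1 - d * T) * ‖w ζ‖ :=
          mul_le_mul_of_nonneg_left (hlow ζ hζn.le hζi) (Real.exp_pos _).le
  rw [e2]
  have hpos : 0 < ‖ζ - z‖ := norm_pos_iff.2 hζz
  rw [div_le_iff₀ hpos]
  have h5 : ‖Hf l d T ζ‖ / ‖w ζ‖ * T ≤ Real.exp (1 - d * T) * T :=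
    mul_le_mul_of_nonneg_right e4 hT.le
  have h6 : Real.exp (1 - d * T) * T ≤ 4 * Real.exp (1 - d * T) * ‖ζ - z‖ := by
    have := mul_le_mul_of_nonneg_left e3 (by positivity : (0 : ℝ) ≤ 4 * Real.exp (1 - d * T))
    linarith
  linarith

theorem conj_Hf (l : ℂ) (d T : ℝ) (z : ℂ) : conj (Hf (conj l) d T z) = Hf l d T (conj z) := by
  unfold Hf
  rw [← Complex.exp_conj]
  congr 1
  simp

theorem cauchy_arc {l z : ℂ} {d T : ℝ} (hz : ‖z‖ < T) :
    ∫ θ in (-π)..π, Hf l d T (T * exp (θ * I)) * (T * I * exp (θ * I)) /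
      (T * exp (θ * I) - z) = 2 * π * I * Hf l d T z := by
  have hper : Function.Periodic (fun θ : ℝ => Hf l d T (T * exp (θ * I)) *
      (T * I * exp (θ * I)) / (T * exp (θ * I) - z)) (2 * π) := by
    intro θ
    have h1 : (exp (((θ + 2 * π : ℝ) : ℂ) * I)) = exp (θ * I) := by
      push_cast
      rw [add_mul, Complex.exp_add, Complex.exp_two_pi_mul_I, mul_one]
    simp only [h1]
  have h1 := hper.intervalIntegral_add_eq (-π) 0
  have h2 : -π + 2 * π = π := by ring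
  rw [h2, zero_add] at h1
  rw [h1]
  have hc := (differentiable_Hf l d T).diffContOnCl.circleIntegral_sub_inv_smul
    (c := 0) (R := T) (w := z) (by simpa using hz)
  rw [smul_eq_mul] at hc
  rw [← hc, circleIntegral]
  apply intervalIntegral.integral_congr
  intro θ _
  simp only [deriv_circleMap, circleMap, zero_add, smul_eq_mul]
  ring

theorem Ff_sub_Hf {w : ℂ → ℂ} {M : ℝ} (hw : Core w M) {l : ℂ} {d T τ : ℝ} (hT : 0 < T)
    (hd : 0 < d) (hdl : |l.im| + 2 * d ≤ τ)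
    (hlow : ∀ z : ℂ, ‖z‖ ≤ T → 0 ≤ z.im → Real.exp (l.re * z.re + τ * z.im - 1) ≤ ‖w z‖)
    {z : ℂ} (hz : ‖z‖ ≤ 3 / 4 * T) :
    ‖Ff w l d T z - Hf l d T z‖ ≤ 4 * Real.exp (1 - d * T) * wt w z := by
  have E1 := Pf_estimate hw hT hd hdl hlow hz
  have E2 := Pf_estimate hw (l := conj l) hT hd (by simpa using hdl)
    (by intro z h1 h2; simpa using hlow z h1 h2) (z := conj z) (by simpa using hz)
  have hzT : ‖z‖ < T := by linarith
  have hne : ∀ θ : ℝ, (T * exp (θ * I) : ℂ) - z ≠ 0 := by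
    intro θ h
    have h1 : (T * exp (θ * I) : ℂ) = z := sub_eq_zero.1 h
    have h2 := norm_arc hT θ
    rw [h1] at h2
    linarith
  have harc : Continuous fun θ : ℝ => (T * exp (θ * I) : ℂ) := by fun_prop
  have hcont : Continuous (fun θ : ℝ => Hf l d T (T * exp (θ * I)) *
      (T * I * exp (θ * I)) / (T * exp (θ * I) - z)) :=
    Continuous.div (((differentiable_Hf l d T).continuous.comp harc).mul (by fun_prop))
      (by fun_prop) hne
  -- conjugate of the second arc integral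
  have hconj : conj (∫ θ in (0 : ℝ)..π, Hf (conj l) d T (T * exp (θ * I)) *
      (T * I * exp (θ * I)) / (T * exp (θ * I) - conj z)) =
      - ∫ θ in (-π)..0, Hf l d T (T * exp (θ * I)) * (T * I * exp (θ * I)) /
        (T * exp (θ * I) - z) := by
    rw [intervalIntegral.integral_of_le Real.pi_pos.le, ← integral_conj, ← intervalIntegral.integral_of_le Real.pi_pos.le]
    have hsub := intervalIntegral.integral_comp_neg (a := 0) (b := π)
      (fun θ : ℝ => Hf l d T (T * exp (θ * I)) *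
      (T * I * exp (θ * I)) / (T * exp (θ * I) - z))
    rw [neg_zero] at hsub
    rw [← hsub, ← intervalIntegral.integral_neg]
    apply intervalIntegral.integral_congr
    intro θ _
    have e1 : conj (exp (θ * I)) = exp (((-θ : ℝ) : ℂ) * I) := by
      rw [← Complex.exp_conj]; congr 1; simp
    simp only [map_div₀, map_mul, map_sub, conj_Hf, Complex.conj_ofReal, e1, Complex.conj_I,
      Complex.conj_conj]
    ring
  have hsum : (∫ θ in (-π)..0, Hf l d T (T * exp (θ * I)) * (T * I * exp (θ * I)) /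
        (T * exp (θ * I) - z)) + (∫ θ in (0 : ℝ)..π, Hf l d T (T * exp (θ * I)) *
        (T * I * exp (θ * I)) / (T * exp (θ * I) - z)) = 2 * π * I * Hf l d T z := by
    rw [intervalIntegral.integral_add_adjacent_intervals (hcont.intervalIntegrable _ _)
      (hcont.intervalIntegrable _ _)]
    exact cauchy_arc hzT
  set A := ∫ θ in (0 : ℝ)..π, Hf l d T (T * exp (θ * I)) *
        (T * I * exp (θ * I)) / (T * exp (θ * I) - z) with hA
  set A' := ∫ θ in (0 : ℝ)..π, Hf (conj l) d T (T * exp (θ * I)) *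
      (T * I * exp (θ * I)) / (T * exp (θ * I) - conj z) with hA'
  set B := ∫ θ in (-π)..0, Hf l d T (T * exp (θ * I)) * (T * I * exp (θ * I)) /
        (T * exp (θ * I) - z) with hB
  have hpi : (2 * π * I : ℂ) ≠ 0 := by
    simp [Real.pi_ne_zero]
  have key : Ff w l d T z - Hf l d T z = (2 * π * I)⁻¹ *
      (conj (Pf w (conj l) d T (conj z) + A') - (Pf w l d T z + A)) := by
    unfold Ff
    rw [map_add, hconj]
    have : Hf l d T z = (2 * π * I)⁻¹ * (B + A) := by
      rw [hsum, ← mul_assoc, inv_mul_cancel₀ hpi, one_mul]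
    rw [this]
    ring
  rw [key, norm_mul, norm_inv]
  have hn : ‖(2 * π * I : ℂ)‖ = 2 * π := by
    simp [abs_of_pos Real.pi_pos]
  rw [hn]
  have h3 : ‖conj (Pf w (conj l) d T (conj z) + A') - (Pf w l d T z + A)‖ ≤
      8 * π * Real.exp (1 - d * T) * wt w z := by
    refine (norm_sub_le _ _).trans ?_
    rw [Complex.norm_conj]
    have w1 := hw.norm_le_wt z
    have w2 := hw.norm_le_wt (conj z)
    rw [wt_conj] at w2
    have c0 : 0 ≤ 4 * π * Real.exp (1 - d * T) := by positivity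
    have m1 := mul_le_mul_of_nonneg_left w1 c0
    have m2 := mul_le_mul_of_nonneg_left w2 c0
    linarith
  calc (2 * π)⁻¹ * ‖conj (Pf w (conj l) d T (conj z) + A') - (Pf w l d T z + A)‖
      ≤ (2 * π)⁻¹ * (8 * π * Real.exp (1 - d * T) * wt w z) :=
        mul_le_mul_of_nonneg_left h3 (by positivity)
    _ = 4 * Real.exp (1 - d * T) * wt w z := by
        field_simp
        ring

end Pool.Agent.Work.MP_6d8919_an
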