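import Pool.Agent.Work.MP_6d8919_an.Basic
import Pool.Agent.Work.MP_6d8919_an.Kernel
import Pool.Agent.Work.MP_6d8919_an.HalfDisc
import Pool.Agent.Work.MP_6d8919_an.LocalF

/-!
# MP_6d8919_an: bound for the localised kernel function, entirety
-/

open Complex Set Filter Topology Metric MeasureTheory
open scoped Real ComplexConjugate

namespace Pool.Agent.Work.MP_6d8919_an

theorem conj_Hf_real (l : ℂ) (d T t : ℝ) : conj (Hf (conj l) d T t) = Hf l d T t := by
  unfold Hf
  rw [← Complex.exp_conj]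
  simp

theorem norm_Hf_real (l : ℂ) (d T t : ℝ) :
    ‖Hf l d T t‖ = Real.exp (l.re * t) * Real.exp (-(d * t ^ 2 / T)) := by
  unfold Hf
  rw [Complex.norm_exp, ← Real.exp_add]
  congr 1
  have h : l * (t : ℂ) - (d : ℂ) * (t : ℂ) ^ 2 / (T : ℂ) = l * (t : ℂ) + ((-(d * t ^ 2 / T) : ℝ) : ℂ) := by
    push_cast
    ring
  rw [h, Complex.add_re, Complex.ofReal_re, Complex.re_mul_ofReal]

theorem continuous_Hf (l : ℂ) (d T : ℝ) : Continuous fun t : ℝ => Hf l d T t := by
  unfold Hf
  fun_prop

theorem conj_dslope {w : ℂ → ℂ} (z : ℂ) (t : ℝ) :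
    conj (dslope w (conj z) (t : ℂ)) = dslope (shp w) z (t : ℂ) := by
  have hs : shp w = conj ∘ w ∘ conj := rfl
  by_cases h : (t : ℂ) = z
  · subst h
    rw [Complex.conj_ofReal, dslope_same, dslope_same, hs, deriv_conj_conj]
    simp
  · have h' : (t : ℂ) ≠ conj z := by
      intro h1
      apply h
      have := congrArg conj h1
      simpa using this
    rw [dslope_of_ne _ h', dslope_of_ne _ h, slope_def_field, slope_def_field, hs]
    simp

theorem conj_Pf {w : ℂ → ℂ} (l : ℂ) (d T : ℝ) (z : ℂ) :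
    conj (Pf w (conj l) d T (conj z)) =
      ∫ t in (-T)..T, Hf l d T t / shp w t * dslope (shp w) z (t : ℂ) := by
  unfold Pf
  rw [← intervalIntegral.intervalIntegral_conj]
  refine intervalIntegral.integral_congr fun t _ => ?_
  rw [map_mul, map_div₀, conj_Hf_real, conj_dslope]
  congr 2
  unfold shp
  rw [Complex.conj_ofReal]

theorem continuous_dslope_real {g : ℂ → ℂ} (hg : Differentiable ℂ g) (z : ℂ) :
    Continuous fun t : ℝ => dslope g z (t : ℂ) := by
  have hd : Differentiable ℂ (dslope g z) := by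
    rw [← differentiableOn_univ]
    exact (Complex.differentiableOn_dslope univ_mem).2 hg.differentiableOn
  exact hd.continuous.comp continuous_ofReal

theorem Core.shp_ne {w : ℂ → ℂ} {M : ℝ} (hw : Core w M) (t : ℝ) : shp w t ≠ 0 := by
  unfold shp
  rw [Complex.conj_ofReal]
  exact (map_ne_zero _).2 (hw.ne t (by simp))

theorem continuous_cf {w : ℂ → ℂ} {M : ℝ} (hw : Core w M) (l : ℂ) (d T : ℝ) :
    Continuous fun t : ℝ => Hf l d T t / w t :=
  (continuous_Hf l d T).div (hw.entire.continuous.comp continuous_ofReal)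
    fun t => hw.ne t (by simp)

theorem continuous_cf' {w : ℂ → ℂ} {M : ℝ} (hw : Core w M) (l : ℂ) (d T : ℝ) :
    Continuous fun t : ℝ => Hf l d T t / shp w t :=
  (continuous_Hf l d T).div ((differentiable_shp hw.entire).continuous.comp continuous_ofReal)
    fun t => hw.shp_ne t

theorem Ff_eq {w : ℂ → ℂ} {M : ℝ} (hw : Core w M) (l : ℂ) (d T : ℝ) (z : ℂ) :
    Ff w l d T z = (2 * π * I)⁻¹ * ∫ t in (-T)..T,
      Hf l d T t * (dslope (shp w) z (t : ℂ) / shp w t - dslope w z (t : ℂ) / w t) := by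
  unfold Ff
  rw [conj_Pf]
  unfold Pf
  rw [← intervalIntegral.integral_sub]
  · congr 1
    refine intervalIntegral.integral_congr fun t _ => ?_
    ring
  · exact ((continuous_cf' hw l d T).mul
      (continuous_dslope_real (differentiable_shp hw.entire) z)).intervalIntegrable _ _
  · exact ((continuous_cf hw l d T).mul
      (continuous_dslope_real hw.entire z)).intervalIntegrable _ _

theorem Ff_bound {w : ℂ → ℂ} {M : ℝ} (hw : Core w M) {l : ℂ} {d T : ℝ} (hT : 0 < T)
    (hd : 0 < d)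
    (hlow : ∀ x : ℝ, |x| ≤ T → Real.exp (l.re * x - 1) ≤ ‖w x‖) (z : ℂ) :
    ‖Ff w l d T z‖ ≤ 2 / π * Real.exp (2 * M + 1) * wt w z *
      ∫ t in (-T)..T, Real.exp (-(d * t ^ 2 / T)) / (1 + ‖(t : ℂ) - z‖) := by
  rw [Ff_eq hw, norm_mul]
  have hpi := Real.pi_pos
  have h1 : ‖(2 * π * I : ℂ)⁻¹‖ = 1 / (2 * π) := by
    rw [norm_inv, norm_mul, norm_mul, Complex.norm_I, mul_one, Complex.norm_real,
      Real.norm_eq_abs, abs_of_pos hpi]
    simp
  have hwz := (hw.wt_pos z).le
  have hcont : Continuous fun t : ℝ => Real.exp (-(d * t ^ 2 / T)) / (1 + ‖(t : ℂ) - z‖) := by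
    refine Continuous.div (by fun_prop) (by fun_prop) fun t => ?_
    have := norm_nonneg ((t : ℂ) - z)
    linarith
  have h2 : ‖∫ t in (-T)..T,
      Hf l d T t * (dslope (shp w) z (t : ℂ) / shp w t - dslope w z (t : ℂ) / w t)‖ ≤
      ∫ t in (-T)..T, (4 * Real.exp (2 * M + 1) * wt w z) *
        (Real.exp (-(d * t ^ 2 / T)) / (1 + ‖(t : ℂ) - z‖)) := by
    refine intervalIntegral.norm_integral_le_of_norm_le (by linarith) ?_
      ((continuous_const.mul hcont).intervalIntegrable _ _)
    refine ae_of_all _ fun t ht => ?_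
    rw [norm_mul, norm_Hf_real]
    have ht' : |t| ≤ T := abs_le.2 ⟨by linarith [ht.1], ht.2⟩
    have hl := hlow t ht'
    have hwt : 0 < ‖w t‖ := norm_pos_iff.2 (hw.ne t (by simp))
    have hk := kernel_bound hw t z
    have hden : 0 < 1 + ‖(t : ℂ) - z‖ := by
      have := norm_nonneg ((t : ℂ) - z)
      linarith
    have hl2 : Real.exp (l.re * t) ≤ Real.exp 1 * ‖w t‖ := by
      have : Real.exp (l.re * t) = Real.exp 1 * Real.exp (l.re * t - 1) := by
        rw [← Real.exp_add]
        ring_nf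
      rw [this]
      exact mul_le_mul_of_nonneg_left hl (Real.exp_pos _).le
    calc Real.exp (l.re * t) * Real.exp (-(d * t ^ 2 / T)) *
          ‖dslope (shp w) z (t : ℂ) / shp w t - dslope w z (t : ℂ) / w t‖
        ≤ (Real.exp 1 * ‖w t‖) * Real.exp (-(d * t ^ 2 / T)) *
          (4 * Real.exp (2 * M) * wt w z / (‖w t‖ * (1 + ‖(t : ℂ) - z‖))) := by
          apply mul_le_mul _ hk (norm_nonneg _) (by positivity)
          exact mul_le_mul_of_nonneg_right hl2 (Real.exp_pos _).le
      _ = 4 * Real.exp (2 * M + 1) * wt w z *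
          (Real.exp (-(d * t ^ 2 / T)) / (1 + ‖(t : ℂ) - z‖)) := by
          rw [Real.exp_add]
          field_simp
  rw [intervalIntegral.integral_const_mul] at h2
  rw [h1]
  calc 1 / (2 * π) * ‖∫ t in (-T)..T,
      Hf l d T t * (dslope (shp w) z (t : ℂ) / shp w t - dslope w z (t : ℂ) / w t)‖
      ≤ 1 / (2 * π) * (4 * Real.exp (2 * M + 1) * wt w z *
        ∫ t in (-T)..T, Real.exp (-(d * t ^ 2 / T)) / (1 + ‖(t : ℂ) - z‖)) :=
        mul_le_mul_of_nonneg_left h2 (by positivity)
    _ = _ := by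
        field_simp
        ring

theorem differentiable_Ff {w : ℂ → ℂ} {M : ℝ} (hw : Core w M) (l : ℂ) (d T : ℝ) :
    Differentiable ℂ (Ff w l d T) := by
  have h1 : Differentiable ℂ (Pf w l d T) :=
    differentiable_integral_dslope hw.entire (continuous_cf hw l d T) T
  have h2 : Differentiable ℂ fun z => conj (Pf w (conj l) d T (conj z)) := by
    have : (fun z => conj (Pf w (conj l) d T (conj z))) =
        fun z => ∫ t in (-T)..T, Hf l d T t / shp w t * dslope (shp w) z (t : ℂ) := by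
      funext z
      exact conj_Pf l d T z
    rw [this]
    exact differentiable_integral_dslope (differentiable_shp hw.entire)
      (continuous_cf' hw l d T) T
  exact (h2.sub h1).const_mul _

theorem tail_small {d : ℝ} (hd : 0 < d) {η : ℝ} (hη : 0 < η) :
    ∃ T₀ : ℝ, 0 < T₀ ∧ ∀ T : ℝ, T₀ ≤ T → ∀ z : ℂ, T / 3 ≤ ‖z‖ →
      ∫ t in (-T)..T, Real.exp (-(d * t ^ 2 / T)) / (1 + ‖(t : ℂ) - z‖) ≤ η := by
  have hpi := Real.pi_pos
  refine ⟨1 + 144 * π / (d * η ^ 2) + 10368 / (d ^ 2 * η), by positivity, fun T hT z hz => ?_⟩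
  have e1 : 0 < 144 * π / (d * η ^ 2) := by positivity
  have e2 : 0 < 10368 / (d ^ 2 * η) := by positivity
  have hT0 : 0 < T := by linarith
  have hT1 : 144 * π / (d * η ^ 2) ≤ T := by linarith
  have hT2 : 10368 / (d ^ 2 * η) ≤ T := by linarith
  rw [div_le_iff₀ (by positivity)] at hT1 hT2
  set b : ℝ := d / T with hb
  have hb0 : 0 < b := by positivity
  have hint : Integrable (fun t : ℝ => Real.exp (-b * t ^ 2)) := integrable_exp_neg_mul_sq hb0
  have hcont : Continuous fun t : ℝ => Real.exp (-(d * t ^ 2 / T)) / (1 + ‖(t : ℂ) - z‖) := by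
    refine Continuous.div (by fun_prop) (by fun_prop) fun t => ?_
    have := norm_nonneg ((t : ℂ) - z)
    linarith
  -- pointwise bound
  have hpt : ∀ t ∈ Icc (-T) T, Real.exp (-(d * t ^ 2 / T)) / (1 + ‖(t : ℂ) - z‖) ≤
      6 / T * Real.exp (-b * t ^ 2) + Real.exp (-(d * T / 36)) := by
    intro t ht
    have hn := norm_nonneg ((t : ℂ) - z)
    have hbt : -b * t ^ 2 = -(d * t ^ 2 / T) := by
      rw [hb]
      ring
    rw [hbt]
    rcases le_total |t| (T / 6) with h | h
    · have h1 : T / 6 ≤ 1 + ‖(t : ℂ) - z‖ := by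
        have h2 : ‖z‖ ≤ ‖(t : ℂ)‖ + ‖(t : ℂ) - z‖ := by
          have := norm_sub_le (t : ℂ) ((t : ℂ) - z)
          simpa using this
        rw [Complex.norm_real, Real.norm_eq_abs] at h2
        linarith
      have h3 : Real.exp (-(d * t ^ 2 / T)) / (1 + ‖(t : ℂ) - z‖) ≤
          Real.exp (-(d * t ^ 2 / T)) / (T / 6) :=
        div_le_div_of_nonneg_left (Real.exp_pos _).le (by positivity) h1
      have h4 : Real.exp (-(d * t ^ 2 / T)) / (T / 6) = 6 / T * Real.exp (-(d * t ^ 2 / T)) := by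
        field_simp
      have := Real.exp_pos (-(d * T / 36))
      linarith
    · have h1 : Real.exp (-(d * t ^ 2 / T)) ≤ Real.exp (-(d * T / 36)) := by
        apply Real.exp_le_exp.2
        have h2 : (T / 6) ^ 2 ≤ t ^ 2 := by
          rw [← sq_abs t]
          exact pow_le_pow_left₀ (by positivity) h 2
        have h3 : d * T / 36 ≤ d * t ^ 2 / T := by
          rw [le_div_iff₀ hT0]
          nlinarith
        linarith
      have h5 : Real.exp (-(d * t ^ 2 / T)) / (1 + ‖(t : ℂ) - z‖) ≤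
          Real.exp (-(d * t ^ 2 / T)) :=
        div_le_self (Real.exp_pos _).le (by linarith)
      have h6 : 0 ≤ 6 / T * Real.exp (-(d * t ^ 2 / T)) := by positivity
      linarith
  have hI : ∫ t in (-T)..T, Real.exp (-(d * t ^ 2 / T)) / (1 + ‖(t : ℂ) - z‖) ≤
      ∫ t in (-T)..T, (6 / T * Real.exp (-b * t ^ 2) + Real.exp (-(d * T / 36))) := by
    refine intervalIntegral.integral_mono_on (by linarith) (hcont.intervalIntegrable _ _) ?_ hpt
    exact (((hint.const_mul _).intervalIntegrable).add intervalIntegrable_const)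
  have hI2 : ∫ t in (-T)..T, (6 / T * Real.exp (-b * t ^ 2) + Real.exp (-(d * T / 36))) =
      6 / T * (∫ t in (-T)..T, Real.exp (-b * t ^ 2)) + 2 * T * Real.exp (-(d * T / 36)) := by
    rw [intervalIntegral.integral_add ((hint.const_mul _).intervalIntegrable)
      intervalIntegrable_const, intervalIntegral.integral_const_mul,
      intervalIntegral.integral_const, smul_eq_mul]
    ring
  have hI3 : ∫ t in (-T)..T, Real.exp (-b * t ^ 2) ≤ √(π / b) := by
    rw [intervalIntegral.integral_of_le (by linarith), ← integral_gaussian]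
    exact setIntegral_le_integral hint (ae_of_all _ fun t => (Real.exp_pos _).le)
  have hA : 6 / T * √(π / b) ≤ η / 2 := by
    have h1 : √(π / b) ≤ T * η / 12 := by
      apply Real.sqrt_le_iff.2
      refine ⟨by positivity, ?_⟩
      rw [hb, div_div_eq_mul_div, div_le_iff₀ hd]
      nlinarith [mul_le_mul_of_nonneg_left hT1 hT0.le]
    calc 6 / T * √(π / b) ≤ 6 / T * (T * η / 12) := mul_le_mul_of_nonneg_left h1 (by positivity)
      _ = η / 2 := by
        field_simp
        ring
  have hB : 2 * T * Real.exp (-(d * T / 36)) ≤ η / 2 := by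
    have hx : 0 < d * T / 36 := by positivity
    have h1 : (d * T / 36) ^ 2 / 2 ≤ Real.exp (d * T / 36) := by
      have := Real.quadratic_le_exp_of_nonneg hx.le
      nlinarith
    rw [Real.exp_neg, ← div_eq_mul_inv, div_le_iff₀ (Real.exp_pos _)]
    have h2 : 2 * T ≤ η / 2 * ((d * T / 36) ^ 2 / 2) := by
      have h3 : 0 ≤ T * (T * (d ^ 2 * η) - 10368) := mul_nonneg hT0.le (by linarith)
      nlinarith
    exact h2.trans (mul_le_mul_of_nonneg_left h1 (by positivity))
  have hC : 6 / T * (∫ t in (-T)..T, Real.exp (-b * t ^ 2)) ≤ 6 / T * √(π / b) :=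
    mul_le_mul_of_nonneg_left hI3 (by positivity)
  linarith

end Pool.Agent.Work.MP_6d8919_an
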