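import Pool.Agent.Work.MP_6d8919_an.Basic

/-!
# MP_6d8919_an: Phragmen-Lindelof with a singular polynomial bound at the boundary
-/

open Complex Set Filter Topology Metric MeasureTheory
open scoped Real ComplexConjugate

namespace Pool.Agent.Work.MP_6d8919_an

theorem pl_poly_aux {W : ℂ → ℂ} {M K : ℝ} {a b : ℕ} (hW : DifferentiableOn ℂ W {z | 0 < z.im})
    (hc : ContinuousOn W {z | 0 ≤ z.im})
    (h1 : ∀ z : ℂ, 0 < z.im → ‖W z‖ ≤ K * (1 + ‖z‖) ^ a / z.im ^ b)
    (h2 : ∀ x : ℝ, ‖W x‖ ≤ M) :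
    ∀ z : ℂ, 0 ≤ z.im → ‖W z‖ ≤ (max K 0 + M) * 3 ^ a * 9 ^ b * (1 + ‖z‖) ^ a := by
  have hM : 0 ≤ M := (norm_nonneg _).trans (h2 0)
  have hK0 : 0 ≤ max K 0 := le_max_right _ _
  have h1' : ∀ z : ℂ, 0 < z.im → ‖W z‖ ≤ max K 0 * (1 + ‖z‖) ^ a / z.im ^ b := by
    intro z hz
    refine (h1 z hz).trans ?_
    have : 0 ≤ (1 + ‖z‖) ^ a := by positivity
    gcongr
    exact le_max_left _ _
  have h39 : (1 : ℝ) ≤ 3 ^ a * 9 ^ b := by
    have e1 : (1 : ℝ) ≤ 3 ^ a := one_le_pow₀ (by norm_num)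
    have e2 : (1 : ℝ) ≤ 9 ^ b := one_le_pow₀ (by norm_num)
    nlinarith
  intro z hz
  rcases le_or_gt 1 z.im with hz1 | hz1
  · refine (h1' z (by linarith)).trans ?_
    have e1 : (1 : ℝ) ≤ z.im ^ b := one_le_pow₀ hz1
    have e2 : 0 ≤ max K 0 * (1 + ‖z‖) ^ a := by positivity
    calc max K 0 * (1 + ‖z‖) ^ a / z.im ^ b ≤ max K 0 * (1 + ‖z‖) ^ a := div_le_self e2 e1
      _ = max K 0 * 1 * (1 + ‖z‖) ^ a := by ring
      _ ≤ (max K 0 + M) * (3 ^ a * 9 ^ b) * (1 + ‖z‖) ^ a := by
          gcongr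
          linarith
      _ = _ := by ring
  · -- the rectangle
    set x : ℝ := z.re with hx
    set y : ℝ := z.im with hy
    set G : ℂ → ℂ := fun w => W w * ((w - ((x - 1 : ℝ) : ℂ)) * (w - ((x + 1 : ℝ) : ℂ))) ^ b with hG
    set U : Set ℂ := Ioo (x - 1) (x + 1) ×ℂ Ioo (0 : ℝ) 1 with hU
    have hUo : IsOpen U := isOpen_Ioo.reProdIm isOpen_Ioo
    have hUcl : closure U = Icc (x - 1) (x + 1) ×ℂ Icc (0 : ℝ) 1 := by
      rw [hU, closure_reProdIm, closure_Ioo (by linarith), closure_Ioo (by norm_num)]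
    have hUb : Bornology.IsBounded U := by
      rw [hU]
      exact (isBounded_Ioo _ _).reProdIm (isBounded_Ioo _ _)
    have hsub1 : U ⊆ {z : ℂ | 0 < z.im} := by
      intro w hw
      rw [hU, mem_reProdIm] at hw
      exact hw.2.1
    have hsub2 : closure U ⊆ {z : ℂ | 0 ≤ z.im} := by
      intro w hw
      rw [hUcl, mem_reProdIm] at hw
      exact hw.2.1
    have hGd : DiffContOnCl ℂ G U := by
      refine ⟨?_, ?_⟩
      · refine (hW.mono hsub1).mul ?_
        fun_prop
      · refine (hc.mono hsub2).mul ?_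
        fun_prop
    have hbd : ∀ w ∈ frontier U, ‖G w‖ ≤ (max K 0 + M) * 3 ^ a * 9 ^ b * (1 + |x|) ^ a := by
      intro w hw
      have hwc : w ∈ closure U := frontier_subset_closure hw
      have hwU : w ∉ U := by
        rw [frontier, hUo.interior_eq] at hw
        exact hw.2
      rw [hUcl, mem_reProdIm] at hwc
      obtain ⟨⟨ha1, ha2⟩, hb1, hb2⟩ := hwc
      have hre : |w.re| ≤ |x| + 1 := by
        rw [abs_le]
        constructor
        · have := neg_abs_le x; linarith
        · have := le_abs_self x; linarith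
      have hnw : 1 + ‖w‖ ≤ 3 * (1 + |x|) := by
        have e1 := Complex.norm_le_abs_re_add_abs_im w
        have e2 : |w.im| ≤ 1 := by rw [abs_of_nonneg hb1]; exact hb2
        have := abs_nonneg x
        linarith
      have hf1 : ‖w - ((x - 1 : ℝ) : ℂ)‖ ≤ 3 := by
        have e1 := Complex.norm_le_abs_re_add_abs_im (w - ((x - 1 : ℝ) : ℂ))
        have e2 : |(w - ((x - 1 : ℝ) : ℂ)).re| ≤ 2 := by
          rw [Complex.sub_re, Complex.ofReal_re, abs_le]
          constructor <;> linarith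
        have e3 : |(w - ((x - 1 : ℝ) : ℂ)).im| ≤ 1 := by
          rw [Complex.sub_im, Complex.ofReal_im, sub_zero, abs_of_nonneg hb1]; exact hb2
        linarith
      have hf2 : ‖w - ((x + 1 : ℝ) : ℂ)‖ ≤ 3 := by
        have e1 := Complex.norm_le_abs_re_add_abs_im (w - ((x + 1 : ℝ) : ℂ))
        have e2 : |(w - ((x + 1 : ℝ) : ℂ)).re| ≤ 2 := by
          rw [Complex.sub_re, Complex.ofReal_re, abs_le]
          constructor <;> linarith
        have e3 : |(w - ((x + 1 : ℝ) : ℂ)).im| ≤ 1 := by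
          rw [Complex.sub_im, Complex.ofReal_im, sub_zero, abs_of_nonneg hb1]; exact hb2
        linarith
      have hGn : ‖G w‖ = ‖W w‖ * (‖w - ((x - 1 : ℝ) : ℂ)‖ * ‖w - ((x + 1 : ℝ) : ℂ)‖) ^ b := by
        rw [hG]; simp only [norm_mul, norm_pow]
      have hpa : (1 : ℝ) ≤ (1 + |x|) ^ a := one_le_pow₀ (by have := abs_nonneg x; linarith)
      have hp9 : (‖w - ((x - 1 : ℝ) : ℂ)‖ * ‖w - ((x + 1 : ℝ) : ℂ)‖) ^ b ≤ 9 ^ b := by
        refine pow_le_pow_left₀ (by positivity) ?_ b
        calc _ ≤ (3 : ℝ) * 3 := mul_le_mul hf1 hf2 (norm_nonneg _) (by norm_num)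
          _ = 9 := by norm_num
      -- the interior-type bound
      have hmain : ∀ r : ℝ, 0 < w.im →
          (‖w - ((x - 1 : ℝ) : ℂ)‖ * ‖w - ((x + 1 : ℝ) : ℂ)‖) ^ b ≤ r ^ b * w.im ^ b →
          0 ≤ r → r ≤ 9 → ‖G w‖ ≤ (max K 0 + M) * 3 ^ a * 9 ^ b * (1 + |x|) ^ a := by
        intro r hpos hle hr0 hr9
        rw [hGn]
        have e1 := h1' w hpos
        have e2 : 0 < w.im ^ b := by positivity
        calc ‖W w‖ * (‖w - ((x - 1 : ℝ) : ℂ)‖ * ‖w - ((x + 1 : ℝ) : ℂ)‖) ^ b
            ≤ (max K 0 * (1 + ‖w‖) ^ a / w.im ^ b) * (r ^ b * w.im ^ b) := by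
              gcongr
          _ = max K 0 * (1 + ‖w‖) ^ a * r ^ b := by field_simp
          _ ≤ max K 0 * (3 * (1 + |x|)) ^ a * 9 ^ b := by gcongr
          _ = max K 0 * (3 ^ a * 9 ^ b * (1 + |x|) ^ a) := by rw [mul_pow]; ring
          _ ≤ (max K 0 + M) * (3 ^ a * 9 ^ b * (1 + |x|) ^ a) := by
              gcongr
              linarith
          _ = _ := by ring
      rcases eq_or_lt_of_le hb1 with h0 | hpos
      · -- bottom side
        have hw' : w = ((w.re : ℝ) : ℂ) := by
          apply Complex.ext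
          · simp
          · simp [← h0]
        have e1 : ‖W w‖ ≤ M := by
          rw [hw']; exact h2 _
        rw [hGn]
        calc ‖W w‖ * (‖w - ((x - 1 : ℝ) : ℂ)‖ * ‖w - ((x + 1 : ℝ) : ℂ)‖) ^ b ≤ M * 9 ^ b := by
              gcongr
          _ = M * (1 * 9 ^ b * 1) := by ring
          _ ≤ (max K 0 + M) * (3 ^ a * 9 ^ b * (1 + |x|) ^ a) := by
              gcongr
              · linarith
              · exact one_le_pow₀ (by norm_num)
          _ = _ := by ring
      · by_cases hr1 : w.re = x - 1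
        · refine hmain 3 hpos ?_ (by norm_num) (by norm_num)
          rw [← mul_pow]
          refine pow_le_pow_left₀ (by positivity) ?_ b
          have e1 : ‖w - ((x - 1 : ℝ) : ℂ)‖ = w.im := by
            have : w - ((x - 1 : ℝ) : ℂ) = w.im * I := by
              apply Complex.ext
              · simp [hr1]
              · simp
            rw [this, norm_mul, Complex.norm_I, mul_one, Complex.norm_real, Real.norm_eq_abs,
              abs_of_nonneg hb1]
          rw [e1]
          calc w.im * ‖w - ((x + 1 : ℝ) : ℂ)‖ ≤ w.im * 3 := by gcongr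
            _ = 3 * w.im := by ring
        · by_cases hr2 : w.re = x + 1
          · refine hmain 3 hpos ?_ (by norm_num) (by norm_num)
            rw [← mul_pow]
            refine pow_le_pow_left₀ (by positivity) ?_ b
            have e1 : ‖w - ((x + 1 : ℝ) : ℂ)‖ = w.im := by
              have : w - ((x + 1 : ℝ) : ℂ) = w.im * I := by
                apply Complex.ext
                · simp [hr2]
                · simp
              rw [this, norm_mul, Complex.norm_I, mul_one, Complex.norm_real, Real.norm_eq_abs,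
                abs_of_nonneg hb1]
            rw [e1]
            gcongr
          · -- top side
            have h1im : w.im = 1 := by
              by_contra hne
              apply hwU
              rw [hU, mem_reProdIm]
              exact ⟨⟨lt_of_le_of_ne ha1 (Ne.symm hr1), lt_of_le_of_ne ha2 hr2⟩, hpos,
                lt_of_le_of_ne hb2 hne⟩
            refine hmain 9 hpos ?_ (by norm_num) le_rfl
            rw [h1im, one_pow, mul_one]
            exact hp9
    have hzc : z ∈ closure U := by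
      rw [hUcl, mem_reProdIm]
      exact ⟨⟨by linarith, by linarith⟩, hz, hz1.le⟩
    have key := Complex.norm_le_of_forall_mem_frontier_norm_le hUb hGd hbd hzc
    have hfac : 1 ≤ ‖(z - ((x - 1 : ℝ) : ℂ)) * (z - ((x + 1 : ℝ) : ℂ))‖ := by
      have e1 : (z - ((x - 1 : ℝ) : ℂ)) * (z - ((x + 1 : ℝ) : ℂ)) = ((-(1 + y * y) : ℝ) : ℂ) := by
        apply Complex.ext
        · simp [Complex.mul_re, ← hx, ← hy]; ring
        · simp [Complex.mul_im, ← hx, ← hy]
      rw [e1, Complex.norm_real, norm_neg, Real.norm_eq_abs,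
        abs_of_nonneg (by nlinarith [mul_self_nonneg y])]
      nlinarith [mul_self_nonneg y]
    have e1 : ‖W z‖ ≤ ‖G z‖ := by
      have : ‖G z‖ = ‖W z‖ * ‖(z - ((x - 1 : ℝ) : ℂ)) * (z - ((x + 1 : ℝ) : ℂ))‖ ^ b := by
        rw [hG]; simp only [norm_mul, norm_pow]
      rw [this]
      exact le_mul_of_one_le_right (norm_nonneg _) (one_le_pow₀ hfac)
    have e2 : |x| ≤ ‖z‖ := Complex.abs_re_le_norm z
    calc ‖W z‖ ≤ _ := e1
      _ ≤ _ := key
      _ ≤ _ := by gcongr

theorem pl_poly {W : ℂ → ℂ} {M K : ℝ} {a b : ℕ} (hW : DifferentiableOn ℂ W {z | 0 < z.im})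
    (hc : ContinuousOn W {z | 0 ≤ z.im})
    (h1 : ∀ z : ℂ, 0 < z.im → ‖W z‖ ≤ K * (1 + ‖z‖) ^ a / z.im ^ b)
    (h2 : ∀ x : ℝ, ‖W x‖ ≤ M) : ∀ z : ℂ, 0 ≤ z.im → ‖W z‖ ≤ M := by
  have hM : 0 ≤ M := (norm_nonneg _).trans (h2 0)
  set K' : ℝ := (max K 0 + M) * 3 ^ a * 9 ^ b with hK'
  have hK'0 : 0 ≤ K' := by
    have := le_max_right K 0
    positivity
  have haux := pl_poly_aux hW hc h1 h2
  have hden : ∀ η : ℝ, 0 ≤ η → ∀ z : ℂ, 0 ≤ z.im → 1 + η * z.im ≤ ‖1 - I * η * z‖ := by
    intro η _ z _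
    have e1 : (1 - I * η * z).re = 1 + η * z.im := by
      simp [Complex.mul_re, Complex.mul_im]
    rw [← e1]
    exact Complex.re_le_norm _
  have hη : ∀ η : ℝ, 0 < η → ∀ z : ℂ, 0 ≤ z.im → ‖W z‖ ≤ M * ‖1 - I * η * z‖ ^ (a + 1) := by
    intro η hηp z hz
    have hne : ∀ w : ℂ, 0 ≤ w.im → (1 - I * η * w) ^ (a + 1) ≠ 0 := by
      intro w hw
      apply pow_ne_zero
      rw [← norm_pos_iff]
      have := hden η hηp.le w hw
      have h3 : 0 ≤ η * w.im := mul_nonneg hηp.le hw
      linarith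
    have hge : ∀ w : ℂ, 0 ≤ w.im → 1 ≤ ‖(1 - I * η * w) ^ (a + 1)‖ := by
      intro w hw
      rw [norm_pow]
      apply one_le_pow₀
      have := hden η hηp.le w hw
      have h3 : 0 ≤ η * w.im := mul_nonneg hηp.le hw
      linarith
    have hd : DiffContOnCl ℂ (fun w => W w / (1 - I * η * w) ^ (a + 1)) {z | 0 < z.im} := by
      apply diffContOnCl_upper
      · refine hW.div (by fun_prop) fun w hw => hne w (le_of_lt hw)
      · refine hc.div (by fun_prop) fun w hw => hne w hw
    have hle : ∀ w : ℂ, 0 ≤ w.im →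
        ‖W w / (1 - I * η * w) ^ (a + 1)‖ ≤ K' * (1 + ‖w‖) ^ a := by
      intro w hw
      rw [norm_div]
      exact (div_le_self (norm_nonneg _) (hge w hw)).trans (haux w hw)
    have key := pl_upper (A := a) (B := K') (C := M) (B' := K' * (max 1 (1 / η)) ^ a) hd ?_ ?_ ?_ z hz
    · rw [norm_div, div_le_iff₀ (by linarith [hge z hz]), norm_pow] at key
      exact key
    · intro w hw
      refine (hle w (le_of_lt hw)).trans ?_
      refine mul_le_mul_of_nonneg_left ?_ hK'0
      rw [Real.exp_nat_mul]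
      refine pow_le_pow_left₀ (by positivity) ?_ a
      rw [add_comm]
      exact Real.add_one_le_exp _
    · intro x
      rw [norm_div]
      exact (div_le_self (norm_nonneg _) (hge x (by simp))).trans (h2 x)
    · intro y hy
      have hyim : (0 : ℝ) ≤ ((y : ℂ) * I).im := by simpa using hy.le
      rw [norm_div]
      have e1 := haux (y * I) hyim
      have e2 : ‖(y : ℂ) * I‖ = y := by
        rw [norm_mul, Complex.norm_I, mul_one, Complex.norm_real, Real.norm_eq_abs,
          abs_of_pos hy]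
      rw [e2] at e1
      have e3 : 1 + η * y ≤ ‖1 - I * η * (y * I)‖ := by
        have := hden η hηp.le (y * I) hyim
        simpa using this
      have e4 : 1 + y ≤ max 1 (1 / η) * (1 + η * y) := by
        have f1 : (1 : ℝ) ≤ max 1 (1 / η) := le_max_left _ _
        have f2 : 1 / η ≤ max 1 (1 / η) := le_max_right _ _
        have f3 : 1 / η * (η * y) = y := by field_simp
        have f4 : 0 ≤ η * y := by positivity
        nlinarith
      have e5 : 0 < 1 + η * y := by positivity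
      have e6 : 1 ≤ 1 + η * y := by nlinarith
      rw [div_le_iff₀ (by rw [norm_pow]; exact pow_pos (by linarith) _), norm_pow]
      calc ‖W (y * I)‖ ≤ K' * (1 + y) ^ a := e1
        _ ≤ K' * (max 1 (1 / η) * (1 + η * y)) ^ a := by gcongr
        _ = K' * (max 1 (1 / η)) ^ a * (1 + η * y) ^ a := by rw [mul_pow]; ring
        _ ≤ K' * (max 1 (1 / η)) ^ a * (1 + η * y) ^ (a + 1) := by
            gcongr
            omega
        _ ≤ K' * (max 1 (1 / η)) ^ a * ‖1 - I * η * (y * I)‖ ^ (a + 1) := by gcongr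
  intro z hz
  have hcont : Tendsto (fun η : ℝ => M * ‖1 - I * η * z‖ ^ (a + 1)) (𝓝[>] 0) (𝓝 M) := by
    have hc' : Continuous (fun η : ℝ => M * ‖1 - I * (η : ℂ) * z‖ ^ (a + 1)) := by fun_prop
    have := (hc'.tendsto 0).mono_left (nhdsWithin_le_nhds (s := Ioi (0 : ℝ)))
    simpa using this
  refine ge_of_tendsto hcont ?_
  filter_upwards [self_mem_nhdsWithin] with η hηp
  exact hη η hηp z hz

end Pool.Agent.Work.MP_6d8919_an
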