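import Pool.Agent.Work.MP_6d8919_an.LogDerivPoly
import Pool.Agent.Work.MP_6d8919_an.PLPoly

/-!
# MP_6d8919_an: `|ω'| ≤ M |ω|` on the closed upper half-plane
-/

open Complex Set Filter Topology Metric
open scoped ComplexConjugate

namespace Pool.Agent.Work.MP_6d8919_an

theorem real_ne {ω : ℂ → ℂ} (hω : Differentiable ℂ ω) (hne : ∀ z : ℂ, 0 < z.im → ω z ≠ 0) {M : ℝ}
    (hM : ∀ x : ℝ, ‖deriv ω x‖ ≤ M * ‖ω x‖) (x₀ : ℝ) : ω x₀ ≠ 0 := by
  intro h0
  -- `ω` vanishes on `[x₀, x₀ + 1]`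
  have hzero : ∀ t : ℝ, t ∈ Icc (0 : ℝ) 1 → ω ((x₀ + t : ℝ) : ℂ) = 0 := by
    intro t ht
    set f : ℝ → ℂ := fun t => ω ((x₀ + t : ℝ) : ℂ) with hf
    have hder : ∀ t : ℝ, HasDerivAt f (deriv ω ((x₀ + t : ℝ) : ℂ)) t := by
      intro t
      have h1 : HasDerivAt (fun t : ℝ => ((x₀ + t : ℝ) : ℂ)) 1 t := by
        have := (Complex.ofRealCLM.hasDerivAt (x := t)).const_add (x₀ : ℂ)
        simpa using this
      have h2 := (hω ((x₀ + t : ℝ) : ℂ)).hasDerivAt.scomp t h1
      rw [one_smul] at h2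
      exact h2
    have := norm_le_gronwallBound_of_norm_deriv_right_le (f := f)
      (f' := fun t => deriv ω ((x₀ + t : ℝ) : ℂ)) (δ := 0) (K := M) (ε := 0)
      (a := 0) (b := 1) (fun t _ => (hder t).continuousAt.continuousWithinAt)
      (fun t _ => (hder t).hasDerivWithinAt) (by simp [hf, h0]) (by
        intro t _
        rw [add_zero]
        exact hM (x₀ + t)) t ht
    rw [gronwallBound_ε0_δ0] at this
    exact norm_le_zero_iff.1 this
  have han : AnalyticOnNhd ℂ ω univ := fun z _ => hω.analyticAt z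
  have hf : ∃ᶠ z in 𝓝[≠] (x₀ : ℂ), ω z = 0 := by
    have ht : Tendsto (fun n : ℕ => ((x₀ + 1 / ((n : ℝ) + 1) : ℝ) : ℂ)) atTop (𝓝[≠] (x₀ : ℂ)) := by
      rw [tendsto_nhdsWithin_iff]
      constructor
      · have h1 := (tendsto_one_div_add_atTop_nhds_zero_nat (𝕜 := ℝ)).const_add x₀
        rw [add_zero] at h1
        exact (Complex.continuous_ofReal.tendsto x₀).comp h1
      · refine Eventually.of_forall fun n => ?_
        simp only [mem_compl_iff, mem_singleton_iff, Complex.ofReal_inj]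
        have : 0 < 1 / ((n : ℝ) + 1) := by positivity
        linarith
    refine ht.frequently (Eventually.frequently (Eventually.of_forall fun n => hzero _ ⟨?_, ?_⟩))
    · positivity
    · rw [div_le_one (by positivity)]
      linarith [Nat.cast_nonneg (α := ℝ) n]
  have := han.eqOn_zero_of_preconnected_of_frequently_eq_zero isPreconnected_univ
    (mem_univ _) hf
  exact hne I (by simp) (this (mem_univ I))

theorem core_bound {ω : ℂ → ℂ} {σ : ℝ} (hω : Differentiable ℂ ω) (ht : TypeLE ω σ)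
    (hne : ∀ z : ℂ, 0 < z.im → ω z ≠ 0) {M : ℝ}
    (hM : ∀ x : ℝ, ‖deriv ω x‖ ≤ M * ‖ω x‖) :
    (∀ z : ℂ, 0 ≤ z.im → ω z ≠ 0) ∧ ∀ z : ℂ, 0 ≤ z.im → ‖deriv ω z‖ ≤ M * ‖ω z‖ := by
  have hne' : ∀ z : ℂ, 0 ≤ z.im → ω z ≠ 0 := by
    intro z hz
    rcases hz.eq_or_lt with h | h
    · have : z = ((z.re : ℝ) : ℂ) := by
        apply Complex.ext <;> simp [← h]
      rw [this]
      exact real_ne hω hne hM _
    · exact hne z h
  refine ⟨hne', ?_⟩
  obtain ⟨B, hB⟩ := ht 1 one_pos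
  obtain ⟨a, b, K, hK⟩ := logDeriv_poly (g := ω) (A := σ + 1) (B := B) hω.differentiableOn hne
    (fun z _ => hB z)
  have hdd : Differentiable ℂ (deriv ω) := by
    have := (hω.differentiableOn (s := univ)).deriv isOpen_univ
    exact differentiableOn_univ.1 this
  have h1 := pl_poly (W := fun z => deriv ω z / ω z) (M := M) (K := K) (a := a) (b := b)
    (hdd.differentiableOn.div hω.differentiableOn fun z hz => hne z hz)
    (hdd.continuous.continuousOn.div hω.continuous.continuousOn fun z hz => hne' z hz)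
    hK (fun x => by
      rw [norm_div, div_le_iff₀ (norm_pos_iff.2 (hne' x (by simp)))]
      exact hM x)
  intro z hz
  have h2 := h1 z hz
  rwa [norm_div, div_le_iff₀ (norm_pos_iff.2 (hne' z hz))] at h2

end Pool.Agent.Work.MP_6d8919_an
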