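import Mathlib

/-!
# MP_6d8919_an: definitions (differentiation on weighted spaces of entire functions)
-/

open Complex Set Filter Topology

namespace Pool.Agent.Work.MP_6d8919_an

/-- `g` has exponential type `≤ τ`. -/
def TypeLE (g : ℂ → ℂ) (τ : ℝ) : Prop :=
  ∀ ε : ℝ, 0 < ε → ∃ C : ℝ, ∀ z : ℂ, ‖g z‖ ≤ C * Real.exp ((τ + ε) * ‖z‖)

/-- `g` has exponential type `τ`: `τ` is the least number such that `g` has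
exponential type `≤ τ`. -/
def HasType (g : ℂ → ℂ) (τ : ℝ) : Prop := IsLeast {t : ℝ | TypeLE g t} τ

/-- The weight `m(x + iy) = |ω(x + i|y|)|`. -/
noncomputable def wt (ω : ℂ → ℂ) (z : ℂ) : ℝ := ‖ω ⟨z.re, |z.im|⟩‖

/-- The properties of `ω` used in the study of the spectrum: `ω` is entire, without zeros
in the closed upper half-plane, `|ω'| ≤ M |ω|` there, and `|ω (conj z)| ≤ |ω z|` there. -/
structure Core (ω : ℂ → ℂ) (M : ℝ) : Prop where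
  entire : Differentiable ℂ ω
  ne : ∀ z : ℂ, 0 ≤ z.im → ω z ≠ 0
  bd : ∀ z : ℂ, 0 ≤ z.im → ‖deriv ω z‖ ≤ M * ‖ω z‖
  conj_le : ∀ z : ℂ, 0 ≤ z.im → ‖ω ((starRingEnd ℂ) z)‖ ≤ ‖ω z‖

/-- `|ω (x + iy)|` is nondecreasing in `y ≥ 0`. -/
def MonoIm (ω : ℂ → ℂ) : Prop :=
  ∀ x a b : ℝ, 0 ≤ a → a ≤ b → ‖ω (⟨x, a⟩ : ℂ)‖ ≤ ‖ω (⟨x, b⟩ : ℂ)‖

/-- The admissible set: on arbitrarily large half-discs `x + {|z| ≤ R, Im z ≥ 0}`, `x` real,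
`|ω (x + z)| ≥ e^{-ε} |ω x| exp (Re λ · Re z + |Im λ| · Im z)`. -/
def Adm (ω : ℂ → ℂ) : Set ℂ :=
  {l | ∀ R ε : ℝ, 0 < ε → ∃ x : ℝ, ∀ z : ℂ, ‖z‖ ≤ R → 0 ≤ z.im →
    Real.exp (l.re * z.re + |l.im| * z.im - ε) * ‖ω x‖ ≤ ‖ω (x + z)‖}

/-- The set of cluster values of `ω'(z)/ω(z)` as `Im z → +∞`. -/
def Clu (ω : ℂ → ℂ) : Set ℂ :=
  {μ | ∀ Y ε : ℝ, 0 < ε → ∃ z : ℂ, Y ≤ z.im ∧ ‖deriv ω z / ω z - μ‖ < ε}

end Pool.Agent.Work.MP_6d8919_an
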