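import Pool.Agent.Work.MP_6d8919_an.SchwarzLog

/-!
# MP_6d8919_an: cluster values are not in the resolvent set; dichotomy for admissible points
-/

open Complex Set Filter Topology Metric MeasureTheory
open scoped Real ComplexConjugate

namespace Pool.Agent.Work.MP_6d8919_an

/-- Cauchy's estimate for `ω'/ω`. -/
theorem Core.norm_deriv_logDeriv_le {ω : ℂ → ℂ} {M : ℝ} (hω : Core ω M) {z : ℂ}
    (hz : 0 < z.im) : ‖deriv (fun w => deriv ω w / ω w) z‖ ≤ 2 * M / z.im := by
  have hsub : ∀ w ∈ closedBall z (z.im / 2), 0 ≤ w.im := by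
    intro w hw
    rw [mem_closedBall, dist_eq_norm] at hw
    have h1 := abs_le.1 ((Complex.abs_im_le_norm (w - z)).trans hw)
    rw [Complex.sub_im] at h1
    linarith [h1.1]
  have hd : DiffContOnCl ℂ (fun w => deriv ω w / ω w) (ball z (z.im / 2)) := by
    apply DifferentiableOn.diffContOnCl
    intro w hw
    have hw' : 0 ≤ w.im := hsub w (closure_ball_subset_closedBall hw)
    have h1 : DifferentiableAt ℂ (deriv ω) w :=
      ((hω.entire.differentiableOn (s := univ)).deriv isOpen_univ).differentiableAt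
        (isOpen_univ.mem_nhds (mem_univ _))
    exact (h1.div (hω.entire w) (hω.ne w hw')).differentiableWithinAt
  have hb : ∀ w ∈ sphere z (z.im / 2), ‖deriv ω w / ω w‖ ≤ M := by
    intro w hw
    have hw' : 0 ≤ w.im := hsub w (sphere_subset_closedBall hw)
    rw [norm_div, div_le_iff₀ (norm_pos_iff.2 (hω.ne w hw'))]
    exact hω.bd w hw'
  have := Complex.norm_deriv_le_of_forall_mem_sphere_norm_le (by linarith) hd hb
  calc _ ≤ _ := this
    _ = 2 * M / z.im := by field_simp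

theorem clu_no_resolvent {ω : ℂ → ℂ} {M : ℝ} (hω : Core ω M) {μ : ℂ} (hμ : μ ∈ Clu ω)
    {h : ℂ → ℂ} (hh : Differentiable ℂ h) {C : ℝ} (hb : ∀ z, ‖h z‖ ≤ C * wt ω z)
    (heq : ∀ z, μ * h z - deriv h z = ω z) : False := by
  have hC : 0 ≤ C := by
    have h1 := hb 0
    have h2 := hω.wt_pos 0
    by_contra hneg
    push Not at hneg
    have : C * wt ω 0 < 0 := mul_neg_of_neg_of_pos hneg h2
    linarith [norm_nonneg (h 0)]
  have hM := hω.M_nonneg
  set ℓ : ℝ := 8 * C + 8 with hℓ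
  set δ : ℝ := 1 / (2 * (C + 1)) with hδ
  have hδ0 : 0 < δ := by positivity
  have hδC : δ * C ≤ 1 / 2 := by
    rw [hδ, div_mul_eq_mul_div, one_mul, div_le_div_iff₀ (by positivity) (by norm_num)]
    linarith
  have hℓ0 : 0 < ℓ := by positivity
  obtain ⟨z, hzY, hz⟩ := hμ (4 * M * ℓ / δ + 1) (δ / 2) (by positivity)
  have hY1 : 0 ≤ 4 * M * ℓ / δ := by positivity
  have hz0 : 0 < z.im := by linarith
  set W : ℂ → ℂ := fun w => deriv ω w / ω w with hW
  set q : ℂ → ℂ := fun w => h w / ω w with hq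
  have hpt : ∀ s : ℝ, (z + s).im = z.im := fun s => by simp
  -- derivatives
  have hWd : ∀ s : ℝ, HasDerivAt (fun s : ℝ => W (z + s)) (deriv W (z + s)) s := by
    intro s
    have h1 : DifferentiableAt ℂ (deriv ω) (z + s) :=
      ((hω.entire.differentiableOn (s := univ)).deriv isOpen_univ).differentiableAt
        (isOpen_univ.mem_nhds (mem_univ _))
    have h2 : DifferentiableAt ℂ W (z + s) :=
      h1.div (hω.entire _) (hω.ne _ (by rw [hpt]; exact hz0.le))
    have h3 : HasDerivAt (fun s : ℝ => z + (s : ℂ)) 1 s := by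
      simpa using (Complex.ofRealCLM.hasDerivAt (x := s)).const_add z
    have := h2.hasDerivAt.scomp s h3
    simpa [Function.comp_def] using this
  have hqd : ∀ s : ℝ, HasDerivAt (fun s : ℝ => q (z + s) + s)
      ((μ - W (z + s)) * q (z + s)) s := by
    intro s
    have hne : ω (z + s) ≠ 0 := hω.ne _ (by rw [hpt]; exact hz0.le)
    have h2 : HasDerivAt q ((deriv h (z + s) * ω (z + s) - h (z + s) * deriv ω (z + s)) /
        ω (z + s) ^ 2) (z + s) := (hh _).hasDerivAt.div (hω.entire _).hasDerivAt hne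
    have h3 : HasDerivAt (fun s : ℝ => z + (s : ℂ)) 1 s := by
      simpa using (Complex.ofRealCLM.hasDerivAt (x := s)).const_add z
    have h4 := h2.scomp s h3
    have h5 : HasDerivAt (fun s : ℝ => (s : ℂ)) 1 s := by
      simpa using (hasDerivAt_id s).ofReal_comp
    have h6 := h4.add h5
    have h7 : deriv h (z + s) = μ * h (z + s) - ω (z + s) := by
      rw [← heq (z + s)]; ring
    have h8 : (1 : ℂ) • ((deriv h (z + s) * ω (z + s) - h (z + s) * deriv ω (z + s)) /
        ω (z + s) ^ 2) + 1 = (μ - W (z + s)) * q (z + s) := by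
      rw [h7, one_smul, hW, hq]
      field_simp
      ring
    rw [h8] at h6
    exact h6
  -- `W` is close to `μ`
  have hWμ : ∀ s ∈ Icc (0 : ℝ) ℓ, ‖W (z + s) - μ‖ ≤ δ := by
    intro s hs
    have h1 := norm_image_sub_le_of_norm_deriv_le_segment' (f := fun s : ℝ => W (z + s))
      (f' := fun s : ℝ => deriv W (z + s)) (a := 0) (b := ℓ) (C := 2 * M / z.im)
      (fun s _ => (hWd s).hasDerivWithinAt) (fun s _ => by
        have := hω.norm_deriv_logDeriv_le (z := z + s) (by rw [hpt]; exact hz0)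
        rw [hpt] at this
        exact this) s hs
    have h2 : 2 * M / z.im * (s - 0) ≤ δ / 2 := by
      rw [sub_zero, div_mul_eq_mul_div, div_le_iff₀ hz0]
      have h3 : 2 * M * s ≤ 2 * M * ℓ := mul_le_mul_of_nonneg_left hs.2 (by positivity)
      have h4 : 4 * M * ℓ / δ ≤ z.im := by linarith
      rw [div_le_iff₀ hδ0] at h4
      nlinarith
    have h5 : W (z + s) - μ = (W (z + s) - W (z + (0 : ℝ))) + (W z - μ) := by
      simp
    rw [h5]
    refine (norm_add_le _ _).trans ?_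
    have h6 : ‖W z - μ‖ ≤ δ / 2 := hz.le
    have h7 : ‖W (z + s) - W (z + (0 : ℝ))‖ ≤ δ / 2 := h1.trans h2
    linarith
  have hqb : ∀ s : ℝ, ‖q (z + s)‖ ≤ C := by
    intro s
    have h0 : 0 ≤ (z + s).im := by rw [hpt]; exact hz0.le
    rw [hq]
    simp only
    rw [norm_div, div_le_iff₀ (norm_pos_iff.2 (hω.ne _ h0))]
    have := hb (z + s)
    rwa [wt_of_nonneg ω h0] at this
  have hfin := norm_image_sub_le_of_norm_deriv_le_segment' (f := fun s : ℝ => q (z + s) + s)
      (f' := fun s : ℝ => (μ - W (z + s)) * q (z + s)) (a := 0) (b := ℓ) (C := 1 / 2)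
      (fun s _ => (hqd s).hasDerivWithinAt) (fun s hs => by
        rw [norm_mul, norm_sub_rev]
        calc ‖W (z + s) - μ‖ * ‖q (z + s)‖ ≤ δ * C :=
              mul_le_mul (hWμ s ⟨hs.1, hs.2.le⟩) (hqb s) (norm_nonneg _) hδ0.le
          _ ≤ 1 / 2 := hδC) ℓ ⟨hℓ0.le, le_refl _⟩
  have h1 : ‖(ℓ : ℂ)‖ = ℓ := by
    rw [Complex.norm_real, Real.norm_eq_abs, abs_of_pos hℓ0]
  have h2 : (ℓ : ℂ) = (q (z + ℓ) + ℓ - (q (z + (0 : ℝ)) + (0 : ℝ))) - q (z + ℓ) +
      q (z + (0 : ℝ)) := by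
    push_cast; ring
  have h3 : ℓ ≤ 1 / 2 * (ℓ - 0) + C + C := by
    calc ℓ = ‖(ℓ : ℂ)‖ := h1.symm
      _ = ‖(q (z + ℓ) + ℓ - (q (z + (0 : ℝ)) + (0 : ℝ))) - q (z + ℓ) +
            q (z + (0 : ℝ))‖ := by rw [← h2]
      _ ≤ ‖(q (z + ℓ) + ℓ - (q (z + (0 : ℝ)) + (0 : ℝ))) - q (z + ℓ)‖ +
            ‖q (z + (0 : ℝ))‖ := norm_add_le _ _
      _ ≤ ‖(q (z + ℓ) + ℓ - (q (z + (0 : ℝ)) + (0 : ℝ)))‖ + ‖q (z + ℓ)‖ +
            ‖q (z + (0 : ℝ))‖ := by gcongr; exact norm_sub_le _ _
      _ ≤ _ := by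
        gcongr
        · exact hqb _
        · exact hqb _
  linarith

theorem im_cube (w : ℂ) : (w - w ^ 3).im = w.im * (1 - 3 * w.re ^ 2 + w.im ^ 2) := by
  have h : w ^ 3 = w * w * w := by ring
  rw [h]
  simp only [Complex.sub_im, Complex.mul_im, Complex.mul_re]
  ring

theorem dichotomy {ω : ℂ → ℂ} {M : ℝ} (hω : Core ω M) {l : ℂ} (hl : l ∈ Adm ω)
    (hn : (⟨l.re, -|l.im|⟩ : ℂ) ∉ Clu ω) :
    ∃ c : ℝ, 0 < c ∧ (⟨l.re, |l.im| + c⟩ : ℂ) ∈ Adm ω := by
  set β : ℝ := |l.im| with hβ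
  set μ : ℂ := ⟨l.re, -β⟩ with hμ
  have hn' : ∃ Y d : ℝ, 0 < d ∧ ∀ z : ℂ, Y ≤ z.im → d ≤ ‖deriv ω z / ω z - μ‖ := by
    by_contra hcon
    push Not at hcon
    exact hn fun Y ε hε => hcon Y ε hε
  obtain ⟨Y₁, d, hd, hY₁⟩ := hn'
  refine ⟨d / 6, by positivity, ?_⟩
  have hc : |β + d / 6| = β + d / 6 := abs_of_nonneg (by positivity)
  intro R₁ ε hε
  simp only [hc]
  -- enlarge the radii
  set R : ℝ := max R₁ 1 with hR
  have hR0 : 0 < R := lt_of_lt_of_le one_pos (le_max_right _ _)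
  set Y : ℝ := max (2 * Y₁) (3 * R) with hY
  have hYR : 3 * R ≤ Y := le_max_right _ _
  have hY0 : 0 < Y := by linarith
  have hYY : 2 * Y₁ ≤ Y := le_max_left _ _
  obtain ⟨x, hx⟩ := hl (2 * Y) ε hε
  refine ⟨x, fun z hzR hz => ?_⟩
  have hzR' : ‖z‖ ≤ R := hzR.trans (le_max_left _ _)
  have hωx : 0 < ‖ω x‖ := norm_pos_iff.2 (hω.ne _ (by simp))
  have hxi : ∀ w : ℂ, ((x : ℂ) + w).im = w.im := fun w => by simp
  set G : ℂ → ℂ := fun w => ω x * exp (μ * w) / ω (x + w) with hG
  have hμw : ∀ w : ℂ, (μ * w).re = l.re * w.re + β * w.im := by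
    intro w
    rw [Complex.mul_re, hμ]
    ring
  have hGn : ∀ w : ℂ, ‖G w‖ = ‖ω x‖ * Real.exp (l.re * w.re + β * w.im) / ‖ω (x + w)‖ := by
    intro w
    rw [hG]
    simp only
    rw [norm_div, norm_mul, Complex.norm_exp, hμw]
  have hGle : ∀ w : ℂ, ‖w‖ ≤ 2 * Y → 0 ≤ w.im → ‖G w‖ ≤ Real.exp ε := by
    intro w hw hwi
    have h1 := hx w hw hwi
    rw [hGn, div_le_iff₀ (norm_pos_iff.2 (hω.ne _ (by rw [hxi]; exact hwi)))]
    have h2 : Real.exp ε * (Real.exp (l.re * w.re + β * w.im - ε) * ‖ω x‖) ≤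
        Real.exp ε * ‖ω (x + w)‖ := mul_le_mul_of_nonneg_left h1 (Real.exp_pos _).le
    rw [← mul_assoc, ← Real.exp_add] at h2
    calc _ = Real.exp (ε + (l.re * w.re + β * w.im - ε)) * ‖ω x‖ := by
          rw [mul_comm]; congr 2; ring
      _ ≤ _ := h2
  have hGne : ∀ w : ℂ, 0 ≤ w.im → G w ≠ 0 := by
    intro w hw
    exact div_ne_zero (mul_ne_zero (norm_pos_iff.1 hωx) (exp_ne_zero _))
      (hω.ne _ (by rw [hxi]; exact hw))
  have hGd : ∀ w : ℂ, 0 ≤ w.im → HasDerivAt G ((μ - deriv ω (x + w) / ω (x + w)) * G w) w := by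
    intro w hw
    have hne : ω (x + w) ≠ 0 := hω.ne _ (by rw [hxi]; exact hw)
    have h1 : HasDerivAt (fun w : ℂ => ω x * exp (μ * w)) (ω x * (exp (μ * w) * (μ * 1))) w :=
      (((hasDerivAt_id w).const_mul μ).cexp).const_mul _
    have h2 : HasDerivAt (fun w : ℂ => ω (x + w)) (deriv ω (x + w)) w := by
      have h3 : HasDerivAt (fun w : ℂ => (x : ℂ) + w) 1 w := (hasDerivAt_id w).const_add _
      have := (hω.entire (x + w)).hasDerivAt.comp w h3
      simpa [Function.comp_def] using this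
    have h3 := h1.div h2 hne
    have h4 : (ω x * (exp (μ * w) * (μ * 1)) * ω (x + w) - ω x * exp (μ * w) *
        deriv ω (x + w)) / ω (x + w) ^ 2 = (μ - deriv ω (x + w) / ω (x + w)) * G w := by
      rw [hG]
      field_simp
    rw [h4] at h3
    exact h3
  -- the estimate on the arc
  have harc : ∀ w : ℂ, ‖w‖ = Y → Y ≤ 2 * w.im →
      ‖G w‖ ≤ Real.exp (ε - d * w.im / 2) := by
    intro w hw hwi
    have hwi0 : 0 < w.im := by linarith
    have hball : ∀ v ∈ ball w w.im, ‖v‖ ≤ 2 * Y ∧ 0 < v.im := by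
      intro v hv
      rw [mem_ball, dist_eq_norm] at hv
      have h1 := abs_lt.1 ((Complex.abs_im_le_norm (v - w)).trans_lt hv)
      rw [Complex.sub_im] at h1
      refine ⟨?_, by linarith [h1.1]⟩
      have h2 : w.im ≤ ‖w‖ := (le_abs_self _).trans (Complex.abs_im_le_norm w)
      have h3 : ‖v‖ ≤ ‖v - w‖ + ‖w‖ := by
        calc ‖v‖ = ‖(v - w) + w‖ := by rw [sub_add_cancel]
          _ ≤ _ := norm_add_le _ _
      linarith
    have h1 := logDeriv_le hwi0 (G := G) (c := w) (K := Real.exp ε)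
      (fun v hv => (hGd v (hball v hv).2.le).differentiableAt.differentiableWithinAt)
      (fun v hv => hGne v (hball v hv).2.le)
      (fun v hv => hGle v (hball v hv).1 (hball v hv).2.le)
    have hG0 : 0 < ‖G w‖ := norm_pos_iff.2 (hGne w hwi0.le)
    rw [(hGd w hwi0.le).deriv, mul_div_assoc, div_self (hGne w hwi0.le), mul_one, norm_sub_rev,
      Real.log_div (Real.exp_pos _).ne' hG0.ne', Real.log_exp] at h1
    have h2 : d ≤ ‖deriv ω (x + w) / ω (x + w) - μ‖ := hY₁ _ (by rw [hxi]; linarith)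
    have h3 : d ≤ 2 / w.im * (ε - Real.log ‖G w‖) := h2.trans h1
    have h4 : d * w.im ≤ 2 * (ε - Real.log ‖G w‖) := by
      rw [div_mul_eq_mul_div, le_div_iff₀ hwi0] at h3
      exact h3
    rw [← Real.exp_log hG0]
    apply Real.exp_le_exp.2
    linarith
  set k : ℝ := d * Y / 4 with hk
  have hk0 : 0 < k := by positivity
  set E : ℂ → ℂ := fun w => G w * exp (-I * k * (w / Y - (w / Y) ^ 3)) with hE
  have hIm : ∀ w : ℂ, (-I * k * (w / Y - (w / Y) ^ 3)).re =
      k * ((w.im / Y) * (1 - 3 * (w.re / Y) ^ 2 + (w.im / Y) ^ 2)) := by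
    intro w
    have h1 : -I * k * (w / Y - (w / Y) ^ 3) = ((k : ℝ) : ℂ) * (-I * (w / Y - (w / Y) ^ 3)) := by
      ring
    rw [h1, Complex.re_ofReal_mul]
    congr 1
    have h2 : (-I * (w / Y - (w / Y) ^ 3)).re = (w / Y - (w / Y) ^ 3).im := by
      simp [Complex.mul_re]
    rw [h2, im_cube, Complex.div_ofReal_im, Complex.div_ofReal_re]
  have hEn : ∀ w : ℂ, ‖E w‖ = ‖G w‖ *
      Real.exp (k * ((w.im / Y) * (1 - 3 * (w.re / Y) ^ 2 + (w.im / Y) ^ 2))) := by
    intro w
    rw [hE]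
    simp only
    rw [norm_mul, Complex.norm_exp, hIm]
  have hEfr : ∀ w : ℂ, 0 ≤ w.im → ‖w‖ ≤ Y → (‖w‖ = Y ∨ w.im = 0) → ‖E w‖ ≤ Real.exp ε := by
    intro w hwi hwY hcase
    rcases hcase with hw | hw
    · -- on the arc
      have hsq : w.re ^ 2 + w.im ^ 2 = Y ^ 2 := by
        rw [← hw, Complex.sq_norm, Complex.normSq_apply]; ring
      have hre : (w.re / Y) ^ 2 = 1 - (w.im / Y) ^ 2 := by
        rw [div_pow, div_pow, eq_sub_iff_add_eq, ← add_div, hsq, div_self (by positivity)]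
      have hv : 1 - 3 * (w.re / Y) ^ 2 + (w.im / Y) ^ 2 = 4 * (w.im / Y) ^ 2 - 2 := by
        rw [hre]; ring
      have hv0 : 0 ≤ w.im / Y := by positivity
      have hv1 : w.im / Y ≤ 1 := by
        rw [div_le_one hY0, ← hw]
        exact (le_abs_self _).trans (Complex.abs_im_le_norm w)
      rw [hEn, hv]
      rcases le_total (w.im / Y) (1 / 2) with hlow | hhigh
      · have h1 := hGle w (by linarith) hwi
        have h2 : k * (w.im / Y * (4 * (w.im / Y) ^ 2 - 2)) ≤ 0 := by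
          apply mul_nonpos_of_nonneg_of_nonpos hk0.le
          apply mul_nonpos_of_nonneg_of_nonpos hv0
          nlinarith
        calc _ ≤ Real.exp ε * Real.exp 0 :=
              mul_le_mul h1 (Real.exp_le_exp.2 h2) (Real.exp_pos _).le (Real.exp_pos _).le
          _ = _ := by rw [Real.exp_zero, mul_one]
      · have hhigh' : Y ≤ 2 * w.im := by
          rw [le_div_iff₀ hY0] at hhigh
          linarith
        have h1 := harc w hw hhigh'
        have h2 : k * (w.im / Y * (4 * (w.im / Y) ^ 2 - 2)) ≤ d * w.im / 2 := by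
          have h3 : d * w.im / 2 = k * (w.im / Y * 2) := by
            rw [hk]; field_simp; ring
          rw [h3]
          apply mul_le_mul_of_nonneg_left _ hk0.le
          apply mul_le_mul_of_nonneg_left _ hv0
          nlinarith
        calc _ ≤ Real.exp (ε - d * w.im / 2) * Real.exp (d * w.im / 2) :=
              mul_le_mul h1 (Real.exp_le_exp.2 h2) (Real.exp_pos _).le (Real.exp_pos _).le
          _ = _ := by rw [← Real.exp_add, sub_add_cancel]
    · rw [hEn, hw]
      simp only [zero_div, zero_mul, mul_zero, Real.exp_zero, mul_one]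
      exact hGle w (by linarith) hwi
  -- the maximum principle
  set U : Set ℂ := ball 0 Y ∩ {w | 0 < w.im} with hU
  have hUo : IsOpen U := isOpen_ball.inter (isOpen_lt continuous_const Complex.continuous_im)
  have hcl : ∀ w ∈ closure U, ‖w‖ ≤ Y ∧ 0 ≤ w.im := by
    intro w hw
    have h1 : closure U ⊆ closedBall 0 Y ∩ {w | 0 ≤ w.im} := by
      apply closure_minimal
      · intro v hv
        have h2 : 0 < v.im := hv.2
        exact ⟨ball_subset_closedBall hv.1, h2.le⟩
      · exact isClosed_closedBall.inter (isClosed_le continuous_const Complex.continuous_im)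
    have h2 := h1 hw
    exact ⟨by simpa using h2.1, h2.2⟩
  have hEd : DiffContOnCl ℂ E U := by
    apply DifferentiableOn.diffContOnCl
    intro w hw
    have h1 : DifferentiableAt ℂ G w := (hGd w (hcl w hw).2).differentiableAt
    have h2 : DifferentiableAt ℂ (fun w : ℂ => exp (-I * k * (w / Y - (w / Y) ^ 3))) w := by
      fun_prop
    exact (h1.mul h2).differentiableWithinAt
  have hEU : ∀ w ∈ closure U, ‖E w‖ ≤ Real.exp ε := by
    intro w hw
    refine Complex.norm_le_of_forall_mem_frontier_norm_le (isBounded_ball.subset inter_subset_left)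
      hEd (fun v hv => ?_) hw
    rw [hUo.frontier_eq] at hv
    have h1 := hcl v hv.1
    refine hEfr v h1.2 h1.1 ?_
    by_contra hcon
    push Not at hcon
    exact hv.2 ⟨by simpa using lt_of_le_of_ne h1.1 hcon.1, lt_of_le_of_ne h1.2 (Ne.symm hcon.2)⟩
  -- conclusion
  have hmain : ‖G z‖ ≤ Real.exp (ε - d / 6 * z.im) := by
    rcases hz.eq_or_lt with h0 | h0
    · rw [← h0, mul_zero, sub_zero]
      exact hGle z (by linarith) hz
    · have hzU : z ∈ U := ⟨by simpa using (by linarith : ‖z‖ < Y), h0⟩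
      have h1 := hEU z (subset_closure hzU)
      rw [hEn] at h1
      have h2 : d / 6 * z.im ≤
          k * ((z.im / Y) * (1 - 3 * (z.re / Y) ^ 2 + (z.im / Y) ^ 2)) := by
        have h3 : d / 6 * z.im = k * ((z.im / Y) * (2 / 3)) := by
          rw [hk]; field_simp; ring
        rw [h3]
        apply mul_le_mul_of_nonneg_left _ hk0.le
        apply mul_le_mul_of_nonneg_left _ (by positivity)
        have h4 : z.re ^ 2 + z.im ^ 2 ≤ (Y / 3) ^ 2 := by
          have : ‖z‖ ^ 2 = z.re ^ 2 + z.im ^ 2 := by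
            rw [Complex.sq_norm, Complex.normSq_apply]; ring
          rw [← this]
          exact pow_le_pow_left₀ (norm_nonneg _) (by linarith) 2
        have h5 : (z.re / Y) ^ 2 ≤ 1 / 9 := by
          rw [div_pow, div_le_iff₀ (by positivity)]
          nlinarith [sq_nonneg z.im]
        nlinarith [sq_nonneg (z.im / Y)]
      have h6 : ‖G z‖ * Real.exp (d / 6 * z.im) ≤ Real.exp ε :=
        (mul_le_mul_of_nonneg_left (Real.exp_le_exp.2 h2) (norm_nonneg _)).trans h1
      rw [Real.exp_sub, le_div_iff₀ (Real.exp_pos _)]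
      exact h6
  rw [hGn, div_le_iff₀ (norm_pos_iff.2 (hω.ne _ (by rw [hxi]; exact hz)))] at hmain
  have h7 : Real.exp (-(ε - d / 6 * z.im)) * (‖ω x‖ * Real.exp (l.re * z.re + β * z.im)) ≤
      ‖ω (x + z)‖ := by
    have := mul_le_mul_of_nonneg_left hmain (Real.exp_pos (-(ε - d / 6 * z.im))).le
    rwa [← mul_assoc _ (Real.exp (ε - d / 6 * z.im)), ← Real.exp_add, neg_add_cancel,
      Real.exp_zero, one_mul] at this
  calc _ = Real.exp (-(ε - d / 6 * z.im)) * (‖ω x‖ * Real.exp (l.re * z.re + β * z.im)) := by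
        rw [mul_comm (‖ω x‖), ← mul_assoc, ← Real.exp_add]
        congr 2
        ring
    _ ≤ _ := h7

end Pool.Agent.Work.MP_6d8919_an
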