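import Pool.Agent.Work.MP_6d8919_an.Basic

/-!
# A two constants lemma in the upper half-plane
-/

open Complex Set Filter Topology Metric MeasureTheory
open scoped Real ComplexConjugate

namespace Pool.Agent.Work.MP_6d8919_an

theorem normSq_sub_conj (w ζ : ℂ) :
    ‖w - conj ζ‖ ^ 2 = ‖w - ζ‖ ^ 2 + 4 * w.im * ζ.im := by
  rw [← Complex.normSq_eq_norm_sq, ← Complex.normSq_eq_norm_sq, Complex.normSq_apply,
    Complex.normSq_apply]
  simp only [sub_re, sub_im, conj_re, conj_im]
  ring

/-- The maximum principle for `Q ^ N / b ^ k`, `b` the Blaschke factor of `ζ`. -/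
theorem blaschke_bound {Q : ℂ → ℂ} (hQ : DiffContOnCl ℂ Q {z | 0 < z.im})
    (h1 : ∀ z : ℂ, 0 ≤ z.im → ‖Q z‖ ≤ 1) {ζ : ℂ} {ρ m : ℝ} (hρ : 0 < ρ) (hζ : ρ < ζ.im)
    (hs : ∀ z ∈ closedBall ζ ρ, ‖Q z‖ ≤ Real.exp (-m)) {z : ℂ} (hz : 0 < z.im)
    (hzρ : ρ < ‖z - ζ‖) {N k : ℕ} (hNk : k * Real.log (3 * ζ.im / ρ) ≤ N * m) :
    ‖Q z‖ ^ N * (‖z - conj ζ‖ / ‖z - ζ‖) ^ k ≤ 1 := by
  have hη : 0 < ζ.im := hρ.trans hζ
  set G : ℂ → ℂ := fun w => Q w ^ N * ((w - conj ζ) / (w - ζ)) ^ k with hG
  have hGn : ∀ w, ‖G w‖ = ‖Q w‖ ^ N * (‖w - conj ζ‖ / ‖w - ζ‖) ^ k := by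
    intro w
    simp [hG, norm_pow]
  rw [← hGn]
  -- the estimate for large radii
  have key : ∀ R : ℝ, ‖ζ‖ < R → ‖z‖ < R → ‖G z‖ ≤ ((R + ‖ζ‖) / (R - ‖ζ‖)) ^ k := by
    intro R hR1 hR2
    set U : Set ℂ := {w | 0 < w.im} ∩ {w | ρ < ‖w - ζ‖} ∩ {w | ‖w‖ < R} with hU
    have hUo : IsOpen U := by
      refine ((isOpen_lt continuous_const Complex.continuous_im).inter
        (isOpen_lt continuous_const ?_)).inter (isOpen_lt continuous_norm continuous_const)
      exact (continuous_id.sub continuous_const).norm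
    have hUb : Bornology.IsBounded U := by
      refine (isBounded_ball (x := (0 : ℂ)) (r := R)).subset ?_
      intro w hw
      simpa using hw.2
    have hcl : ∀ w ∈ closure U, 0 ≤ w.im ∧ ρ ≤ ‖w - ζ‖ ∧ ‖w‖ ≤ R := by
      intro w hw
      have hc : IsClosed ({w : ℂ | 0 ≤ w.im} ∩ {w | ρ ≤ ‖w - ζ‖} ∩ {w | ‖w‖ ≤ R}) := by
        refine ((isClosed_le continuous_const Complex.continuous_im).inter
          (isClosed_le continuous_const ?_)).inter (isClosed_le continuous_norm continuous_const)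
        exact (continuous_id.sub continuous_const).norm
      have h2 : closure U ⊆ {w : ℂ | 0 ≤ w.im} ∩ {w | ρ ≤ ‖w - ζ‖} ∩ {w | ‖w‖ ≤ R} := by
        refine closure_minimal ?_ hc
        rintro w ⟨⟨h3, h4⟩, h5⟩
        exact ⟨⟨(show (0 : ℝ) < w.im from h3).le, (show ρ < ‖w - ζ‖ from h4).le⟩,
        (show ‖w‖ < R from h5).le⟩
      exact ⟨(h2 hw).1.1, (h2 hw).1.2, (h2 hw).2⟩
    have hsub : U ⊆ {z : ℂ | 0 < z.im} := fun w hw => hw.1.1
    have hne : ∀ w ∈ closure U, w - ζ ≠ 0 := by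
      intro w hw h0
      have := (hcl w hw).2.1
      rw [h0, norm_zero] at this
      linarith
    have hGd : DiffContOnCl ℂ G U := by
      refine ⟨?_, ?_⟩
      · refine ((hQ.differentiableOn.mono hsub).pow N).mul (DifferentiableOn.pow ?_ k)
        refine DifferentiableOn.div (differentiableOn_id.sub_const _)
          (differentiableOn_id.sub_const _) ?_
        intro w hw
        exact hne w (subset_closure hw)
      · refine ((hQ.continuousOn.mono (closure_mono hsub)).pow N).mul (ContinuousOn.pow ?_ k)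
        exact ContinuousOn.div (continuousOn_id.sub continuousOn_const)
          (continuousOn_id.sub continuousOn_const) hne
    have hR0 : 0 < R - ‖ζ‖ := by linarith
    have hge1 : 1 ≤ ((R + ‖ζ‖) / (R - ‖ζ‖)) ^ k := by
      refine one_le_pow₀ ?_
      rw [le_div_iff₀ hR0]
      linarith [norm_nonneg ζ]
    refine Complex.norm_le_of_forall_mem_frontier_norm_le hUb hGd ?_ (subset_closure ?_)
    · intro w hw
      rw [hUo.frontier_eq] at hw
      obtain ⟨hwc, hwU⟩ := hw
      obtain ⟨h3, h4, h5⟩ := hcl w hwc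
      rw [hGn]
      have hQ1 : ‖Q w‖ ^ N ≤ 1 := pow_le_one₀ (norm_nonneg _) (h1 w h3)
      have hpos : 0 < ‖w - ζ‖ := lt_of_lt_of_le hρ h4
      rcases h3.eq_or_lt with h6 | h6
      · -- the real line
        have h7 : ‖w - conj ζ‖ = ‖w - ζ‖ := by
          have := normSq_sub_conj w ζ
          rw [← h6] at this
          simp only [mul_zero, zero_mul, add_zero] at this
          exact (pow_left_inj₀ (norm_nonneg _) (norm_nonneg _) two_ne_zero).1 this
        rw [h7, div_self hpos.ne', one_pow, mul_one]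
        exact hQ1.trans hge1
      · rcases h4.eq_or_lt with h7 | h7
        · -- the small circle
          have h8 : ‖w - conj ζ‖ / ‖w - ζ‖ ≤ 3 * ζ.im / ρ := by
            rw [← h7]
            refine div_le_div_of_nonneg_right ?_ hρ.le
            have h9 : ‖w - conj ζ‖ ≤ ‖w - ζ‖ + ‖ζ - conj ζ‖ := by
              have := norm_add_le (w - ζ) (ζ - conj ζ)
              simpa using this
            have h10 : ‖ζ - conj ζ‖ = 2 * ζ.im := by
              rw [Complex.sub_conj]
              simp [abs_of_pos hη]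
            rw [h10, ← h7] at h9
            linarith
          have h11 : ‖Q w‖ ≤ Real.exp (-m) := by
            refine hs w ?_
            rw [mem_closedBall, dist_eq_norm_sub, ← h7]
          have h12 : 0 < 3 * ζ.im / ρ := by positivity
          refine le_trans ?_ hge1
          calc ‖Q w‖ ^ N * (‖w - conj ζ‖ / ‖w - ζ‖) ^ k
              ≤ Real.exp (-m) ^ N * (3 * ζ.im / ρ) ^ k := by
                gcongr
            _ = Real.exp (-(N * m) + k * Real.log (3 * ζ.im / ρ)) := by
                rw [Real.exp_add, ← Real.exp_nat_mul, Real.exp_nat_mul (Real.log _),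
                  Real.exp_log h12]
                ring_nf
            _ ≤ 1 := by
                rw [Real.exp_le_one_iff]
                linarith
        · -- the large circle
          have h8 : ‖w‖ = R := by
            rcases h5.eq_or_lt with h9 | h9
            · exact h9
            · exact absurd ⟨⟨h6, h7⟩, h9⟩ hwU
          have h9 : ‖w - conj ζ‖ / ‖w - ζ‖ ≤ (R + ‖ζ‖) / (R - ‖ζ‖) := by
            refine div_le_div₀ (by linarith [norm_nonneg ζ]) ?_ hR0 ?_
            · have := norm_sub_le w (conj ζ)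
              rwa [h8, Complex.norm_conj] at this
            · have := norm_sub_norm_le w ζ
              rwa [h8] at this
          calc ‖Q w‖ ^ N * (‖w - conj ζ‖ / ‖w - ζ‖) ^ k
              ≤ 1 * ((R + ‖ζ‖) / (R - ‖ζ‖)) ^ k := by gcongr
            _ = _ := one_mul _
    · exact ⟨⟨hz, hzρ⟩, hR2⟩
  -- let the radius tend to infinity
  have hlim : Tendsto (fun R : ℝ => ((R + ‖ζ‖) / (R - ‖ζ‖)) ^ k) atTop (𝓝 1) := by
    have h2 : Tendsto (fun R : ℝ => 2 * ‖ζ‖ / (R - ‖ζ‖) + 1) atTop (𝓝 (0 + 1)) := by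
      refine Tendsto.add_const _ ?_
      exact tendsto_const_nhds.div_atTop (tendsto_atTop_add_const_right _ _ tendsto_id)
    have h3 := (h2.pow k)
    rw [zero_add, one_pow] at h3
    refine h3.congr' ?_
    filter_upwards [eventually_gt_atTop ‖ζ‖] with R hR
    congr 1
    have : R - ‖ζ‖ ≠ 0 := by linarith
    field_simp
    ring
  refine ge_of_tendsto hlim ?_
  filter_upwards [eventually_gt_atTop ‖ζ‖, eventually_gt_atTop ‖z‖] with R hR1 hR2
  exact key R hR1 hR2

theorem two_const {Q : ℂ → ℂ} (hQ : DiffContOnCl ℂ Q {z | 0 < z.im})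
    (h1 : ∀ z : ℂ, 0 ≤ z.im → ‖Q z‖ ≤ 1) {ζ : ℂ} {ρ m : ℝ} (hρ : 0 < ρ) (hζ : ρ < ζ.im)
    (hm : 0 ≤ m) (hs : ∀ z ∈ closedBall ζ ρ, ‖Q z‖ ≤ Real.exp (-m)) {z : ℂ} (hz : 0 < z.im) :
    ‖Q z‖ ≤ Real.exp (-(m * (2 * z.im * ζ.im / ‖z - (starRingEnd ℂ) ζ‖ ^ 2) /
      Real.log (3 * ζ.im / ρ))) := by
  have hη : 0 < ζ.im := hρ.trans hζ
  set L := Real.log (3 * ζ.im / ρ) with hL
  have hL1 : 1 < L := by
    rw [hL, Real.lt_log_iff_exp_lt (by positivity)]
    have h2 : (3 : ℝ) < 3 * ζ.im / ρ := by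
      rw [lt_div_iff₀ hρ]
      linarith
    linarith [Real.exp_one_lt_d9]
  have hL0 : 0 < L := by linarith
  have hD : 0 < ‖z - conj ζ‖ ^ 2 := by
    rw [normSq_sub_conj]
    have := mul_pos hz hη
    nlinarith [sq_nonneg ‖z - ζ‖]
  set t := 2 * z.im * ζ.im / ‖z - conj ζ‖ ^ 2 with ht
  have ht0 : 0 < t := by positivity
  rcases le_or_gt ‖z - ζ‖ ρ with hzρ | hzρ
  · -- inside the ball
    refine (hs z (by rwa [mem_closedBall, dist_eq_norm_sub])).trans ?_
    rw [Real.exp_le_exp, neg_le_neg_iff, div_le_iff₀ hL0]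
    refine mul_le_mul_of_nonneg_left ?_ hm
    have h3 : t ≤ 1 := by
      rw [ht, div_le_one hD, normSq_sub_conj]
      have := mul_pos hz hη
      nlinarith [sq_nonneg ‖z - ζ‖]
    linarith
  · -- outside the ball
    rcases eq_or_ne (Q z) 0 with hQz | hQz
    · rw [hQz, norm_zero]
      exact (Real.exp_pos _).le
    have hQp : 0 < ‖Q z‖ := norm_pos_iff.2 hQz
    rw [← Real.log_le_iff_le_exp hQp]
    have hzz : 0 < ‖z - ζ‖ := hρ.trans hzρ
    set β := Real.log (‖z - conj ζ‖ / ‖z - ζ‖) with hβ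
    have hzc : 0 < ‖z - conj ζ‖ := by
      by_contra h
      have : ‖z - conj ζ‖ = 0 := le_antisymm (not_lt.1 h) (norm_nonneg _)
      rw [this] at hD
      norm_num at hD
    -- lower bound for `β`
    have hβt : t ≤ β := by
      have h3 : β = -(1 / 2) * Real.log (‖z - ζ‖ ^ 2 / ‖z - conj ζ‖ ^ 2) := by
        rw [hβ, Real.log_div hzc.ne' hzz.ne', Real.log_div (by positivity) (by positivity),
          Real.log_pow, Real.log_pow]
        push_cast
        ring
      have h4 := Real.log_le_sub_one_of_pos (x := ‖z - ζ‖ ^ 2 / ‖z - conj ζ‖ ^ 2) (by positivity)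
      have h5 : ‖z - ζ‖ ^ 2 / ‖z - conj ζ‖ ^ 2 - 1 = -(2 * t) := by
        rw [ht, div_sub_one hD.ne', eq_sub_of_add_eq (normSq_sub_conj z ζ).symm]
        ring
      rw [h5] at h4
      rw [h3]
      linarith
    have hβ0 : 0 < β := by linarith
    -- the discrete inequality
    have hdisc : ∀ N : ℕ, (N : ℝ) * Real.log ‖Q z‖ ≤ -((N * m / L - 1) * β) := by
      intro N
      set k := ⌊(N : ℝ) * m / L⌋₊ with hk
      have hk1 : (k : ℝ) * L ≤ N * m := by
        rw [← le_div_iff₀ hL0]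
        exact Nat.floor_le (by positivity)
      have hk2 : (N : ℝ) * m / L - 1 ≤ k := by
        have := Nat.lt_floor_add_one ((N : ℝ) * m / L)
        rw [← hk] at this
        linarith
      have h3 := blaschke_bound hQ h1 hρ hζ hs hz hzρ (N := N) (k := k) hk1
      have h4 := Real.log_le_log (by positivity) h3
      rw [Real.log_one, Real.log_mul (by positivity) (by positivity), Real.log_pow, Real.log_pow,
        ← hβ] at h4
      have h5 : (N * m / L - 1) * β ≤ k * β := mul_le_mul_of_nonneg_right hk2 hβ0.le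
      linarith
    -- pass to the limit
    have hlim : Real.log ‖Q z‖ ≤ -(m / L * β) := by
      refine le_of_forall_pos_le_add fun ε hε => ?_
      obtain ⟨N, hN⟩ := exists_nat_gt (β / ε)
      have hN0 : (0 : ℝ) < N := lt_trans (by positivity) hN
      have h3 := hdisc N
      have h4 : β < N * ε := by
        rwa [div_lt_iff₀ hε] at hN
      have h5 : (N : ℝ) * Real.log ‖Q z‖ ≤ N * (-(m / L * β) + ε) := by
        have h6 : -((N * m / L - 1) * β) = N * (-(m / L * β)) + β := by ring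
        rw [h6] at h3
        nlinarith
      exact le_of_mul_le_mul_left h5 hN0
    refine hlim.trans ?_
    rw [neg_le_neg_iff]
    have h3 : m * t / L = m / L * t := by ring
    rw [h3]
    exact mul_le_mul_of_nonneg_left hβt (by positivity)

end Pool.Agent.Work.MP_6d8919_an
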