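import Pool.Agent.Work.MP_6d8919_an.Basic
import Pool.Agent.Work.MP_6d8919_an.TwoConst

/-!
# MP_6d8919_an: majorisation of functions of exponential type
-/

open Complex Set Filter Topology Metric MeasureTheory
open scoped Real ComplexConjugate

namespace Pool.Agent.Work.MP_6d8919_an

theorem norm_exp_I_mul (k : ℝ) (z : ℂ) : ‖Complex.exp (I * k * z)‖ = Real.exp (-(k * z.im)) := by
  rw [Complex.norm_exp]
  congr 1
  simp [Complex.mul_re, Complex.mul_im]

/-- the quotient `f / ω` times `exp (i k z)` -/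
noncomputable def quo (f ω : ℂ → ℂ) (k : ℝ) (z : ℂ) : ℂ := f z / ω z * Complex.exp (I * k * z)

theorem norm_quo (f ω : ℂ → ℂ) (k : ℝ) (z : ℂ) :
    ‖quo f ω k z‖ = ‖f z / ω z‖ * Real.exp (-(k * z.im)) := by
  unfold quo
  rw [norm_mul, norm_exp_I_mul]

theorem quo_diffCont {ω f : ℂ → ℂ} {M : ℝ} (hω : Core ω M) (hf : Differentiable ℂ f) (k : ℝ) :
    DiffContOnCl ℂ (quo f ω k) {z | 0 < z.im} := by
  have he : Differentiable ℂ fun z : ℂ => Complex.exp (I * k * z) := by fun_prop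
  apply diffContOnCl_upper
  · intro z hz
    exact ((hf z).differentiableWithinAt.div (hω.entire z).differentiableWithinAt
      (hω.ne z (le_of_lt hz))).mul (he z).differentiableWithinAt
  · intro z hz
    exact ((hf z).continuousAt.continuousWithinAt.div (hω.entire z).continuousAt.continuousWithinAt
      (hω.ne z hz)).mul (he z).continuousAt.continuousWithinAt

theorem quo_growth {ω f : ℂ → ℂ} {σ M : ℝ} (hω : Core ω M) (hft : TypeLE f σ) :
    ∃ B : ℝ, ∀ z : ℂ, 0 ≤ z.im → ‖f z / ω z‖ ≤ B * Real.exp ((σ + 1 + M) * ‖z‖) := by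
  obtain ⟨C, hC⟩ := hft 1 one_pos
  refine ⟨C / ‖ω 0‖, fun z hz => ?_⟩
  have h0 : 0 < ‖ω 0‖ := norm_pos_iff.2 (hω.ne 0 (by simp))
  have hz0 : 0 < ‖ω z‖ := norm_pos_iff.2 (hω.ne z hz)
  have hl := Core.lower hω.entire hω.bd hz
  have hCz := hC z
  have hC0 : 0 ≤ C * Real.exp ((σ + 1) * ‖z‖) := (norm_nonneg _).trans hCz
  rw [norm_div, div_le_iff₀ hz0]
  have h3 : C / ‖ω 0‖ * Real.exp ((σ + 1 + M) * ‖z‖) * ‖ω z‖ =
      C * Real.exp ((σ + 1) * ‖z‖) * ((Real.exp (M * ‖z‖) * ‖ω z‖) / ‖ω 0‖) := by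
    have : Real.exp ((σ + 1 + M) * ‖z‖) = Real.exp ((σ + 1) * ‖z‖) * Real.exp (M * ‖z‖) := by
      rw [← Real.exp_add]; congr 1; ring
    rw [this]; ring
  rw [h3]
  refine hCz.trans (le_mul_of_one_le_right hC0 ?_)
  rw [one_le_div h0]
  exact hl

/-- The set of exponents `k ≥ 0` with `|f / ω| ≤ e^{k y}`. -/
def expo (f ω : ℂ → ℂ) : Set ℝ :=
  {k | 0 ≤ k ∧ ∀ z : ℂ, 0 ≤ z.im → ‖f z / ω z‖ ≤ Real.exp (k * z.im)}

theorem expo_nonempty {ω f : ℂ → ℂ} {σ M : ℝ} (hω : Core ω M) (hσ : 0 < σ)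
    (hf : Differentiable ℂ f) (hft : TypeLE f σ) (hC : ∀ x : ℝ, ‖f x‖ ≤ ‖ω x‖) :
    (expo f ω).Nonempty := by
  obtain ⟨B, hB⟩ := quo_growth hω hft
  have hM := hω.M_nonneg
  have hA : 0 ≤ σ + 1 + M := by linarith
  refine ⟨σ + 1 + M, hA, fun z hz => ?_⟩
  have key := pl_upper (Q := quo f ω (σ + 1 + M)) (A := σ + 1 + M) (B := B) (C := 1) (B' := B)
    (quo_diffCont hω hf _) (fun w hw => ?_) (fun x => ?_) (fun y hy => ?_) z hz
  · rw [norm_quo, Real.exp_neg, ← div_eq_mul_inv, div_le_one (Real.exp_pos _)] at key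
    exact key
  · rw [norm_quo]
    have h1 : Real.exp (-((σ + 1 + M) * w.im)) ≤ 1 := by
      rw [Real.exp_le_one_iff]
      have := mul_nonneg hA hw.le
      linarith
    exact (mul_le_of_le_one_right (norm_nonneg _) h1).trans (hB w hw.le)
  · rw [norm_quo]
    have h1 : (x : ℂ).im = 0 := by simp
    rw [h1, mul_zero, neg_zero, Real.exp_zero, mul_one, norm_div]
    exact div_le_one_of_le₀ (hC x) (norm_nonneg _)
  · rw [norm_quo]
    have h1 : ((y : ℂ) * I).im = y := by simp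
    have h2 : ‖(y : ℂ) * I‖ = y := by simp [abs_of_pos hy]
    have h3 := hB (y * I) (by rw [h1]; exact hy.le)
    rw [h2] at h3
    rw [h1, Real.exp_neg]
    rw [← div_eq_mul_inv, div_le_iff₀ (Real.exp_pos _)]
    exact h3

theorem expo_closed (f ω : ℂ → ℂ) : IsClosed (expo f ω) := by
  have : expo f ω = Ici 0 ∩ ⋂ z : ℂ, ⋂ _ : 0 ≤ z.im, {k | ‖f z / ω z‖ ≤ Real.exp (k * z.im)} := by
    ext k
    simp [expo]
  rw [this]
  refine isClosed_Ici.inter (isClosed_iInter fun z => isClosed_iInter fun _ => ?_)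
  exact isClosed_le continuous_const (Real.continuous_exp.comp (continuous_id.mul continuous_const))

/-- far points in the closed upper half-plane where `ω` is large -/
theorem exists_large {ω : ℂ → ℂ} {σ M t : ℝ} (hω : Core ω M) (ht : HasType ω σ) (ht0 : 0 < t)
    (htσ : t ≤ σ) (R : ℝ) :
    ∃ w : ℂ, 0 ≤ w.im ∧ R < ‖w‖ ∧ Real.exp ((σ - t) * ‖w‖) ≤ ‖ω w‖ := by
  have hM := hω.M_nonneg
  have h1 : ¬ TypeLE ω (σ - t) := by
    intro h
    have := ht.2 h
    linarith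
  unfold TypeLE at h1
  push Not at h1
  obtain ⟨e, he, h1⟩ := h1
  obtain ⟨z, hz⟩ := h1 (max 1 (Real.exp (M * R) * ‖ω 0‖))
  -- move to the upper half-plane
  obtain ⟨w, hw, hwn, hwz⟩ : ∃ w : ℂ, 0 ≤ w.im ∧ ‖w‖ = ‖z‖ ∧ ‖ω z‖ ≤ ‖ω w‖ := by
    rcases le_total 0 z.im with h | h
    · exact ⟨z, h, rfl, le_rfl⟩
    · refine ⟨conj z, by simpa using h, by simp, ?_⟩
      have := hω.conj_le (conj z) (by simpa using h)
      simpa using this
  have h2 : Real.exp ((σ - t) * ‖w‖) ≤ Real.exp ((σ - t + e) * ‖z‖) := by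
    rw [hwn]
    apply Real.exp_le_exp.2
    have := mul_nonneg he.le (norm_nonneg z)
    nlinarith
  have h3 : 1 ≤ Real.exp ((σ - t + e) * ‖z‖) := by
    apply Real.one_le_exp
    apply mul_nonneg (by linarith) (norm_nonneg _)
  refine ⟨w, hw, ?_, ?_⟩
  · by_contra hR
    push Not at hR
    have h4 := lip_exp hω.entire hω.bd (z := 0) (w := w) (by simp) hw
    rw [sub_zero] at h4
    have h5 : Real.exp (M * ‖w‖) * ‖ω 0‖ ≤ Real.exp (M * R) * ‖ω 0‖ :=
      mul_le_mul_of_nonneg_right (Real.exp_le_exp.2 (mul_le_mul_of_nonneg_left hR hM))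
        (norm_nonneg _)
    have h6 : Real.exp (M * R) * ‖ω 0‖ ≤
        max 1 (Real.exp (M * R) * ‖ω 0‖) * Real.exp ((σ - t + e) * ‖z‖) :=
      (le_max_right _ _).trans (le_mul_of_one_le_right (zero_le_one.trans (le_max_left _ _)) h3)
    linarith
  · have h7 : Real.exp ((σ - t + e) * ‖z‖) ≤
        max 1 (Real.exp (M * R) * ‖ω 0‖) * Real.exp ((σ - t + e) * ‖z‖) :=
      le_mul_of_one_le_left (Real.exp_pos _).le (le_max_left _ _)
    linarith

/-- If the quotient is exponentially small on far discs then the exponent can be lowered. -/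
theorem exists_smaller {Q : ℂ → ℂ} (hQ : DiffContOnCl ℂ Q {z | 0 < z.im})
    (h1 : ∀ z : ℂ, 0 ≤ z.im → ‖Q z‖ ≤ 1) {t η : ℝ} (ht0 : 0 < t) (ht1 : t ≤ 1) (htη : t < η)
    (H : ∀ R : ℝ, ∃ w : ℂ, 0 ≤ w.im ∧ R < ‖w‖ ∧
      ∀ z ∈ closedBall (w + I * (η * ‖w‖ : ℝ)) (t * ‖w‖), ‖Q z‖ ≤ Real.exp (-(t * ‖w‖))) :
    ∃ c : ℝ, 0 < c ∧ ∀ z : ℂ, 0 ≤ z.im → ‖Q z‖ ≤ Real.exp (-(c * z.im)) := by
  have hη : 0 < η := ht0.trans htη
  set L := Real.log (3 * (1 + η) / t) with hL
  have hLpos : 0 < L := by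
    apply Real.log_pos
    rw [lt_div_iff₀ ht0]
    nlinarith
  refine ⟨t * η / (2 * (1 + η) ^ 2 * L), by positivity, fun z hz => ?_⟩
  rcases hz.eq_or_lt with hz0 | hz0
  · rw [← hz0, mul_zero, neg_zero, Real.exp_zero]
    exact h1 z hz
  obtain ⟨w, hw, hwR, hwb⟩ := H (max ‖z‖ 1)
  set r := ‖w‖ with hr
  have hrz : ‖z‖ < r := (le_max_left _ _).trans_lt hwR
  have hr1 : 1 < r := (le_max_right _ _).trans_lt hwR
  have hr0 : 0 < r := by linarith
  set ζ : ℂ := w + I * (η * r : ℝ) with hζ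
  have hζim : ζ.im = w.im + η * r := by
    rw [hζ]; simp [Complex.mul_im]
  have hwim : w.im ≤ r := (le_abs_self _).trans (Complex.abs_im_le_norm w)
  have hζ1 : η * r ≤ ζ.im := by rw [hζim]; linarith
  have hζ2 : ζ.im ≤ (1 + η) * r := by rw [hζim]; linarith
  have hρζ : t * r < ζ.im := lt_of_lt_of_le (mul_lt_mul_of_pos_right htη hr0) hζ1
  have hζpos : 0 < ζ.im := lt_of_lt_of_le (by positivity) hζ1
  have key := two_const hQ h1 (ζ := ζ) (ρ := t * r) (m := t * r) (by positivity) hρζ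
    (by positivity) hwb hz0
  refine key.trans (Real.exp_le_exp.2 (neg_le_neg ?_))
  -- compare the exponents
  have hnorm : ‖z - conj ζ‖ ≤ 2 * (1 + η) * r := by
    have h2 : ‖ζ‖ ≤ (1 + η) * r := by
      rw [hζ]
      refine (norm_add_le _ _).trans ?_
      rw [norm_mul, Complex.norm_I, one_mul, Complex.norm_real, Real.norm_eq_abs,
        abs_of_pos (by positivity)]
      linarith
    calc ‖z - conj ζ‖ ≤ ‖z‖ + ‖conj ζ‖ := norm_sub_le _ _
      _ = ‖z‖ + ‖ζ‖ := by rw [RCLike.norm_conj]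
      _ ≤ r + (1 + η) * r := by linarith
      _ ≤ 2 * (1 + η) * r := by nlinarith
  have hnpos : 0 < ‖z - conj ζ‖ := by
    rw [norm_pos_iff]
    intro h
    have h3 : (z - conj ζ).im = 0 := by rw [h]; simp
    rw [Complex.sub_im, Complex.conj_im] at h3
    linarith
  have hlog1 : 0 < Real.log (3 * ζ.im / (t * r)) := by
    apply Real.log_pos
    rw [lt_div_iff₀ (by positivity)]
    linarith
  have hlog2 : Real.log (3 * ζ.im / (t * r)) ≤ L := by
    apply Real.log_le_log (by positivity)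
    rw [div_le_div_iff₀ (by positivity) ht0]
    have : ζ.im * t ≤ (1 + η) * r * t := mul_le_mul_of_nonneg_right hζ2 ht0.le
    nlinarith
  have hfrac : 2 * z.im * (η * r) / (2 * (1 + η) * r) ^ 2 ≤
      2 * z.im * ζ.im / ‖z - conj ζ‖ ^ 2 := by
    apply div_le_div₀
    · positivity
    · exact mul_le_mul_of_nonneg_left hζ1 (by positivity)
    · positivity
    · exact pow_le_pow_left₀ hnpos.le hnorm 2
  calc t * η / (2 * (1 + η) ^ 2 * L) * z.im
      = t * r * (2 * z.im * (η * r) / (2 * (1 + η) * r) ^ 2) / L := by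
        field_simp
    _ ≤ t * r * (2 * z.im * ζ.im / ‖z - conj ζ‖ ^ 2) / Real.log (3 * ζ.im / (t * r)) := by
        apply div_le_div₀
        · positivity
        · exact mul_le_mul_of_nonneg_left hfrac (by positivity)
        · exact hlog1
        · exact hlog2

/-- the half-plane version, with constant one -/
theorem majorize_upper {ω : ℂ → ℂ} {σ M : ℝ} (hω : Core ω M) (hmono : MonoIm ω) (hσ : 0 < σ)
    (ht : HasType ω σ) {f : ℂ → ℂ} (hf : Differentiable ℂ f) (hft : TypeLE f σ)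
    (hC : ∀ x : ℝ, ‖f x‖ ≤ ‖ω x‖) : ∀ z : ℂ, 0 ≤ z.im → ‖f z‖ ≤ ‖ω z‖ := by
  have hM := hω.M_nonneg
  have hne := expo_nonempty hω hσ hf hft hC
  have hbdd : BddBelow (expo f ω) := ⟨0, fun k hk => hk.1⟩
  set κ := sInf (expo f ω) with hκ
  have hκmem : κ ∈ expo f ω := (expo_closed f ω).csInf_mem hne hbdd
  have hκ0 : 0 ≤ κ := hκmem.1
  rcases hκ0.eq_or_lt with h0 | hκpos
  · intro z hz
    have h1 := hκmem.2 z hz
    rw [← h0, zero_mul, Real.exp_zero, norm_div,
      div_le_one (norm_pos_iff.2 (hω.ne z hz))] at h1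
    exact h1
  exfalso
  -- parameters
  set η := κ / (2 * σ) with hη
  have hηpos : 0 < η := by positivity
  have hση : σ * η = κ / 2 := by rw [hη]; field_simp
  set D := 3 * κ * η / 4 with hD
  have hDpos : 0 < D := by positivity
  obtain ⟨t, ht0, ht1, htσ, htη, htD⟩ : ∃ t : ℝ, 0 < t ∧ t ≤ 1 ∧ t ≤ σ ∧ t < η ∧
      t * (κ + 4 + M + σ + η + η ^ 2) ≤ D / 2 := by
    have hP : 0 < κ + 4 + M + σ + η + η ^ 2 := by positivity
    refine ⟨min (min 1 σ) (min (η / 2) (D / 2 / (κ + 4 + M + σ + η + η ^ 2))), ?_, ?_, ?_, ?_, ?_⟩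
    · exact lt_min (lt_min one_pos hσ) (lt_min (by positivity) (by positivity))
    · exact (min_le_left _ _).trans (min_le_left _ _)
    · exact (min_le_left _ _).trans (min_le_right _ _)
    · exact ((min_le_right _ _).trans (min_le_left _ _)).trans_lt (by linarith)
    · have h1 := (min_le_right (min 1 σ) (min (η / 2) (D / 2 /
        (κ + 4 + M + σ + η + η ^ 2)))).trans (min_le_right _ _)
      rwa [le_div_iff₀ hP] at h1
  set Q := quo f ω κ with hQ
  have hQd : DiffContOnCl ℂ Q {z | 0 < z.im} := quo_diffCont hω hf κ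
  have hQ1 : ∀ z : ℂ, 0 ≤ z.im → ‖Q z‖ ≤ 1 := by
    intro z hz
    rw [hQ, norm_quo, Real.exp_neg, ← div_eq_mul_inv, div_le_one (Real.exp_pos _)]
    exact hκmem.2 z hz
  -- far discs contain points where the quotient is not small
  obtain ⟨R0, hR0⟩ : ∃ R0 : ℝ, ∀ w : ℂ, 0 ≤ w.im → R0 < ‖w‖ →
      ∃ z ∈ closedBall (w + I * (η * ‖w‖ : ℝ)) (t * ‖w‖), Real.exp (-(t * ‖w‖)) < ‖Q z‖ := by
    by_contra hcon
    push Not at hcon
    obtain ⟨c, hc, hcQ⟩ := exists_smaller hQd hQ1 ht0 ht1 htη hcon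
    have hmem : κ - min c κ ∈ expo f ω := by
      refine ⟨sub_nonneg.2 (min_le_right _ _), fun z hz => ?_⟩
      have h1 := hcQ z hz
      rw [hQ, norm_quo, Real.exp_neg (κ * z.im), ← div_eq_mul_inv, div_le_iff₀ (Real.exp_pos _),
        ← Real.exp_add] at h1
      refine h1.trans (Real.exp_le_exp.2 ?_)
      have h2 : min c κ * z.im ≤ c * z.im := mul_le_mul_of_nonneg_right (min_le_left _ _) hz
      linarith
    have h3 := csInf_le hbdd hmem
    rw [← hκ] at h3
    have h4 : 0 < min c κ := lt_min hc hκpos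
    linarith
  obtain ⟨Ct, hCt⟩ := hft t ht0
  obtain ⟨w, hw, hwR, hwω⟩ := exists_large hω ht ht0 htσ (max (max R0 (2 * |Ct| / D)) 1)
  set r := ‖w‖ with hr
  have hrR0 : R0 < r := ((le_max_left _ _).trans (le_max_left _ _)).trans_lt hwR
  have hrC : 2 * |Ct| / D < r := ((le_max_right _ _).trans (le_max_left _ _)).trans_lt hwR
  have hr1 : 1 < r := (le_max_right _ _).trans_lt hwR
  have hr0 : 0 < r := by linarith
  obtain ⟨z, hz, hQz⟩ := hR0 w hw hrR0
  rw [← hr] at hz hQz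
  set ζ : ℂ := w + I * (η * r : ℝ) with hζ
  have hζim : ζ.im = w.im + η * r := by rw [hζ]; simp [Complex.mul_im]
  have hζre : ζ.re = w.re := by rw [hζ]; simp [Complex.mul_re]
  have hwim : w.im ≤ r := (le_abs_self _).trans (Complex.abs_im_le_norm w)
  rw [mem_closedBall, dist_eq_norm] at hz
  have hzim : w.im + (η - t) * r ≤ z.im := by
    have h1 : |(z - ζ).im| ≤ ‖z - ζ‖ := Complex.abs_im_le_norm _
    have h2 := (abs_le.1 (h1.trans hz)).1
    rw [Complex.sub_im, hζim] at h2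
    nlinarith
  have hzim0 : 0 ≤ z.im := by
    have : 0 ≤ (η - t) * r := mul_nonneg (by linarith) hr0.le
    linarith
  have hζim0 : 0 ≤ ζ.im := by rw [hζim]; positivity
  -- lower bound for ω z
  have hω1 : ‖ω ζ‖ ≤ Real.exp (M * (t * r)) * ‖ω z‖ := by
    have h1 := lip_exp hω.entire hω.bd (z := z) (w := ζ) hzim0 hζim0
    refine h1.trans (mul_le_mul_of_nonneg_right (Real.exp_le_exp.2
      (mul_le_mul_of_nonneg_left ?_ hM)) (norm_nonneg _))
    rw [norm_sub_rev]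
    exact hz
  have hω2 : ‖ω w‖ ≤ ‖ω ζ‖ := by
    have h1 := hmono w.re w.im (w.im + η * r) hw (by linarith [mul_pos hηpos hr0])
    have h2 : (⟨w.re, w.im + η * r⟩ : ℂ) = ζ := by
      apply Complex.ext
      · exact hζre.symm
      · exact hζim.symm
    rw [h2] at h1
    exact h1
  have hωz : Real.exp ((σ - t) * r - M * (t * r)) ≤ ‖ω z‖ := by
    rw [Real.exp_sub, div_le_iff₀ (Real.exp_pos _)]
    calc _ ≤ _ := hwω
      _ ≤ _ := hω2
      _ ≤ _ := hω1
      _ = _ := mul_comm _ _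
  -- lower bound for f z
  have hfz : ‖f z‖ = ‖Q z‖ * Real.exp (κ * z.im) * ‖ω z‖ := by
    rw [hQ, norm_quo, norm_div, Real.exp_neg]
    have h1 : ‖ω z‖ ≠ 0 := (norm_pos_iff.2 (hω.ne z hzim0)).ne'
    have h2 : Real.exp (κ * z.im) ≠ 0 := (Real.exp_pos _).ne'
    field_simp
  have hlow : Real.exp (-(t * r) + κ * (w.im + (η - t) * r) + ((σ - t) * r - M * (t * r))) ≤
      ‖f z‖ := by
    rw [hfz, Real.exp_add, Real.exp_add]
    have h1 : Real.exp (κ * (w.im + (η - t) * r)) ≤ Real.exp (κ * z.im) :=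
      Real.exp_le_exp.2 (mul_le_mul_of_nonneg_left hzim hκ0)
    have h2 : Real.exp (-(t * r)) * Real.exp (κ * (w.im + (η - t) * r)) ≤
        ‖Q z‖ * Real.exp (κ * z.im) :=
      mul_le_mul hQz.le h1 (Real.exp_pos _).le (norm_nonneg _)
    exact mul_le_mul h2 hωz (Real.exp_pos _).le
      (mul_nonneg (norm_nonneg _) (Real.exp_pos _).le)
  -- upper bound for f z
  have hζn : ‖ζ‖ ≤ r + η * w.im + η ^ 2 * r / 2 := by
    have h1 : ‖ζ‖ ^ 2 = r ^ 2 + 2 * η * r * w.im + η ^ 2 * r ^ 2 := by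
      have h0 : r ^ 2 = w.re * w.re + w.im * w.im := by
        rw [hr, ← Complex.normSq_eq_norm_sq, Complex.normSq_apply]
      rw [← Complex.normSq_eq_norm_sq, Complex.normSq_apply, hζre, hζim]
      linear_combination -h0
    apply le_of_sq_le_sq _ (by positivity)
    rw [h1]
    nlinarith [sq_nonneg (η * w.im + η ^ 2 * r / 2)]
  have hzn : ‖z‖ ≤ r + η * w.im + η ^ 2 * r / 2 + t * r := by
    have h1 : ‖z‖ ≤ ‖z - ζ‖ + ‖ζ‖ := by
      have := norm_add_le (z - ζ) ζ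
      rwa [sub_add_cancel] at this
    linarith
  have hup := hCt z
  have hchain : Real.exp (-(t * r) + κ * (w.im + (η - t) * r) + ((σ - t) * r - M * (t * r))) ≤
      |Ct| * Real.exp ((σ + t) * (r + η * w.im + η ^ 2 * r / 2 + t * r)) := by
    refine hlow.trans (hup.trans ?_)
    have h1 : Real.exp ((σ + t) * ‖z‖) ≤
        Real.exp ((σ + t) * (r + η * w.im + η ^ 2 * r / 2 + t * r)) :=
      Real.exp_le_exp.2 (mul_le_mul_of_nonneg_left hzn (by linarith))
    exact mul_le_mul (le_abs_self _) h1 (Real.exp_pos _).le (abs_nonneg _)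
  have hexp : r * (D / 2) + (σ + t) * (r + η * w.im + η ^ 2 * r / 2 + t * r) ≤
      -(t * r) + κ * (w.im + (η - t) * r) + ((σ - t) * r - M * (t * r)) := by
    have e1 : σ * (η * w.im) = κ / 2 * w.im := by rw [← mul_assoc, hση]
    have e2 : σ * (η ^ 2 * r / 2) = κ * η / 4 * r := by
      have : σ * (η ^ 2 * r / 2) = (σ * η) * η * r / 2 := by ring
      rw [this, hση]; ring
    have e3 : t * (η * w.im) ≤ t * (η * r) :=
      mul_le_mul_of_nonneg_left (mul_le_mul_of_nonneg_left hwim hηpos.le) ht0.le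
    have e4 : t * (t * r) ≤ t * (1 * r) :=
      mul_le_mul_of_nonneg_left (mul_le_mul_of_nonneg_right ht1 hr0.le) ht0.le
    have e5 : 0 ≤ κ / 2 * w.im := by positivity
    have e6 : r * (t * (κ + 4 + M + σ + η + η ^ 2)) ≤ r * (D / 2) :=
      mul_le_mul_of_nonneg_left htD hr0.le
    have e7 : 0 ≤ t * η ^ 2 * r / 2 := by positivity
    have e8 : D * r = 3 * κ * η / 4 * r := by rw [hD]
    linarith
  have hfin : Real.exp (r * (D / 2)) ≤ |Ct| := by
    have h1 := (Real.exp_le_exp.2 hexp).trans hchain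
    rw [Real.exp_add] at h1
    exact le_of_mul_le_mul_right h1 (Real.exp_pos _)
  have h2 : r * (D / 2) + 1 ≤ |Ct| := (Real.add_one_le_exp _).trans hfin
  rw [div_lt_iff₀ hDpos] at hrC
  linarith

theorem TypeLE.shp {f : ℂ → ℂ} {σ : ℝ} (h : TypeLE f σ) : TypeLE (shp f) σ := by
  intro ε hε
  obtain ⟨C, hC⟩ := h ε hε
  refine ⟨C, fun z => ?_⟩
  have := hC (conj z)
  rw [RCLike.norm_conj] at this
  unfold MP_6d8919_an.shp
  rw [RCLike.norm_conj]
  exact this

theorem differentiable_shp_maj {f : ℂ → ℂ} (h : Differentiable ℂ f) : Differentiable ℂ (shp f) := by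
  intro z
  have h1 := (h (conj z)).conj_conj
  rw [Complex.conj_conj] at h1
  exact h1

/-- **Majorisation.** -/
theorem majorize {ω : ℂ → ℂ} {σ M : ℝ} (hω : Core ω M) (hmono : MonoIm ω) (hσ : 0 < σ)
    (ht : HasType ω σ) {f : ℂ → ℂ} (hf : Differentiable ℂ f) (hft : TypeLE f σ) {C : ℝ}
    (hC : ∀ x : ℝ, ‖f x‖ ≤ C * ‖ω x‖) : ∀ z : ℂ, ‖f z‖ ≤ C * wt ω z := by
  have hC0 : 0 ≤ C := by
    have h1 := hC 0
    have h2 : 0 < ‖ω ((0 : ℝ) : ℂ)‖ := norm_pos_iff.2 (hω.ne _ (by simp))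
    by_contra h
    push Not at h
    have := mul_neg_of_neg_of_pos h h2
    linarith [norm_nonneg (f ((0 : ℝ) : ℂ))]
  have key : ∀ g : ℂ → ℂ, Differentiable ℂ g → TypeLE g σ → (∀ x : ℝ, ‖g x‖ ≤ C * ‖ω x‖) →
      ∀ z : ℂ, 0 ≤ z.im → ‖g z‖ ≤ C * ‖ω z‖ := by
    intro g hg hgt hgC z hz
    refine le_of_forall_pos_le_add fun e he => ?_
    have hωz : 0 < ‖ω z‖ := norm_pos_iff.2 (hω.ne z hz)
    set d := e / ‖ω z‖ with hd
    have hdpos : 0 < d := by positivity
    have hCd : 0 < C + d := by linarith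
    have hCd' : ((C + d : ℝ) : ℂ) ≠ 0 := by exact_mod_cast hCd.ne'
    have h1 := majorize_upper hω hmono hσ ht (f := fun z => g z / ((C + d : ℝ) : ℂ))
      (hg.div_const _) ?_ ?_ z hz
    · rw [norm_div, Complex.norm_real, Real.norm_eq_abs, abs_of_pos hCd, div_le_iff₀ hCd] at h1
      have h2 : ‖ω z‖ * (C + d) = C * ‖ω z‖ + e := by
        rw [hd]; field_simp
      rwa [h2] at h1
    · intro ε hε
      obtain ⟨A, hA⟩ := hgt ε hε
      refine ⟨A / (C + d), fun z => ?_⟩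
      rw [norm_div, Complex.norm_real, Real.norm_eq_abs, abs_of_pos hCd, div_mul_eq_mul_div]
      exact div_le_div_of_nonneg_right (hA z) hCd.le
    · intro x
      rw [norm_div, Complex.norm_real, Real.norm_eq_abs, abs_of_pos hCd, div_le_iff₀ hCd]
      refine (hgC x).trans ?_
      rw [mul_comm]
      exact mul_le_mul_of_nonneg_left (by linarith) (norm_nonneg _)
  intro z
  rcases le_total 0 z.im with h | h
  · rw [wt_of_nonneg ω h]
    exact key f hf hft hC z h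
  · rw [wt_of_nonpos ω h]
    have h1 := key (shp f) (differentiable_shp_maj hf) hft.shp (fun x => ?_) (conj z)
      (by simpa using h)
    · unfold shp at h1
      rw [RCLike.norm_conj, Complex.conj_conj] at h1
      exact h1
    · unfold shp
      rw [RCLike.norm_conj, Complex.conj_ofReal]
      exact hC x

end Pool.Agent.Work.MP_6d8919_an
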