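import Pool.Agent.Work.MP_6d8919_an.Basic

/-!
# MP_6d8919_an: symmetry and monotonicity in the imaginary direction
-/

open Complex Set Filter Topology Metric MeasureTheory
open scoped Real ComplexConjugate

namespace Pool.Agent.Work.MP_6d8919_an

theorem differentiable_shp_sym {w : ℂ → ℂ} (hw : Differentiable ℂ w) :
    Differentiable ℂ (shp w) := by
  intro z
  exact differentiableAt_conj_conj_iff.2 (hw _)

/-- Exponential growth with nonnegative constants. -/
theorem ExpGrowth.nonneg_consts {g : ℂ → ℂ} (hg : ExpGrowth g) :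
    ∃ A B : ℝ, 0 ≤ A ∧ 0 ≤ B ∧ ∀ z : ℂ, ‖g z‖ ≤ B * Real.exp (A * ‖z‖) := by
  obtain ⟨A, B, h⟩ := hg
  have hB : 0 ≤ B := by
    have := (norm_nonneg _).trans (h 0)
    simpa using this
  refine ⟨|A|, B, abs_nonneg _, hB, fun z => (h z).trans ?_⟩
  refine mul_le_mul_of_nonneg_left (Real.exp_le_exp.2 ?_) hB
  exact mul_le_mul_of_nonneg_right (le_abs_self _) (norm_nonneg _)

/-- Quotients `G z / ω (τ z)` grow at most exponentially. -/
theorem growth_quot {ω G τ : ℂ → ℂ} {M A B s : ℝ} (hM : 0 ≤ M) (hA : 0 ≤ A) (hB : 0 ≤ B)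
    (hd : Differentiable ℂ ω) (h0 : ω 0 ≠ 0)
    (hb : ∀ z : ℂ, 0 ≤ z.im → ‖deriv ω z‖ ≤ M * ‖ω z‖)
    (hG : ∀ z : ℂ, ‖G z‖ ≤ B * Real.exp (A * (‖z‖ + s)))
    (hτ : ∀ z : ℂ, 0 < z.im → 0 ≤ (τ z).im) (hτn : ∀ z : ℂ, ‖τ z‖ ≤ ‖z‖ + s)
    (z : ℂ) (hz : 0 < z.im) :
    ‖G z‖ / ‖ω (τ z)‖ ≤ (B * Real.exp (A * s) * Real.exp (M * s) / ‖ω 0‖) *
      Real.exp ((A + M) * ‖z‖) := by
  have hω0 : 0 < ‖ω 0‖ := norm_pos_iff.2 h0
  have h1 := Core.lower hd hb (hτ z hz)
  have hpos : 0 < ‖ω (τ z)‖ := by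
    by_contra hcon
    have : ‖ω (τ z)‖ = 0 := le_antisymm (not_lt.1 hcon) (norm_nonneg _)
    rw [this, mul_zero] at h1
    linarith
  have h2 : ‖ω 0‖ ≤ Real.exp (M * (‖z‖ + s)) * ‖ω (τ z)‖ := by
    refine h1.trans (mul_le_mul_of_nonneg_right (Real.exp_le_exp.2 ?_) (norm_nonneg _))
    exact mul_le_mul_of_nonneg_left (hτn z) hM
  rw [div_le_iff₀ hpos]
  have h3 : ‖G z‖ * ‖ω 0‖ ≤
      (B * Real.exp (A * (‖z‖ + s))) * (Real.exp (M * (‖z‖ + s)) * ‖ω (τ z)‖) :=
    mul_le_mul (hG z) h2 hω0.le (by positivity)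
  have h4 : ‖G z‖ ≤ (B * Real.exp (A * (‖z‖ + s))) *
      (Real.exp (M * (‖z‖ + s)) * ‖ω (τ z)‖) / ‖ω 0‖ := by
    rw [le_div_iff₀ hω0]; exact h3
  refine h4.trans (le_of_eq ?_)
  have e1 : Real.exp (A * (‖z‖ + s)) * Real.exp (M * (‖z‖ + s)) =
      Real.exp (A * s) * Real.exp (M * s) * Real.exp ((A + M) * ‖z‖) := by
    rw [← Real.exp_add, ← Real.exp_add, ← Real.exp_add]; congr 1; ring
  calc (B * Real.exp (A * (‖z‖ + s))) * (Real.exp (M * (‖z‖ + s)) * ‖ω (τ z)‖) / ‖ω 0‖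
      = B * (Real.exp (A * (‖z‖ + s)) * Real.exp (M * (‖z‖ + s))) * ‖ω (τ z)‖ / ‖ω 0‖ := by ring
    _ = B * (Real.exp (A * s) * Real.exp (M * s) * Real.exp ((A + M) * ‖z‖)) *
          ‖ω (τ z)‖ / ‖ω 0‖ := by rw [e1]
    _ = _ := by ring

theorem conj_le_of_neg_le {ω : ℂ → ℂ} {M : ℝ} (hd : Differentiable ℂ ω)
    (hne : ∀ z : ℂ, 0 ≤ z.im → ω z ≠ 0) (hb : ∀ z : ℂ, 0 ≤ z.im → ‖deriv ω z‖ ≤ M * ‖ω z‖)
    (hg : ExpGrowth ω) (h : ∀ z : ℂ, 0 < z.im → ‖ω (-z)‖ ≤ ‖ω z‖) :
    ∀ z : ℂ, 0 ≤ z.im → ‖ω (conj z)‖ ≤ ‖ω z‖ := by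
  have hM : 0 ≤ M := by
    have h1 := hb 0 (by simp)
    have h2 : 0 < ‖ω 0‖ := norm_pos_iff.2 (hne 0 (by simp))
    by_contra hcon
    push Not at hcon
    have : M * ‖ω 0‖ < 0 := mul_neg_of_neg_of_pos hcon h2
    linarith [norm_nonneg (deriv ω 0)]
  have hcl : ∀ z : ℂ, 0 ≤ z.im → ‖ω (-z)‖ ≤ ‖ω z‖ := by
    intro z hz
    have hc : IsClosed {z : ℂ | ‖ω (-z)‖ ≤ ‖ω z‖} :=
      isClosed_le ((hd.continuous.comp continuous_neg).norm) hd.continuous.norm
    have hsub : closure {z : ℂ | 0 < z.im} ⊆ {z : ℂ | ‖ω (-z)‖ ≤ ‖ω z‖} :=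
      closure_minimal (fun w hw => h w hw) hc
    refine hsub ?_
    rw [Complex.closure_setOfPred_lt_im]
    exact hz
  have hreal : ∀ x : ℝ, ‖ω (-(x : ℂ))‖ = ‖ω x‖ := by
    intro x
    refine le_antisymm (hcl x (by simp)) ?_
    have := hcl (-(x : ℂ)) (by simp)
    simpa using this
  obtain ⟨A, B, hA, hB, hgr⟩ := hg.nonneg_consts
  set st : ℂ → ℂ := shp (fun z => ω (-z)) with hst
  have hstn : ∀ z, ‖st z‖ = ‖ω (-conj z)‖ := by
    intro z
    simp only [hst, shp]
    exact Complex.norm_conj _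
  have hstd : Differentiable ℂ st := differentiable_shp_sym (hd.comp differentiable_neg)
  have hstne : ∀ z : ℂ, 0 ≤ z.im → st z ≠ 0 := by
    intro z hz
    rw [← norm_ne_zero_iff, hstn, norm_ne_zero_iff]
    exact hne _ (by simpa using hz)
  have key : ∀ z : ℂ, 0 ≤ z.im → ‖ω z / st z‖ ≤ 1 := by
    refine pl_upper (Q := fun z => ω z / st z) (A := A + M)
      (B := B * Real.exp (A * 0) * Real.exp (M * 0) / ‖ω 0‖) (B' := 1) ?_ ?_ ?_ ?_
    · refine diffContOnCl_upper ?_ ?_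
      · intro z hz
        exact ((hd z).div (hstd z) (hstne z (le_of_lt hz))).differentiableWithinAt
      · intro z hz
        exact ((hd z).div (hstd z) (hstne z hz)).continuousAt.continuousWithinAt
    · intro z hz
      rw [norm_div, hstn]
      refine growth_quot (G := ω) (τ := fun z => -conj z) hM hA hB hd (hne 0 (by simp)) hb
        (fun z => ?_) (fun z hz => ?_) (fun z => ?_) z hz
      · rw [add_zero]; exact hgr z
      · simpa using hz.le
      · rw [norm_neg, Complex.norm_conj, add_zero]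
    · intro x
      rw [norm_div, hstn, Complex.conj_ofReal, hreal]
      exact div_self_le_one _
    · intro y _
      rw [norm_div, hstn]
      have : -conj ((y : ℂ) * I) = y * I := by simp
      rw [this]
      exact div_self_le_one _
  have key2 : ∀ z : ℂ, 0 ≤ z.im → ‖ω z‖ ≤ ‖ω (-conj z)‖ := by
    intro z hz
    have h1 := key z hz
    rw [norm_div, div_le_one (norm_pos_iff.2 (hstne z hz)), hstn] at h1
    exact h1
  intro z hz
  have h1 := hcl (-conj z) (by simpa using hz)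
  rw [neg_neg] at h1
  have h2 := key2 (-conj z) (by simpa using hz)
  have h3 : -conj (-conj z) = z := by simp
  rw [h3] at h2
  exact h1.trans h2

theorem monoIm_of_core {ω : ℂ → ℂ} {M : ℝ} (hω : Core ω M) (hg : ExpGrowth ω) : MonoIm ω := by
  have hM := hω.M_nonneg
  obtain ⟨A, B, hA, hB, hgr⟩ := hg.nonneg_consts
  have main : ∀ s : ℝ, 0 ≤ s → ∀ z : ℂ, 0 ≤ z.im →
      ‖ω (conj z + s * I)‖ ≤ ‖ω (z + s * I)‖ := by
    intro s hs
    set G : ℂ → ℂ := shp (fun z => ω (z - s * I)) with hG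
    have hGn : ∀ z, ‖G z‖ = ‖ω (conj z - s * I)‖ := by
      intro z
      simp only [hG, shp]
      exact Complex.norm_conj _
    set H : ℂ → ℂ := shp (fun z => ω (z + s * I)) with hH
    have hHn : ∀ z, ‖H z‖ = ‖ω (conj z + s * I)‖ := by
      intro z
      simp only [hH, shp]
      exact Complex.norm_conj _
    have hHd : Differentiable ℂ H :=
      differentiable_shp_sym (hω.entire.comp (differentiable_id.add_const _))
    have hDd : Differentiable ℂ (fun z => ω (z + s * I)) :=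
      hω.entire.comp (differentiable_id.add_const _)
    have hDne : ∀ z : ℂ, 0 ≤ z.im → ω (z + s * I) ≠ 0 := by
      intro z hz
      refine hω.ne _ ?_
      simp
      linarith
    have key : ∀ z : ℂ, 0 ≤ z.im → ‖H z / ω (z + s * I)‖ ≤ 1 := by
      refine pl_upper (Q := fun z => H z / ω (z + s * I)) (A := A + M)
        (B := B * Real.exp (A * s) * Real.exp (M * s) / ‖ω 0‖) (B' := Real.exp (M * (2 * s)))
        ?_ ?_ ?_ ?_
      · refine diffContOnCl_upper ?_ ?_
        · intro z hz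
          exact ((hHd z).div (hDd z) (hDne z (le_of_lt hz))).differentiableWithinAt
        · intro z hz
          exact ((hHd z).div (hDd z) (hDne z hz)).continuousAt.continuousWithinAt
      · intro z hz
        rw [norm_div]
        have hsn : ‖(s : ℂ) * I‖ = s := by
          rw [norm_mul, Complex.norm_I, mul_one, Complex.norm_real, Real.norm_of_nonneg hs]
        refine growth_quot (G := H) (τ := fun z => z + s * I) hM hA hB hω.entire
          (hω.ne 0 (by simp)) hω.bd (fun z => ?_) (fun z hz => ?_) (fun z => ?_) z hz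
        · rw [hHn]
          refine (hgr _).trans (mul_le_mul_of_nonneg_left (Real.exp_le_exp.2 ?_) hB)
          refine mul_le_mul_of_nonneg_left ?_ hA
          refine (norm_add_le _ _).trans ?_
          rw [Complex.norm_conj, hsn]
        · simp
          linarith
        · refine (norm_add_le _ _).trans ?_
          rw [hsn]
      · intro x
        rw [norm_div, hHn, Complex.conj_ofReal]
        exact div_self_le_one _
      · intro y hy
        rw [norm_div, hHn]
        have hpos : 0 < ‖ω (y * I + s * I)‖ := norm_pos_iff.2 (hDne _ (by simpa using hy.le))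
        rw [div_le_iff₀ hpos]
        have h1 : ‖ω (conj ((y : ℂ) * I) + s * I)‖ ≤ wt ω (conj ((y : ℂ) * I) + s * I) :=
          hω.norm_le_wt _
        have h2 : wt ω (conj ((y : ℂ) * I) + s * I) =
            wt ω ((y * I + s * I) + (-((2 * s : ℝ) : ℂ) * I)) := by
          rw [← wt_conj]
          congr 1
          simp
          ring
        have h3 := wt_add hω ((y : ℂ) * I + s * I) (-((2 * s : ℝ) : ℂ) * I)
        have h4 : ‖-((2 * s : ℝ) : ℂ) * I‖ = 2 * s := by
          rw [norm_mul, Complex.norm_I, mul_one, norm_neg, Complex.norm_real,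
            Real.norm_of_nonneg (by linarith)]
        rw [h4, wt_of_nonneg ω (z := (y : ℂ) * I + s * I) (by simp; linarith)] at h3
        rw [h2] at h1
        exact h1.trans h3
    intro z hz
    have h1 := key z hz
    rw [norm_div, div_le_one (norm_pos_iff.2 (hDne z hz)), hHn] at h1
    exact h1
  intro x a b ha hab
  have h1 := main ((a + b) / 2) (by linarith) ⟨x, (b - a) / 2⟩ (by simp; linarith)
  have e1 : conj (⟨x, (b - a) / 2⟩ : ℂ) + (((a + b) / 2 : ℝ) : ℂ) * I = ⟨x, a⟩ := by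
    apply Complex.ext
    · simp
    · simp
      ring
  have e2 : (⟨x, (b - a) / 2⟩ : ℂ) + (((a + b) / 2 : ℝ) : ℂ) * I = ⟨x, b⟩ := by
    apply Complex.ext
    · simp
    · simp
      ring
  rw [e1, e2] at h1
  exact h1

end Pool.Agent.Work.MP_6d8919_an
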