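import Pool.Agent.Work.MP_6d8919_an.Spec
import Pool.Agent.Work.MP_6d8919_an.Sym
import Pool.Agent.Work.MP_6d8919_an.Major
import Pool.Agent.Work.MP_6d8919_an.CoreBound

/-!
# MP_6d8919_an: the spectrum of differentiation on `E_ω`, final form
-/

open Complex Set Filter Topology Metric
open scoped ComplexConjugate

namespace Pool.Agent.Work.MP_6d8919_an

theorem expGrowth_of_typeLE {ω : ℂ → ℂ} {σ : ℝ} (h : TypeLE ω σ) : ExpGrowth ω := by
  obtain ⟨B, hB⟩ := h 1 one_pos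
  exact ⟨σ + 1, B, hB⟩

theorem maj_of_core {ω : ℂ → ℂ} {σ M : ℝ} (hσ : 0 < σ) (hω : Core ω M) (ht : HasType ω σ) :
    Maj ω σ := by
  intro f z
  exact majorize hω (monoIm_of_core hω (expGrowth_of_typeLE ht.1)) hσ ht f.differentiable f.2.2.1
    f.le_norm z

/-- The setting of the problem, for `ω` without zeros in the open upper half-plane: `ω` is an
entire function of exponential type `σ > 0`, without zeros in the open upper half-plane, with
`|ω(-z)| ≤ |ω(z)|` there (or `|ω(z̄)| ≤ |ω(z)|` there), and `ω' ∈ E_ω`. -/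
structure Setting (ω : ℂ → ℂ) (σ : ℝ) : Prop where
  pos : 0 < σ
  entire : Differentiable ℂ ω
  type : HasType ω σ
  ne : ∀ z : ℂ, 0 < z.im → ω z ≠ 0
  sym : (∀ z : ℂ, 0 < z.im → ‖ω (-z)‖ ≤ ‖ω z‖) ∨ (∀ z : ℂ, 0 < z.im → ‖ω (conj z)‖ ≤ ‖ω z‖)
  deriv_mem : deriv ω ∈ Esub ω σ

theorem Setting.core {ω : ℂ → ℂ} {σ : ℝ} (h : Setting ω σ) : ∃ M : ℝ, Core ω M := by
  obtain ⟨-, -, M, hM⟩ := h.deriv_mem
  obtain ⟨h1, h2⟩ := core_bound h.entire h.type.1 h.ne hM
  refine ⟨M, h.entire, h1, h2, ?_⟩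
  rcases h.sym with h3 | h3
  · exact conj_le_of_neg_le h.entire h1 h2 (expGrowth_of_typeLE h.type.1) h3
  · intro z hz
    rcases hz.eq_or_lt with h4 | h4
    · have : conj z = z := by
        apply Complex.ext <;> simp [← h4]
      rw [this]
    · exact h3 z h4

theorem spectrum_final {ω : ℂ → ℂ} {σ : ℝ} (h : Setting ω σ) :
    CompleteSpace (Space ω σ) ∧
    ∃ D : Space ω σ →L[ℂ] Space ω σ, (∀ f : Space ω σ, (D f).fn = deriv f.fn) ∧
      spectrum ℂ D = Hull ω ∧ spectrum ℂ D = Adm ω := by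
  obtain ⟨M, hM⟩ := h.core
  have hm := maj_of_core h.pos hM h.type
  exact ⟨complete_of_maj hM h.type.1 hm, diffOp hM h.type.1 hm, fun f => rfl,
    (spectrum_diffOp hM h.type.1 hm).1, (spectrum_diffOp hM h.type.1 hm).2⟩

end Pool.Agent.Work.MP_6d8919_an
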