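import Mathlib

/-!
# MP_6d8919_an: boundary points of the spectrum are approximate eigenvalues
-/

open Complex Set Filter Topology Metric

namespace Pool.Agent.Work.MP_6d8919_an

theorem frontier_approx {X : Type*} [NormedAddCommGroup X] [NormedSpace ℂ X] [CompleteSpace X]
    (T : X →L[ℂ] X) {l : ℂ} (hl : l ∈ frontier (spectrum ℂ T)) {ε : ℝ} (hε : 0 < ε) :
    ∃ f : X, ‖f‖ = 1 ∧ ‖T f - l • f‖ < ε := by
  have hmem : l ∈ spectrum ℂ T := by
    have := frontier_subset_closure hl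
    rwa [(spectrum.isClosed (𝕜 := ℂ) T).closure_eq] at this
  have hcl : l ∈ closure (spectrum ℂ T)ᶜ := by
    rw [← frontier_compl] at hl
    exact frontier_subset_closure hl
  obtain ⟨l', hl', hd⟩ := Metric.mem_closure_iff.1 hcl (ε / 3) (by positivity)
  have hu : IsUnit (algebraMap ℂ (X →L[ℂ] X) l' - T) := by
    simpa [spectrum.notMem_iff] using hl'
  obtain ⟨u, hu⟩ := hu
  set R : X →L[ℂ] X := ((u⁻¹ : (X →L[ℂ] X)ˣ) : X →L[ℂ] X) with hR
  have hdist : dist l l' = ‖l - l'‖ := dist_eq_norm _ _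
  have hinv : ‖R‖⁻¹ ≤ ‖l - l'‖ := by
    by_contra hcon
    push Not at hcon
    apply hmem
    have h1 : ‖(algebraMap ℂ (X →L[ℂ] X) l - T) - u‖ < ‖R‖⁻¹ := by
      rw [hu]
      have : (algebraMap ℂ (X →L[ℂ] X) l - T) - (algebraMap ℂ (X →L[ℂ] X) l' - T)
          = algebraMap ℂ (X →L[ℂ] X) (l - l') := by
        rw [map_sub]; abel
      rw [this]
      refine lt_of_le_of_lt ?_ hcon
      rw [Algebra.algebraMap_eq_smul_one, norm_smul]
      have : ‖(1 : X →L[ℂ] X)‖ ≤ 1 := ContinuousLinearMap.norm_id_le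
      calc ‖l - l'‖ * ‖(1 : X →L[ℂ] X)‖ ≤ ‖l - l'‖ * 1 :=
            mul_le_mul_of_nonneg_left this (norm_nonneg _)
        _ = ‖l - l'‖ := mul_one _
    have h2 := (Units.ofNearby u (algebraMap ℂ (X →L[ℂ] X) l - T) h1).isUnit
    rwa [Units.val_ofNearby] at h2
  have hRu : ∀ g : X, (algebraMap ℂ (X →L[ℂ] X) l' - T) (R g) = g := by
    intro g
    rw [← hu, hR]
    have : ((u : X →L[ℂ] X) * ((u⁻¹ : (X →L[ℂ] X)ˣ) : X →L[ℂ] X)) g = g := by
      rw [Units.mul_inv]; rfl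
    exact this
  have hRpos : 0 < ‖R‖ := by
    rw [norm_pos_iff]
    intro h0
    have hsub : ∀ g : X, g = 0 := by
      intro g
      have := hRu g
      rw [h0] at this
      simpa using this.symm
    apply hmem
    refine ⟨1, ?_⟩
    ext x
    rw [hsub x]; simp
  obtain ⟨g, hg⟩ : ∃ g : X, 1 / 2 * ‖R‖ * ‖g‖ < ‖R g‖ := by
    by_contra hcon
    push Not at hcon
    have := ContinuousLinearMap.opNorm_le_bound R (by positivity) hcon
    linarith
  have hRg : 0 < ‖R g‖ := lt_of_le_of_lt (by positivity) hg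
  refine ⟨((‖R g‖⁻¹ : ℝ) : ℂ) • R g, ?_, ?_⟩
  · rw [norm_smul, Complex.norm_real, Real.norm_eq_abs, abs_of_pos (inv_pos.2 hRg),
      inv_mul_cancel₀ hRg.ne']
  · rw [map_smul, smul_comm l, ← smul_sub, norm_smul, Complex.norm_real, Real.norm_eq_abs,
      abs_of_pos (inv_pos.2 hRg)]
    have h3 : T (R g) - l • R g = (l' - l) • R g - g := by
      have h4 := hRu g
      have h5 : (algebraMap ℂ (X →L[ℂ] X) l' - T) (R g) = l' • R g - T (R g) := by
        rw [Algebra.algebraMap_eq_smul_one]; rfl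
      rw [h5] at h4
      have h6 : T (R g) = l' • R g - g := by
        have := congrArg (fun v => l' • R g - v) h4
        simpa using this
      rw [h6, sub_smul]; abel
    rw [h3]
    have h7 : ‖(l' - l) • R g - g‖ ≤ ‖l - l'‖ * ‖R g‖ + ‖g‖ := by
      refine (norm_sub_le _ _).trans ?_
      rw [norm_smul, norm_sub_rev]
    have h8 : ‖g‖ ≤ 2 * ‖l - l'‖ * ‖R g‖ := by
      have h9 : ‖g‖ < 2 * ‖R‖⁻¹ * ‖R g‖ := by
        have : ‖g‖ = 2 * ‖R‖⁻¹ * (1 / 2 * ‖R‖ * ‖g‖) := by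
          field_simp
        rw [this]
        exact mul_lt_mul_of_pos_left hg (by positivity)
      have h10 : 2 * ‖R‖⁻¹ * ‖R g‖ ≤ 2 * ‖l - l'‖ * ‖R g‖ := by gcongr
      linarith
    have h11 : ‖(l' - l) • R g - g‖ ≤ 3 * ‖l - l'‖ * ‖R g‖ := by linarith
    calc ‖R g‖⁻¹ * ‖(l' - l) • R g - g‖ ≤ ‖R g‖⁻¹ * (3 * ‖l - l'‖ * ‖R g‖) := by gcongr
      _ = 3 * ‖l - l'‖ := by field_simp
      _ < ε := by rw [hdist] at hd; linarith

end Pool.Agent.Work.MP_6d8919_an
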