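import Pool.Agent.Work.MP_6d8919_an.Basic
import Pool.Agent.Work.MP_6d8919_an.SchwarzLog

/-!
Item B: a zero-free function of exponential type in the upper half-plane has a logarithmic
derivative bounded by `K (1 + |z|)^a / (Im z)^b`.
-/

open Complex Set Filter Topology Metric MeasureTheory
open scoped Real ComplexConjugate

namespace Pool.Agent.Work.MP_6d8919_an

theorem logDeriv_poly {g : ℂ → ℂ} {A B : ℝ} (hg : DifferentiableOn ℂ g {z | 0 < z.im})
    (hne : ∀ z : ℂ, 0 < z.im → g z ≠ 0)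
    (hb : ∀ z : ℂ, 0 < z.im → ‖g z‖ ≤ B * Real.exp (A * ‖z‖)) :
    ∃ (a b : ℕ) (K : ℝ), ∀ z : ℂ, 0 < z.im →
      ‖deriv g z / g z‖ ≤ K * (1 + ‖z‖) ^ a / z.im ^ b := by
  set A' : ℝ := max A 0 with hA'
  set B' : ℝ := max B 1 with hB'
  have hA0 : 0 ≤ A' := le_max_right _ _
  have hB1 : 1 ≤ B' := le_max_right _ _
  have hb' : ∀ (R : ℝ) (z : ℂ), 0 < z.im → ‖z‖ ≤ R → ‖g z‖ ≤ B' * Real.exp (A' * R) := by
    intro R z hz hR
    refine (hb z hz).trans ?_
    have h1 : Real.exp (A * ‖z‖) ≤ Real.exp (A' * R) := by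
      apply Real.exp_le_exp.2
      calc A * ‖z‖ ≤ A' * ‖z‖ := mul_le_mul_of_nonneg_right (le_max_left _ _) (norm_nonneg _)
        _ ≤ A' * R := mul_le_mul_of_nonneg_left hR hA0
    calc B * Real.exp (A * ‖z‖) ≤ B' * Real.exp (A * ‖z‖) :=
          mul_le_mul_of_nonneg_right (le_max_left _ _) (Real.exp_pos _).le
      _ ≤ B' * Real.exp (A' * R) := mul_le_mul_of_nonneg_left h1 (by linarith)
  set K1 : ℝ := Real.log B' + 2 * A' + |Real.log ‖g I‖| with hK1
  have hK1n : 0 ≤ K1 := by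
    have := Real.log_nonneg hB1
    have := abs_nonneg (Real.log ‖g I‖)
    positivity
  refine ⟨6, 5, 18432 * K1, fun z hz => ?_⟩
  set y : ℝ := z.im with hy
  have hyz : y ≤ ‖z‖ := (le_abs_self _).trans (Complex.abs_im_le_norm z)
  have hzpos : 0 < ‖z‖ := lt_of_lt_of_le hz hyz
  set T : ℝ := 2 * ‖z‖ ^ 2 / y + 10 with hT
  have hTy : T * y = 2 * ‖z‖ ^ 2 + 10 * y := by rw [hT]; field_simp
  have hT10 : 10 ≤ T := by
    have : 0 ≤ 2 * ‖z‖ ^ 2 / y := by positivity
    linarith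
  have hT0 : 0 < T := by linarith
  have hzT : ‖z‖ ≤ T / 2 := by
    have h1 : 2 * ‖z‖ ^ 2 ≤ T * ‖z‖ := by nlinarith
    nlinarith
  set c : ℂ := T * I with hc
  have hcim : c.im = T := by simp [hc]
  have hcre : c.re = 0 := by simp [hc]
  have hnormc : ‖c‖ = T := by
    rw [hc, norm_mul, Complex.norm_I, mul_one, Complex.norm_real, Real.norm_eq_abs,
      abs_of_pos hT0]
  -- the ball
  have hball : ∀ w ∈ ball c T, 0 < w.im := by
    intro w hw
    have h1 : |(w - c).im| ≤ ‖w - c‖ := Complex.abs_im_le_norm _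
    have h2 : ‖w - c‖ < T := by rwa [mem_ball, dist_eq_norm] at hw
    have h3 : -(w - c).im < T := lt_of_le_of_lt (neg_le_abs _) (lt_of_le_of_lt h1 h2)
    rw [Complex.sub_im, hcim] at h3
    linarith
  set KT : ℝ := B' * Real.exp (A' * (2 * T)) with hKT
  have hKTball : ∀ w ∈ ball c T, ‖g w‖ ≤ KT := by
    intro w hw
    refine hb' _ w (hball w hw) ?_
    have h2 : ‖w - c‖ < T := by rwa [mem_ball, dist_eq_norm] at hw
    calc ‖w‖ = ‖(w - c) + c‖ := by rw [sub_add_cancel]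
      _ ≤ ‖w - c‖ + ‖c‖ := norm_add_le _ _
      _ ≤ 2 * T := by rw [hnormc]; linarith
  have hGd : DifferentiableOn ℂ g (ball c T) := hg.mono fun w hw => hball w hw
  have hGne : ∀ w ∈ ball c T, g w ≠ 0 := fun w hw => hne w (hball w hw)
  -- from `I` to the centre
  have hIc : ‖I - c‖ = T - 1 := by
    have h1 : I - c = ((1 - T : ℝ) : ℂ) * I := by rw [hc]; push_cast; ring
    rw [h1, norm_mul, Complex.norm_I, mul_one, Complex.norm_real, Real.norm_eq_abs,
      abs_of_nonpos (by linarith)]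
    ring
  have hI : I ∈ ball c T := by rw [mem_ball, dist_eq_norm, hIc]; linarith
  have hgI : 0 < ‖g I‖ := norm_pos_iff.2 (hGne I hI)
  have hKT1 : 0 < KT := by positivity
  have e1 := harnack_in hT0 hGd hGne hKTball hI
  rw [hIc] at e1
  have e1' : Real.log (KT / ‖g c‖) ≤ 2 * T * (K1 * T) := by
    have h1 : Real.log (KT / ‖g I‖) ≤ K1 * T := by
      rw [Real.log_div hKT1.ne' hgI.ne', hKT, Real.log_mul (by positivity) (Real.exp_ne_zero _),
        Real.log_exp, hK1]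
      have h2 := neg_le_abs (Real.log ‖g I‖)
      have h3 := Real.log_nonneg hB1
      have h4 := abs_nonneg (Real.log ‖g I‖)
      have h5 : Real.log B' ≤ Real.log B' * T := le_mul_of_one_le_right h3 (by linarith)
      have h6 : |Real.log ‖g I‖| ≤ |Real.log ‖g I‖| * T := le_mul_of_one_le_right h4 (by linarith)
      nlinarith
    have h0 : 0 ≤ Real.log (KT / ‖g I‖) := by
      apply Real.log_nonneg
      rw [le_div_iff₀ hgI, one_mul]
      exact hKTball I hI
    have h7 : (T + (T - 1)) / (T - (T - 1)) = 2 * T - 1 := by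
      have : T - (T - 1) = 1 := by ring
      rw [this]; ring
    rw [h7] at e1
    calc Real.log (KT / ‖g c‖) ≤ (2 * T - 1) * Real.log (KT / ‖g I‖) := e1
      _ ≤ (2 * T) * Real.log (KT / ‖g I‖) := mul_le_mul_of_nonneg_right (by linarith) h0
      _ ≤ 2 * T * (K1 * T) := mul_le_mul_of_nonneg_left h1 (by positivity)
  -- from the centre to `z`
  have hzc : ‖z - c‖ ≤ T - 3 / 4 * y := by
    have h1 : ‖z - c‖ ^ 2 = ‖z‖ ^ 2 - 2 * T * y + T ^ 2 := by
      rw [← Complex.normSq_eq_norm_sq, ← Complex.normSq_eq_norm_sq, Complex.normSq_apply,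
        Complex.normSq_apply, Complex.sub_re, Complex.sub_im, hcim, hcre]
      ring
    have h2 : 0 ≤ T - 3 / 4 * y := by linarith
    refine le_of_sq_le_sq ?_ h2
    rw [h1]
    nlinarith
  have hzb : z ∈ ball c T := by rw [mem_ball, dist_eq_norm]; linarith
  have e2 := harnack_out hT0 hGd hGne hKTball hzb
  have hr : (T + ‖z - c‖) / (T - ‖z - c‖) ≤ 2 * T / (3 / 4 * y) := by
    apply div_le_div₀ (by positivity) (by linarith) (by positivity) (by linarith)
  have hlc : 0 ≤ Real.log (KT / ‖g c‖) := by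
    have hcb : c ∈ ball c T := mem_ball_self hT0
    have hgc : 0 < ‖g c‖ := norm_pos_iff.2 (hGne c hcb)
    apply Real.log_nonneg
    rw [le_div_iff₀ hgc, one_mul]
    exact hKTball c hcb
  have e3 : Real.log (KT / ‖g z‖) ≤ 2 * T / (3 / 4 * y) * (2 * T * (K1 * T)) :=
    e2.trans ((mul_le_mul_of_nonneg_right hr hlc).trans
      (mul_le_mul_of_nonneg_left e1' (by positivity)))
  -- the logarithmic derivative at `z`
  have hball' : ∀ w ∈ ball z y, 0 < w.im := by
    intro w hw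
    have h1 : |(w - z).im| ≤ ‖w - z‖ := Complex.abs_im_le_norm _
    have h2 : ‖w - z‖ < y := by rwa [mem_ball, dist_eq_norm] at hw
    have h3 : -(w - z).im < y := lt_of_le_of_lt (neg_le_abs _) (lt_of_le_of_lt h1 h2)
    rw [Complex.sub_im] at h3
    linarith
  have e4 := logDeriv_le (K := KT) hz (hg.mono fun w hw => hball' w hw)
    (fun w hw => hne w (hball' w hw)) (fun w hw => by
      refine hb' _ w (hball' w hw) ?_
      have h2 : ‖w - z‖ < y := by rwa [mem_ball, dist_eq_norm] at hw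
      calc ‖w‖ = ‖(w - z) + z‖ := by rw [sub_add_cancel]
        _ ≤ ‖w - z‖ + ‖z‖ := norm_add_le _ _
        _ ≤ 2 * T := by linarith)
  have e5 : ‖deriv g z / g z‖ ≤ 2 / y * (2 * T / (3 / 4 * y) * (2 * T * (K1 * T))) :=
    e4.trans (mul_le_mul_of_nonneg_left e3 (by positivity))
  refine e5.trans ?_
  have hTle : T ≤ 12 * (1 + ‖z‖) ^ 2 / y := by
    rw [le_div_iff₀ hz, hTy]
    nlinarith
  have hT3 : T ^ 3 ≤ (12 * (1 + ‖z‖) ^ 2 / y) ^ 3 := pow_le_pow_left₀ hT0.le hTle 3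
  have e6 : 2 / y * (2 * T / (3 / 4 * y) * (2 * T * (K1 * T))) = 32 / 3 * K1 / y ^ 2 * T ^ 3 := by
    field_simp
    ring
  rw [e6]
  calc 32 / 3 * K1 / y ^ 2 * T ^ 3 ≤ 32 / 3 * K1 / y ^ 2 * (12 * (1 + ‖z‖) ^ 2 / y) ^ 3 :=
        mul_le_mul_of_nonneg_left hT3 (by positivity)
    _ = 18432 * K1 * (1 + ‖z‖) ^ 6 / y ^ 5 := by
        field_simp
        ring

end Pool.Agent.Work.MP_6d8919_an
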