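import Pool.Agent.Work.MP_6d8919_an.Space

/-!
# MP_6d8919_an: completeness of `E_ω` and boundedness of differentiation
-/

open Complex Set Filter Topology Metric
open scoped ComplexConjugate

namespace Pool.Agent.Work.MP_6d8919_an

/-- The majorisation property: `|f z| ≤ ‖f‖ · wt ω z` on the whole plane for `f ∈ E_ω`. -/
def Maj (ω : ℂ → ℂ) (σ : ℝ) : Prop :=
  ∀ f : Space ω σ, ∀ z : ℂ, ‖f.fn z‖ ≤ ‖f‖ * wt ω z

theorem wt_le_of_type {ω : ℂ → ℂ} {B a : ℝ} (h : ∀ z : ℂ, ‖ω z‖ ≤ B * Real.exp (a * ‖z‖)) (z : ℂ) :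
    wt ω z ≤ B * Real.exp (a * ‖z‖) := by
  have h1 : ‖(⟨z.re, |z.im|⟩ : ℂ)‖ = ‖z‖ := by
    rw [Complex.norm_def, Complex.norm_def, Complex.normSq_apply, Complex.normSq_apply]
    simp only [abs_mul_abs_self]
  have := h ⟨z.re, |z.im|⟩
  rwa [h1] at this

theorem typeLE_of_wt {ω : ℂ → ℂ} {σ : ℝ} (ht : TypeLE ω σ) {f : ℂ → ℂ} {C : ℝ}
    (hC : ∀ z, ‖f z‖ ≤ C * wt ω z) : TypeLE f σ := by
  intro ε hε
  obtain ⟨B, hB⟩ := ht ε hε
  refine ⟨|C| * B, fun z => (hC z).trans ?_⟩
  rw [mul_assoc]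
  calc C * wt ω z ≤ |C| * wt ω z := mul_le_mul_of_nonneg_right (le_abs_self C) (wt_nonneg _ _)
    _ ≤ |C| * (B * Real.exp ((σ + ε) * ‖z‖)) :=
      mul_le_mul_of_nonneg_left (wt_le_of_type hB z) (abs_nonneg _)

/-- An entire function dominated by the weight is an element of `E_ω`. -/
def Space.mk {ω : ℂ → ℂ} {σ : ℝ} (ht : TypeLE ω σ) (f : ℂ → ℂ) (hf : Differentiable ℂ f)
    (hC : ∃ C : ℝ, ∀ z, ‖f z‖ ≤ C * wt ω z) : Space ω σ :=
  ⟨f, hf, by obtain ⟨C, hC⟩ := hC; exact typeLE_of_wt ht hC, by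
    obtain ⟨C, hC⟩ := hC
    exact ⟨C, fun x => by simpa [wt_real] using hC x⟩⟩

@[simp] theorem Space.mk_fn {ω : ℂ → ℂ} {σ : ℝ} (ht : TypeLE ω σ) (f : ℂ → ℂ)
    (hf : Differentiable ℂ f) (hC : ∃ C : ℝ, ∀ z, ‖f z‖ ≤ C * wt ω z) :
    (Space.mk ht f hf hC).fn = f := rfl

theorem Space.differentiable {ω : ℂ → ℂ} {σ : ℝ} (f : Space ω σ) : Differentiable ℂ f.fn := f.2.1

theorem complete_of_maj {ω : ℂ → ℂ} {σ M : ℝ} (hω : Core ω M) (ht : TypeLE ω σ)
    (hm : Maj ω σ) : CompleteSpace (Space ω σ) := by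
  refine Metric.complete_of_cauchySeq_tendsto fun u hu => ?_
  have hdiff : ∀ n m : ℕ, ∀ z : ℂ, ‖(u n).fn z - (u m).fn z‖ ≤ ‖u n - u m‖ * wt ω z := by
    intro n m z
    have := hm (u n - u m) z
    rwa [Space.fn_sub, Pi.sub_apply] at this
  have hcau : ∀ z : ℂ, CauchySeq fun n => (u n).fn z := by
    intro z
    rw [Metric.cauchySeq_iff] at hu ⊢
    intro ε hε
    have hw := hω.wt_pos z
    obtain ⟨N, hN⟩ := hu (ε / wt ω z) (by positivity)
    refine ⟨N, fun n hn m hm' => ?_⟩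
    have h1 := hN n hn m hm'
    rw [dist_eq_norm] at h1 ⊢
    refine (hdiff n m z).trans_lt ?_
    rwa [lt_div_iff₀ hw] at h1
  choose g hg using fun z => cauchySeq_tendsto_of_complete (hcau z)
  have hunif : ∀ ε : ℝ, 0 < ε → ∃ N : ℕ, ∀ n, N ≤ n → ∀ z, ‖(u n).fn z - g z‖ ≤ ε * wt ω z := by
    intro ε hε
    obtain ⟨N, hN⟩ := Metric.cauchySeq_iff.1 hu ε hε
    refine ⟨N, fun n hn z => ?_⟩
    have h1 : Tendsto (fun m => ‖(u n).fn z - (u m).fn z‖) atTop (𝓝 ‖(u n).fn z - g z‖) :=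
      ((tendsto_const_nhds).sub (hg z)).norm
    refine le_of_tendsto h1 ?_
    filter_upwards [eventually_ge_atTop N] with m hm'
    refine (hdiff n m z).trans ?_
    have := hN n hn m hm'
    rw [dist_eq_norm] at this
    exact mul_le_mul_of_nonneg_right this.le (wt_nonneg _ _)
  have hgd : Differentiable ℂ g := by
    have hloc : TendstoLocallyUniformlyOn (fun n => (u n).fn) g atTop univ := by
      rw [Metric.tendstoLocallyUniformlyOn_iff]
      intro ε hε x _
      have hw := hω.wt_pos x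
      refine ⟨ball x 1, mem_nhdsWithin_of_mem_nhds (ball_mem_nhds x one_pos), ?_⟩
      obtain ⟨N, hN⟩ := hunif (ε / (2 * (Real.exp M * wt ω x))) (by positivity)
      filter_upwards [eventually_ge_atTop N] with n hn y hy
      rw [dist_comm, dist_eq_norm]
      have h1 : wt ω y ≤ Real.exp M * wt ω x := by
        have := wt_add hω x (y - x)
        rw [add_sub_cancel] at this
        refine this.trans (mul_le_mul_of_nonneg_right (Real.exp_le_exp.2 ?_) (wt_nonneg _ _))
        have h2 : ‖y - x‖ < 1 := by rwa [mem_ball, dist_eq_norm] at hy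
        calc M * ‖y - x‖ ≤ M * 1 := mul_le_mul_of_nonneg_left h2.le hω.M_nonneg
          _ = M := mul_one _
      calc ‖(u n).fn y - g y‖ ≤ ε / (2 * (Real.exp M * wt ω x)) * wt ω y := hN n hn y
        _ ≤ ε / (2 * (Real.exp M * wt ω x)) * (Real.exp M * wt ω x) := by gcongr
        _ = ε / 2 := by field_simp
        _ < ε := by linarith
    have := hloc.differentiableOn (Eventually.of_forall fun n => (u n).differentiable.differentiableOn)
      isOpen_univ
    exact differentiableOn_univ.1 this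
  obtain ⟨N, hN⟩ := hunif 1 one_pos
  have hgC : ∀ z, ‖g z‖ ≤ (‖u N‖ + 1) * wt ω z := by
    intro z
    have h1 := hN N le_rfl z
    have h2 := hm (u N) z
    have h3 : ‖g z‖ ≤ ‖(u N).fn z‖ + ‖(u N).fn z - g z‖ := by
      have := norm_sub_le ((u N).fn z) ((u N).fn z - g z)
      rwa [sub_sub_cancel] at this
    linarith
  refine ⟨Space.mk ht g hgd ⟨_, hgC⟩, ?_⟩
  rw [Metric.tendsto_atTop]
  intro ε hε
  obtain ⟨N', hN'⟩ := hunif (ε / 2) (by positivity)
  refine ⟨N', fun n hn => ?_⟩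
  rw [dist_eq_norm]
  refine lt_of_le_of_lt (Space.norm_le _ (C := ε / 2) (by positivity) fun x => ?_) (by linarith)
  rw [Space.fn_sub, Pi.sub_apply, Space.mk_fn]
  have := hN' n hn x
  rwa [wt_real] at this

theorem deriv_le_of_maj {ω : ℂ → ℂ} {M : ℝ} (hω : Core ω M) {f : ℂ → ℂ}
    (hf : Differentiable ℂ f) {C : ℝ} (hC : ∀ z, ‖f z‖ ≤ C * wt ω z) (z : ℂ) :
    ‖deriv f z‖ ≤ Real.exp M * C * wt ω z := by
  have hC0 : 0 ≤ C := by
    have h1 := (norm_nonneg _).trans (hC z)
    by_contra hcon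
    push Not at hcon
    have := mul_neg_of_neg_of_pos hcon (hω.wt_pos z)
    linarith
  have := Complex.norm_deriv_le_of_forall_mem_sphere_norm_le (c := z) (R := 1)
    (C := Real.exp M * C * wt ω z) (f := f) one_pos hf.diffContOnCl ?_
  · simpa using this
  · intro ζ hζ
    have h2 : ‖ζ - z‖ = 1 := by simpa [dist_eq_norm] using hζ
    have h3 := wt_add hω z (ζ - z)
    rw [add_sub_cancel, h2, mul_one] at h3
    calc ‖f ζ‖ ≤ C * wt ω ζ := hC ζ
      _ ≤ C * (Real.exp M * wt ω z) := mul_le_mul_of_nonneg_left h3 hC0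
      _ = _ := by ring

theorem differentiable_deriv' {f : ℂ → ℂ} (hf : Differentiable ℂ f) :
    Differentiable ℂ (deriv f) := by
  have := (hf.differentiableOn (s := univ)).deriv isOpen_univ
  exact differentiableOn_univ.1 this

/-- Differentiation as a bounded operator on `E_ω`. -/
noncomputable def diffOp {ω : ℂ → ℂ} {σ M : ℝ} (hω : Core ω M) (ht : TypeLE ω σ)
    (hm : Maj ω σ) : Space ω σ →L[ℂ] Space ω σ :=
  LinearMap.mkContinuous
    { toFun := fun f => Space.mk ht (deriv f.fn) (differentiable_deriv' f.differentiable)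
        ⟨_, deriv_le_of_maj hω f.differentiable (hm f)⟩
      map_add' := fun f g => by
        apply Space.ext
        funext z
        simp only [Space.mk_fn, Space.fn_add, Pi.add_apply]
        exact deriv_add (f.differentiable z) (g.differentiable z)
      map_smul' := fun c f => by
        apply Space.ext
        funext z
        simp only [Space.mk_fn, Space.fn_smul, Pi.smul_apply, RingHom.id_apply]
        exact deriv_const_smul c (f.differentiable z) }
    (Real.exp M) (fun f => by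
      refine Space.norm_le _ (mul_nonneg (Real.exp_pos _).le (norm_nonneg _)) fun x => ?_
      have := deriv_le_of_maj hω f.differentiable (hm f) x
      rwa [wt_real] at this)

@[simp] theorem diffOp_fn {ω : ℂ → ℂ} {σ M : ℝ} (hω : Core ω M) (ht : TypeLE ω σ)
    (hm : Maj ω σ) (f : Space ω σ) : (diffOp hω ht hm f).fn = deriv f.fn := rfl

end Pool.Agent.Work.MP_6d8919_an
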