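import Pool.Agent.Work.MP_6d8919_an.BoundF

/-!
# MP_6d8919_an: admissible points with slack are approximate eigenvalues
-/

open Complex Set Filter Topology Metric MeasureTheory
open scoped Real ComplexConjugate

namespace Pool.Agent.Work.MP_6d8919_an

/-- translate and normalise -/
theorem core_translate {ω : ℂ → ℂ} {M : ℝ} (hω : Core ω M) (x₀ : ℝ) :
    Core (fun z => ω (x₀ + z) / ω x₀) M := by
  have him : ∀ z : ℂ, ((x₀ : ℂ) + z).im = z.im := fun z => by simp
  have hder : ∀ z : ℂ, HasDerivAt (fun z => ω (x₀ + z) / ω x₀) (deriv ω (x₀ + z) / ω x₀) z := by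
    intro z
    have h1 : HasDerivAt (fun z : ℂ => (x₀ : ℂ) + z) 1 z := by
      simpa using (hasDerivAt_id z).const_add (x₀ : ℂ)
    have h2 := (hω.entire (x₀ + z)).hasDerivAt.comp z h1
    simpa [Function.comp_def] using h2.div_const (ω x₀)
  refine ⟨fun z => (hder z).differentiableAt, fun z hz => ?_, fun z hz => ?_, fun z hz => ?_⟩
  · exact div_ne_zero (hω.ne _ (by rw [him]; exact hz)) (hω.ne _ (by simp))
  · rw [(hder z).deriv, norm_div, norm_div, ← mul_div_assoc]
    exact div_le_div_of_nonneg_right (hω.bd _ (by rw [him]; exact hz)) (norm_nonneg _)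
  · have : (x₀ : ℂ) + conj z = conj ((x₀ : ℂ) + z) := by simp
    simp only [this, norm_div]
    exact div_le_div_of_nonneg_right (hω.conj_le _ (by rw [him]; exact hz)) (norm_nonneg _)

theorem wt_translate (ω : ℂ → ℂ) (x₀ : ℝ) (z : ℂ) :
    wt (fun z => ω (x₀ + z) / ω x₀) z = wt ω (x₀ + z) / ‖ω x₀‖ := by
  unfold wt
  rw [norm_div]
  have : (x₀ : ℂ) + ⟨z.re, |z.im|⟩ = ⟨(x₀ + z : ℂ).re, |(x₀ + z : ℂ).im|⟩ := by
    apply Complex.ext <;> simp
  rw [this]

theorem hasDerivAt_Hf (l : ℂ) (d T : ℝ) (z : ℂ) :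
    HasDerivAt (Hf l d T) ((l - 2 * d * z / T) * Hf l d T z) z := by
  unfold Hf
  have h1 : HasDerivAt (fun z : ℂ => l * z - d * z ^ 2 / T) (l - 2 * d * z / T) z := by
    have h2 : HasDerivAt (fun z : ℂ => l * z) l z := by
      simpa using (hasDerivAt_id z).const_mul l
    have h3 : HasDerivAt (fun z : ℂ => (d : ℂ) * z ^ 2 / T) (2 * d * z / T) z := by
      have := ((hasDerivAt_pow 2 z).const_mul (d : ℂ)).div_const (T : ℂ)
      refine this.congr_deriv ?_
      push_cast; ring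
    exact h2.sub h3
  refine h1.cexp.congr_deriv ?_
  ring

/-- The local estimate in the normalised situation. -/
theorem normalised {w : ℂ → ℂ} {M : ℝ} (hw : Core w M) {l : ℂ} {d T τ η : ℝ} (hT : 6 ≤ T)
    (hd : 0 < d) (hdl : |l.im| + 2 * d ≤ τ)
    (hlow : ∀ z : ℂ, ‖z‖ ≤ T → 0 ≤ z.im → Real.exp (l.re * z.re + τ * z.im - 1) ≤ ‖w z‖)
    (htail : ∀ z : ℂ, T / 3 ≤ ‖z‖ →
      ∫ t in (-T)..T, Real.exp (-(d * t ^ 2 / T)) / (1 + ‖(t : ℂ) - z‖) ≤ η) (s : ℝ) :
    ‖deriv (Ff w l d T) s - l * Ff w l d T s‖ ≤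
      max (2 * Real.exp 1 * Real.sqrt (d / T) + 4 * Real.exp (1 - d * T) * (Real.exp M + ‖l‖))
        (2 / π * Real.exp (2 * M + 1) * η * (Real.exp M + ‖l‖)) * ‖w s‖ := by
  have hT0 : 0 < T := by linarith
  have hwt1 : ∀ ζ : ℂ, ‖ζ - s‖ ≤ 1 → wt w ζ ≤ Real.exp M * ‖w s‖ := by
    intro ζ hζ
    have := wt_add hw (s : ℂ) (ζ - s)
    rw [add_sub_cancel, wt_real] at this
    refine this.trans (mul_le_mul_of_nonneg_right (Real.exp_le_exp.2 ?_) (norm_nonneg _))
    calc M * ‖ζ - s‖ ≤ M * 1 := mul_le_mul_of_nonneg_left hζ hw.M_nonneg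
      _ = M := mul_one _
  have hlow' : ∀ x : ℝ, |x| ≤ T → Real.exp (l.re * x - 1) ≤ ‖w x‖ := by
    intro x hx
    have := hlow x (by simpa using hx) (by simp)
    simpa using this
  have hdF := differentiable_Ff hw l d T
  rcases le_or_gt |s| (T / 2) with hs | hs
  · refine le_trans ?_ (mul_le_mul_of_nonneg_right (le_max_left _ _) (norm_nonneg _))
    set e : ℂ → ℂ := fun z => Ff w l d T z - Hf l d T z with he
    have hHd : Differentiable ℂ (Hf l d T) := fun z => (hasDerivAt_Hf l d T z).differentiableAt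
    have hed : Differentiable ℂ e := hdF.sub hHd
    have heb : ∀ ζ : ℂ, ‖ζ - s‖ ≤ 1 → ‖e ζ‖ ≤ 4 * Real.exp (1 - d * T) * wt w ζ := by
      intro ζ hζ
      refine Ff_sub_Hf hw hT0 hd hdl hlow ?_
      have h1 : ‖ζ‖ ≤ ‖ζ - s‖ + ‖(s : ℂ)‖ := by
        have := norm_add_le (ζ - s) (s : ℂ)
        rwa [sub_add_cancel] at this
      rw [Complex.norm_real, Real.norm_eq_abs] at h1
      linarith
    have hes : ‖e s‖ ≤ 4 * Real.exp (1 - d * T) * ‖w s‖ := by
      have := heb s (by simp)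
      rwa [wt_real] at this
    have hde : ‖deriv e s‖ ≤ 4 * Real.exp (1 - d * T) * (Real.exp M * ‖w s‖) := by
      have := Complex.norm_deriv_le_of_forall_mem_sphere_norm_le (c := (s : ℂ)) (R := 1)
        (C := 4 * Real.exp (1 - d * T) * (Real.exp M * ‖w s‖)) (f := e) one_pos
        hed.diffContOnCl ?_
      · simpa using this
      · intro ζ hζ
        have h2 : ‖ζ - s‖ = 1 := by simpa [dist_eq_norm] using hζ
        refine (heb ζ h2.le).trans ?_
        exact mul_le_mul_of_nonneg_left (hwt1 ζ h2.le) (by positivity)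
    have hsplit : deriv (Ff w l d T) s - l * Ff w l d T s
        = (deriv e s - l * e s) - (2 * d * s / T : ℂ) * Hf l d T s := by
      have h3 : Ff w l d T = fun z => e z + Hf l d T z := by
        funext z; simp [he]
      have h4 : deriv (Ff w l d T) s = deriv e s + deriv (Hf l d T) s := by
        conv_lhs => rw [h3]
        exact deriv_add (hed _) (hHd _)
      rw [h4, (hasDerivAt_Hf l d T s).deriv]
      have h5 : Ff w l d T s = e s + Hf l d T s := by simp [he]
      rw [h5]; ring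
    rw [hsplit]
    have hH : ‖(2 * d * s / T : ℂ) * Hf l d T s‖ ≤ 2 * Real.exp 1 * Real.sqrt (d / T) * ‖w s‖ := by
      have h0 : ‖Hf l d T s‖ = Real.exp (l.re * s - d * s ^ 2 / T) := by
        rw [norm_Hf_real, ← Real.exp_add]; congr 1
      rw [norm_mul, h0]
      have h6 : ‖(2 * d * s / T : ℂ)‖ = 2 * d * |s| / T := by
        rw [norm_div, norm_mul, norm_mul, Complex.norm_real, Complex.norm_real, Complex.norm_real,
          Real.norm_eq_abs, Real.norm_eq_abs, Real.norm_eq_abs, abs_of_pos hd, abs_of_pos hT0]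
        norm_num
      rw [h6]
      have h7 : Real.exp (l.re * s - d * s ^ 2 / T)
          ≤ Real.exp (-(d * s ^ 2 / T)) * (Real.exp 1 * ‖w s‖) := by
        have h8 := hlow' s (by linarith)
        have h9 : Real.exp (l.re * s - d * s ^ 2 / T)
            = Real.exp (-(d * s ^ 2 / T)) * (Real.exp 1 * Real.exp (l.re * s - 1)) := by
          rw [← Real.exp_add, ← Real.exp_add]; congr 1; ring
        rw [h9]
        gcongr
      set u : ℝ := |s| * Real.sqrt (d / T) with hu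
      have hu2 : u ^ 2 = d * s ^ 2 / T := by
        rw [hu, mul_pow, Real.sq_sqrt (by positivity), sq_abs]; ring
      have hu3 : u * Real.exp (-(d * s ^ 2 / T)) ≤ 1 := by
        rw [← hu2, Real.exp_neg, ← div_eq_mul_inv, div_le_one (Real.exp_pos _)]
        have h10 := Real.add_one_le_exp (u ^ 2)
        nlinarith [sq_nonneg (u - 1 / 2)]
      have hdT : d / T = Real.sqrt (d / T) * Real.sqrt (d / T) :=
        (Real.mul_self_sqrt (by positivity)).symm
      calc 2 * d * |s| / T * Real.exp (l.re * s - d * s ^ 2 / T)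
          ≤ 2 * d * |s| / T * (Real.exp (-(d * s ^ 2 / T)) * (Real.exp 1 * ‖w s‖)) := by gcongr
        _ = 2 * (d / T) * |s| * (Real.exp (-(d * s ^ 2 / T)) * (Real.exp 1 * ‖w s‖)) := by ring
        _ = 2 * Real.sqrt (d / T) * (u * Real.exp (-(d * s ^ 2 / T))) * (Real.exp 1 * ‖w s‖) := by
            rw [hu]; nth_rw 1 [hdT]; ring
        _ ≤ 2 * Real.sqrt (d / T) * 1 * (Real.exp 1 * ‖w s‖) := by gcongr
        _ = 2 * Real.exp 1 * Real.sqrt (d / T) * ‖w s‖ := by ring
    calc ‖(deriv e s - l * e s) - (2 * d * s / T : ℂ) * Hf l d T s‖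
        ≤ ‖deriv e s - l * e s‖ + ‖(2 * d * s / T : ℂ) * Hf l d T s‖ := norm_sub_le _ _
      _ ≤ (‖deriv e s‖ + ‖l‖ * ‖e s‖) + 2 * Real.exp 1 * Real.sqrt (d / T) * ‖w s‖ := by
          gcongr
          calc _ ≤ ‖deriv e s‖ + ‖l * e s‖ := norm_sub_le _ _
            _ = _ := by rw [norm_mul]
      _ ≤ (4 * Real.exp (1 - d * T) * (Real.exp M * ‖w s‖)
            + ‖l‖ * (4 * Real.exp (1 - d * T) * ‖w s‖))
            + 2 * Real.exp 1 * Real.sqrt (d / T) * ‖w s‖ := by gcongr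
      _ = _ := by ring
  · refine le_trans ?_ (mul_le_mul_of_nonneg_right (le_max_right _ _) (norm_nonneg _))
    have hfb : ∀ ζ : ℂ, ‖ζ - s‖ ≤ 1 →
        ‖Ff w l d T ζ‖ ≤ 2 / π * Real.exp (2 * M + 1) * wt w ζ * η := by
      intro ζ hζ
      refine (Ff_bound hw hT0 hd hlow' ζ).trans ?_
      refine mul_le_mul_of_nonneg_left (htail ζ ?_)
        (mul_nonneg (by positivity) (wt_nonneg _ _))
      have h1 : ‖(s : ℂ)‖ ≤ ‖ζ - s‖ + ‖ζ‖ := by
        have := norm_sub_le ζ (ζ - s)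
        rw [sub_sub_cancel] at this
        linarith
      rw [Complex.norm_real, Real.norm_eq_abs] at h1
      linarith
    have hη : 0 ≤ η := by
      have := hfb s (by simp)
      by_contra hcon
      push Not at hcon
      have h2 : 2 / π * Real.exp (2 * M + 1) * wt w s * η < 0 :=
        mul_neg_of_pos_of_neg (mul_pos (by positivity) (hw.wt_pos _)) hcon
      linarith [norm_nonneg (Ff w l d T s)]
    have h3 : ‖Ff w l d T s‖ ≤ 2 / π * Real.exp (2 * M + 1) * η * ‖w s‖ := by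
      have := hfb s (by simp)
      rw [wt_real] at this
      calc _ ≤ _ := this
        _ = _ := by ring
    have h4 : ‖deriv (Ff w l d T) s‖ ≤ 2 / π * Real.exp (2 * M + 1) * η * (Real.exp M * ‖w s‖) := by
      have := Complex.norm_deriv_le_of_forall_mem_sphere_norm_le (c := (s : ℂ)) (R := 1)
        (C := 2 / π * Real.exp (2 * M + 1) * η * (Real.exp M * ‖w s‖)) (f := Ff w l d T) one_pos
        hdF.diffContOnCl ?_
      · simpa using this
      · intro ζ hζ
        have h2 : ‖ζ - s‖ = 1 := by simpa [dist_eq_norm] using hζ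
        refine (hfb ζ h2.le).trans ?_
        have := hwt1 ζ h2.le
        calc 2 / π * Real.exp (2 * M + 1) * wt w ζ * η
            = 2 / π * Real.exp (2 * M + 1) * η * wt w ζ := by ring
          _ ≤ 2 / π * Real.exp (2 * M + 1) * η * (Real.exp M * ‖w s‖) := by gcongr
    calc ‖deriv (Ff w l d T) s - l * Ff w l d T s‖
        ≤ ‖deriv (Ff w l d T) s‖ + ‖l‖ * ‖Ff w l d T s‖ := by
          calc _ ≤ ‖deriv (Ff w l d T) s‖ + ‖l * Ff w l d T s‖ := norm_sub_le _ _
            _ = _ := by rw [norm_mul]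
      _ ≤ 2 / π * Real.exp (2 * M + 1) * η * (Real.exp M * ‖w s‖)
          + ‖l‖ * (2 / π * Real.exp (2 * M + 1) * η * ‖w s‖) := by gcongr
      _ = _ := by ring

theorem slack_approx {ω : ℂ → ℂ} {M : ℝ} (hω : Core ω M) {α β τ : ℝ} (hβ : |β| < τ)
    (hτ : (⟨α, τ⟩ : ℂ) ∈ Adm ω) {ε : ℝ} (hε : 0 < ε) :
    ∃ (F : ℂ → ℂ) (C : ℝ) (x₀ : ℝ), Differentiable ℂ F ∧ (∀ z, ‖F z‖ ≤ C * wt ω z) ∧
      ‖ω x₀‖ ≤ 2 * ‖F x₀‖ ∧ ∀ x : ℝ, ‖deriv F x - (⟨α, β⟩ : ℂ) * F x‖ ≤ ε * ‖ω x‖ := by
  set l : ℂ := ⟨α, β⟩ with hl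
  set d : ℝ := (τ - |β|) / 2 with hd
  have hd0 : 0 < d := by rw [hd]; linarith
  have hτ0 : 0 < τ := lt_of_le_of_lt (abs_nonneg β) hβ
  set K : ℝ := 2 / π * Real.exp (2 * M + 1) * (Real.exp M + ‖l‖) with hK
  have hK0 : 0 < K := by
    have := Real.exp_pos M
    positivity
  obtain ⟨T₀, hT₀, htail⟩ := tail_small hd0 (η := ε / K) (by positivity)
  -- limits as `T → ∞`
  have hlim1 : Tendsto (fun T : ℝ => 2 * Real.exp 1 * Real.sqrt (d / T)
      + 4 * Real.exp (1 - d * T) * (Real.exp M + ‖l‖)) atTop (𝓝 0) := by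
    have h1 : Tendsto (fun T : ℝ => Real.sqrt (d / T)) atTop (𝓝 0) := by
      have := (tendsto_const_nhds (x := d)).div_atTop tendsto_id (l := atTop)
      have h2 := (Real.continuous_sqrt.tendsto 0).comp this
      rw [Real.sqrt_zero] at h2
      exact h2
    have h2 : Tendsto (fun T : ℝ => Real.exp (1 - d * T)) atTop (𝓝 0) := by
      apply Real.tendsto_exp_atBot.comp
      have : Tendsto (fun T : ℝ => d * T) atTop atTop := tendsto_id.const_mul_atTop hd0
      have h3 := tendsto_atBot_add_const_left atTop (1 : ℝ) (tendsto_neg_atTop_atBot.comp this)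
      refine h3.congr fun T => ?_
      simp [sub_eq_add_neg]
    have h3 := (h1.const_mul (2 * Real.exp 1)).add
      ((h2.const_mul 4).mul_const (Real.exp M + ‖l‖))
    simpa using h3
  have hlim2 : Tendsto (fun T : ℝ => 4 * Real.exp (1 - d * T)) atTop (𝓝 0) := by
    have h2 : Tendsto (fun T : ℝ => Real.exp (1 - d * T)) atTop (𝓝 0) := by
      apply Real.tendsto_exp_atBot.comp
      have : Tendsto (fun T : ℝ => d * T) atTop atTop := tendsto_id.const_mul_atTop hd0
      have h3 := tendsto_atBot_add_const_left atTop (1 : ℝ) (tendsto_neg_atTop_atBot.comp this)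
      refine h3.congr fun T => ?_
      simp [sub_eq_add_neg]
    simpa using h2.const_mul 4
  obtain ⟨T, hT1, hT2, hT3, hT4⟩ := ((hlim1.eventually_le_const hε).and
    ((hlim2.eventually_le_const (show (0 : ℝ) < 1 / 2 by norm_num)).and
      ((eventually_ge_atTop 6).and (eventually_ge_atTop T₀)))).exists
  have hT0 : 0 < T := by linarith
  obtain ⟨x₀, hx₀⟩ := hτ T 1 one_pos
  have hωx : 0 < ‖ω x₀‖ := norm_pos_iff.2 (hω.ne _ (by simp))
  set w : ℂ → ℂ := fun z => ω (x₀ + z) / ω x₀ with hw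
  have hwc : Core w M := core_translate hω x₀
  have hlow : ∀ z : ℂ, ‖z‖ ≤ T → 0 ≤ z.im →
      Real.exp (l.re * z.re + τ * z.im - 1) ≤ ‖w z‖ := by
    intro z hz hz'
    have := hx₀ z hz hz'
    rw [hw]
    simp only [norm_div]
    rw [le_div_iff₀ hωx]
    simpa [hl, abs_of_pos hτ0] using this
  have hlow' : ∀ x : ℝ, |x| ≤ T → Real.exp (l.re * x - 1) ≤ ‖w x‖ := by
    intro x hx
    have := hlow x (by simpa using hx) (by simp)
    simpa using this
  have hdl : |l.im| + 2 * d ≤ τ := by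
    rw [hd, hl]; simp only; linarith
  have hnorm := normalised hwc hT3 hd0 hdl hlow (η := ε / K) (fun z hz => htail T hT4 z hz)
  have hbound : ∀ s : ℝ, ‖deriv (Ff w l d T) s - l * Ff w l d T s‖ ≤ ε * ‖w s‖ := by
    intro s
    refine (hnorm s).trans (mul_le_mul_of_nonneg_right (max_le hT1 ?_) (norm_nonneg _))
    have : 2 / π * Real.exp (2 * M + 1) * (ε / K) * (Real.exp M + ‖l‖) = K * (ε / K) := by
      rw [hK]; ring
    rw [this, mul_div_cancel₀ _ hK0.ne']
  have hdF := differentiable_Ff hwc l d T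
  set F : ℂ → ℂ := fun z => ω x₀ * Ff w l d T (z - x₀) with hF
  have hderF : ∀ z : ℂ, HasDerivAt F (ω x₀ * deriv (Ff w l d T) (z - x₀)) z := by
    intro z
    have h1 : HasDerivAt (fun z : ℂ => z - (x₀ : ℂ)) 1 z := by
      simpa using (hasDerivAt_id z).sub_const (x₀ : ℂ)
    have h2 := (hdF (z - x₀)).hasDerivAt.comp z h1
    simpa [Function.comp_def] using h2.const_mul (ω x₀)
  refine ⟨F, 2 / π * Real.exp (2 * M + 1) * (2 * T), x₀,
    fun z => (hderF z).differentiableAt, ?_, ?_, ?_⟩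
  · intro z
    have h1 := Ff_bound hwc hT0 hd0 hlow' (z - x₀)
    have h2 : (∫ t in (-T)..T, Real.exp (-(d * t ^ 2 / T)) / (1 + ‖(t : ℂ) - (z - x₀)‖))
        ≤ 2 * T := by
      have h3 : ∀ t ∈ Set.uIoc (-T) T, ‖Real.exp (-(d * t ^ 2 / T)) / (1 + ‖(t : ℂ) - (z - x₀)‖)‖ ≤ 1 := by
        intro t _
        rw [Real.norm_eq_abs, abs_of_nonneg (by positivity)]
        rw [div_le_one (by positivity)]
        have h4 : Real.exp (-(d * t ^ 2 / T)) ≤ 1 := by
          rw [Real.exp_le_one_iff]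
          have : 0 ≤ d * t ^ 2 / T := by positivity
          linarith
        linarith [norm_nonneg ((t : ℂ) - (z - x₀))]
      have h5 := intervalIntegral.norm_integral_le_of_norm_le_const h3
      rw [abs_of_pos (by linarith)] at h5
      refine (le_abs_self _).trans (h5.trans (by linarith))
    have h3 : wt w (z - x₀) = wt ω z / ‖ω x₀‖ := by
      rw [hw, wt_translate]; simp
    rw [hF]
    simp only [norm_mul]
    calc ‖ω x₀‖ * ‖Ff w l d T (z - x₀)‖
        ≤ ‖ω x₀‖ * (2 / π * Real.exp (2 * M + 1) * (wt ω z / ‖ω x₀‖) * (2 * T)) := by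
          refine mul_le_mul_of_nonneg_left (h1.trans ?_) hωx.le
          rw [h3]
          refine mul_le_mul_of_nonneg_left h2 ?_
          have := wt_nonneg ω z
          positivity
      _ = 2 / π * Real.exp (2 * M + 1) * (2 * T) * wt ω z := by
          field_simp
  · have h1 := Ff_sub_Hf hwc hT0 hd0 hdl hlow (z := 0) (by simp; positivity)
    have h2 : wt w 0 = 1 := by
      have h3 : wt w 0 = ‖w 0‖ := wt_of_nonneg w (by simp)
      rw [h3, hw]
      simp [hωx.ne']
    have h3 : Hf l d T 0 = 1 := by simp [Hf]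
    rw [h2, h3, mul_one] at h1
    have h4 : 1 / 2 ≤ ‖Ff w l d T 0‖ := by
      have h5 : ‖(1 : ℂ)‖ ≤ ‖Ff w l d T 0 - 1‖ + ‖Ff w l d T 0‖ := by
        have := norm_sub_le (Ff w l d T 0) (Ff w l d T 0 - 1)
        rw [sub_sub_cancel] at this
        linarith
      rw [norm_one] at h5
      linarith
    have h5 : F x₀ = ω x₀ * Ff w l d T 0 := by simp [hF]
    rw [h5, norm_mul]
    nlinarith
  · intro x
    rw [(hderF x).deriv]
    have h1 : ω x₀ * deriv (Ff w l d T) (x - x₀) - l * F x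
        = ω x₀ * (deriv (Ff w l d T) ((x - x₀ : ℝ) : ℂ) - l * Ff w l d T ((x - x₀ : ℝ) : ℂ)) := by
      rw [hF]; push_cast; ring
    rw [h1, norm_mul]
    have h2 : ‖w ((x - x₀ : ℝ) : ℂ)‖ = ‖ω x‖ / ‖ω x₀‖ := by
      rw [hw]; simp
    calc ‖ω x₀‖ * ‖deriv (Ff w l d T) ((x - x₀ : ℝ) : ℂ) - l * Ff w l d T ((x - x₀ : ℝ) : ℂ)‖
        ≤ ‖ω x₀‖ * (ε * ‖w ((x - x₀ : ℝ) : ℂ)‖) :=
          mul_le_mul_of_nonneg_left (hbound _) hωx.le
      _ = ε * ‖ω x‖ := by rw [h2]; field_simp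

end Pool.Agent.Work.MP_6d8919_an
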