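import Pool.Agent.Work.MP_6d8919_an.Basic

/-!
# MP_6d8919_an: the Banach space `E_ω` and the operator of differentiation
-/

open Complex Set Filter Topology Metric
open scoped ComplexConjugate

namespace Pool.Agent.Work.MP_6d8919_an

/-- The linear space `E_ω` of entire functions `f` of exponential type `≤ σ` with `f/ω` bounded
on the real line. -/
def Esub (ω : ℂ → ℂ) (σ : ℝ) : Submodule ℂ (ℂ → ℂ) where
  carrier := {f | Differentiable ℂ f ∧ TypeLE f σ ∧ ∃ C : ℝ, ∀ x : ℝ, ‖f x‖ ≤ C * ‖ω x‖}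
  zero_mem' := by
    refine ⟨differentiable_const 0, fun ε _ => ⟨0, fun z => by simp⟩, 0, fun x => by simp⟩
  add_mem' := by
    rintro f g ⟨hf, hft, C, hC⟩ ⟨hg, hgt, C', hC'⟩
    refine ⟨hf.add hg, fun ε hε => ?_, C + C', fun x => ?_⟩
    · obtain ⟨A, hA⟩ := hft ε hε
      obtain ⟨B, hB⟩ := hgt ε hε
      refine ⟨A + B, fun z => (norm_add_le _ _).trans ?_⟩
      rw [add_mul]
      exact add_le_add (hA z) (hB z)
    · refine (norm_add_le _ _).trans ?_
      rw [add_mul]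
      exact add_le_add (hC x) (hC' x)
  smul_mem' := by
    rintro c f ⟨hf, hft, C, hC⟩
    refine ⟨hf.const_smul c, fun ε hε => ?_, ‖c‖ * C, fun x => ?_⟩
    · obtain ⟨A, hA⟩ := hft ε hε
      refine ⟨‖c‖ * A, fun z => ?_⟩
      rw [Pi.smul_apply, norm_smul, mul_assoc]
      exact mul_le_mul_of_nonneg_left (hA z) (norm_nonneg _)
    · rw [Pi.smul_apply, norm_smul, mul_assoc]
      exact mul_le_mul_of_nonneg_left (hC x) (norm_nonneg _)

/-- The space `E_ω` as a type. -/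
def Space (ω : ℂ → ℂ) (σ : ℝ) : Type := Esub ω σ

noncomputable instance (ω : ℂ → ℂ) (σ : ℝ) : AddCommGroup (Space ω σ) :=
  inferInstanceAs (AddCommGroup (Esub ω σ))

noncomputable instance (ω : ℂ → ℂ) (σ : ℝ) : Module ℂ (Space ω σ) :=
  inferInstanceAs (Module ℂ (Esub ω σ))

/-- The function underlying an element of `E_ω`. -/
def Space.fn {ω : ℂ → ℂ} {σ : ℝ} (f : Space ω σ) : ℂ → ℂ := f.1

theorem Space.ext {ω : ℂ → ℂ} {σ : ℝ} {f g : Space ω σ} (h : f.fn = g.fn) : f = g :=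
  Subtype.ext h

@[simp] theorem Space.fn_add {ω : ℂ → ℂ} {σ : ℝ} (f g : Space ω σ) :
    (f + g).fn = f.fn + g.fn := rfl

@[simp] theorem Space.fn_sub {ω : ℂ → ℂ} {σ : ℝ} (f g : Space ω σ) :
    (f - g).fn = f.fn - g.fn := rfl

@[simp] theorem Space.fn_zero {ω : ℂ → ℂ} {σ : ℝ} : (0 : Space ω σ).fn = 0 := rfl

@[simp] theorem Space.fn_smul {ω : ℂ → ℂ} {σ : ℝ} (c : ℂ) (f : Space ω σ) :
    (c • f).fn = c • f.fn := rfl

/-- `‖f‖ = sup_{x ∈ ℝ} |f(x)/ω(x)|`. -/
noncomputable instance (ω : ℂ → ℂ) (σ : ℝ) : Norm (Space ω σ) :=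
  ⟨fun f => ⨆ x : ℝ, ‖f.fn x / ω x‖⟩

theorem Space.norm_def {ω : ℂ → ℂ} {σ : ℝ} (f : Space ω σ) :
    ‖f‖ = ⨆ x : ℝ, ‖f.fn x / ω x‖ := rfl

theorem Space.bddAbove {ω : ℂ → ℂ} {σ : ℝ} (f : Space ω σ) :
    BddAbove (range fun x : ℝ => ‖f.fn x / ω x‖) := by
  obtain ⟨C, hC⟩ := f.2.2.2
  refine ⟨max C 0, ?_⟩
  rintro _ ⟨x, rfl⟩
  simp only
  rcases eq_or_ne (ω x) 0 with h | h
  · rw [h, div_zero, norm_zero]; exact le_max_right _ _
  · rw [norm_div, div_le_iff₀ (norm_pos_iff.2 h)]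
    refine (hC x).trans ?_
    gcongr
    exact le_max_left _ _

theorem Space.norm_le {ω : ℂ → ℂ} {σ : ℝ} (f : Space ω σ) {C : ℝ} (hC : 0 ≤ C)
    (h : ∀ x : ℝ, ‖f.fn x‖ ≤ C * ‖ω x‖) : ‖f‖ ≤ C := by
  rw [Space.norm_def]
  refine ciSup_le fun x => ?_
  rcases eq_or_ne (ω x) 0 with h' | h'
  · rw [h', div_zero, norm_zero]; exact hC
  · rw [norm_div, div_le_iff₀ (norm_pos_iff.2 h')]
    exact h x

theorem Space.le_norm {ω : ℂ → ℂ} {σ : ℝ} (f : Space ω σ) (x : ℝ) :
    ‖f.fn x‖ ≤ ‖f‖ * ‖ω x‖ := by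
  rcases eq_or_ne (ω x) 0 with h | h
  · obtain ⟨C, hC⟩ := f.2.2.2
    have := hC x
    rw [h, norm_zero, mul_zero] at this ⊢
    exact this
  · have h2 : ‖f.fn x / ω x‖ ≤ ‖f‖ := le_ciSup f.bddAbove x
    rwa [norm_div, div_le_iff₀ (norm_pos_iff.2 h)] at h2

theorem Space.norm_nonneg' {ω : ℂ → ℂ} {σ : ℝ} (f : Space ω σ) : 0 ≤ ‖f‖ :=
  Real.iSup_nonneg fun _ => norm_nonneg _

theorem Space.core (ω : ℂ → ℂ) (σ : ℝ) : NormedSpace.Core ℂ (Space ω σ) where
  norm_nonneg := Space.norm_nonneg'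
  norm_smul := by
    intro c f
    rw [Space.norm_def, Space.norm_def, Real.mul_iSup_of_nonneg (norm_nonneg c)]
    congr 1
    funext x
    rw [Space.fn_smul, Pi.smul_apply, smul_eq_mul, mul_div_assoc, norm_mul]
  norm_triangle := by
    intro f g
    refine Space.norm_le _ (add_nonneg f.norm_nonneg' g.norm_nonneg') fun x => ?_
    rw [Space.fn_add, Pi.add_apply, add_mul]
    exact (norm_add_le _ _).trans (add_le_add (f.le_norm x) (g.le_norm x))
  norm_eq_zero_iff := by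
    intro f
    constructor
    · intro h
      have h0 : ∀ x : ℝ, f.fn x = 0 := by
        intro x
        have := f.le_norm x
        rw [h, zero_mul] at this
        exact norm_le_zero_iff.1 this
      apply Space.ext
      have hd : Differentiable ℂ f.fn := f.2.1
      have han : AnalyticOnNhd ℂ f.fn univ := fun z _ =>
        (hd.analyticAt z)
      have hf : ∃ᶠ z in 𝓝[≠] (0 : ℂ), f.fn z = 0 := by
        have ht : Tendsto (fun n : ℕ => ((1 / ((n : ℝ) + 1) : ℝ) : ℂ)) atTop (𝓝[≠] (0 : ℂ)) := by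
          rw [tendsto_nhdsWithin_iff]
          constructor
          · have := tendsto_one_div_add_atTop_nhds_zero_nat (𝕜 := ℝ)
            have h2 := (Complex.continuous_ofReal.tendsto 0).comp this
            simpa [Function.comp_def] using h2
          · refine Eventually.of_forall fun n => ?_
            simp only [mem_compl_iff, mem_singleton_iff, Complex.ofReal_eq_zero]
            positivity
        exact ht.frequently (Eventually.frequently (Eventually.of_forall fun n => h0 _))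
      have := han.eqOn_zero_of_preconnected_of_frequently_eq_zero isPreconnected_univ
        (mem_univ 0) hf
      funext z
      exact this (mem_univ z)
    · rintro rfl
      rw [Space.norm_def]
      simp

noncomputable instance (ω : ℂ → ℂ) (σ : ℝ) : NormedAddCommGroup (Space ω σ) :=
  NormedAddCommGroup.ofCore (Space.core ω σ)

noncomputable instance (ω : ℂ → ℂ) (σ : ℝ) : NormedSpace ℂ (Space ω σ) :=
  NormedSpace.ofCore (Space.core ω σ)

end Pool.Agent.Work.MP_6d8919_an
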