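import Pool.Agent.Work.MP_6d8919_an.Oper
import Pool.Agent.Work.MP_6d8919_an.Frontier
import Pool.Agent.Work.MP_6d8919_an.AdmApprox
import Pool.Agent.Work.MP_6d8919_an.Dich
import Pool.Agent.Work.MP_6d8919_an.Slack

/-!
# MP_6d8919_an: the spectrum of differentiation
-/

open Complex Set Filter Topology Metric
open scoped ComplexConjugate

namespace Pool.Agent.Work.MP_6d8919_an

/-- The vertical hull `{α + iβ : α - iτ ∈ Clu ω for some τ ≥ |β|}`. -/
def Hull (ω : ℂ → ℂ) : Set ℂ := {l | ∃ τ : ℝ, |l.im| ≤ τ ∧ (⟨l.re, -τ⟩ : ℂ) ∈ Clu ω}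

theorem adm_sub_hull {ω : ℂ → ℂ} {M : ℝ} (hω : Core ω M) : Adm ω ⊆ Hull ω := by
  intro l hl
  set S : Set ℝ := {t | |l.im| ≤ t ∧ (⟨l.re, t⟩ : ℂ) ∈ Adm ω} with hS
  have hne : S.Nonempty := ⟨|l.im|, le_rfl, adm_of_le (l := l) rfl (by simp) hl⟩
  have hbdd : BddAbove S := by
    refine ⟨M, fun t ht => ?_⟩
    have h1 := adm_norm_le hω ht.2
    have h2 := Complex.abs_im_le_norm (⟨l.re, t⟩ : ℂ)
    simp only at h2
    linarith [le_abs_self t]
  have hcl : IsClosed S := by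
    rw [hS]
    refine (isClosed_le continuous_const continuous_id).inter ?_
    have hcont : Continuous fun t : ℝ => (⟨l.re, t⟩ : ℂ) := by
      have : (fun t : ℝ => (⟨l.re, t⟩ : ℂ)) = fun t : ℝ => (l.re : ℂ) + t * I := by
        funext t
        apply Complex.ext <;> simp
      rw [this]; fun_prop
    exact (isClosed_adm ω).preimage hcont
  have hmem := hcl.csSup_mem hne hbdd
  set τ := sSup S with hτ
  refine ⟨τ, hmem.1, ?_⟩
  by_contra hcon
  have hτ0 : 0 ≤ τ := (abs_nonneg _).trans hmem.1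
  have h1 : (⟨(⟨l.re, τ⟩ : ℂ).re, -|(⟨l.re, τ⟩ : ℂ).im|⟩ : ℂ) ∉ Clu ω := by
    simpa [abs_of_nonneg hτ0] using hcon
  obtain ⟨c, hc, h2⟩ := dichotomy hω hmem.2 h1
  simp only [abs_of_nonneg hτ0] at h2
  have h3 : τ + c ∈ S := ⟨by linarith [hmem.1], h2⟩
  have := le_csSup hbdd h3
  linarith

section
variable {ω : ℂ → ℂ} {σ M : ℝ} (hω : Core ω M) (ht : TypeLE ω σ) (hm : Maj ω σ)
include hω ht hm

omit hm in
/-- `ω` as an element of `E_ω`. -/
theorem exists_self : ∃ w : Space ω σ, w.fn = ω :=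
  ⟨Space.mk ht ω hω.entire ⟨1, fun z => by rw [one_mul]; exact hω.norm_le_wt z⟩, rfl⟩

theorem clu_sub_spec : Clu ω ⊆ spectrum ℂ (diffOp hω ht hm) := by
  intro μ hμ
  by_contra hcon
  rw [spectrum.notMem_iff] at hcon
  obtain ⟨u, hu⟩ := hcon
  obtain ⟨w, hw⟩ := exists_self hω ht
  set h : Space ω σ := ((u⁻¹ : (Space ω σ →L[ℂ] Space ω σ)ˣ) : Space ω σ →L[ℂ] Space ω σ) w with hh
  have h1 : (algebraMap ℂ (Space ω σ →L[ℂ] Space ω σ) μ - diffOp hω ht hm) h = w := by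
    rw [← hu, hh]
    have : ((u : Space ω σ →L[ℂ] Space ω σ) *
        ((u⁻¹ : (Space ω σ →L[ℂ] Space ω σ)ˣ) : Space ω σ →L[ℂ] Space ω σ)) w = w := by
      rw [Units.mul_inv]; rfl
    exact this
  have h2 : μ • h - diffOp hω ht hm h = w := by
    rw [← h1, Algebra.algebraMap_eq_smul_one]; rfl
  refine clu_no_resolvent hω hμ h.differentiable (hm h) fun z => ?_
  have h3 := congrArg (fun f : Space ω σ => f.fn z) h2
  simp only [Space.fn_sub, Pi.sub_apply, Space.fn_smul, Pi.smul_apply, smul_eq_mul,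
    diffOp_fn, hw] at h3
  exact h3

theorem spec_sub_adm : spectrum ℂ (diffOp hω ht hm) ⊆ Adm ω := by
  have := complete_of_maj hω ht hm
  set D := diffOp hω ht hm with hD
  -- frontier points are admissible
  have hfr : ∀ l ∈ frontier (spectrum ℂ D), l ∈ Adm ω := by
    intro l hl
    refine adm_of_approx hω fun ε hε => ?_
    obtain ⟨f, hf1, hf2⟩ := frontier_approx D hl hε
    refine ⟨f.fn, f.differentiable, fun z => ?_, fun z => ?_, ?_⟩
    · have := hm f z
      rwa [hf1, one_mul] at this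
    · have h1 := hm (D f - l • f) z
      have h2 : (D f - l • f).fn z = deriv f.fn z - l * f.fn z := by
        rw [Space.fn_sub, Pi.sub_apply, Space.fn_smul, Pi.smul_apply, smul_eq_mul, hD, diffOp_fn]
      rw [h2] at h1
      exact h1.trans (mul_le_mul_of_nonneg_right hf2.le (wt_nonneg _ _))
    · have h1 : 1 - ε < ⨆ x : ℝ, ‖f.fn x / ω x‖ := by
        rw [← Space.norm_def, hf1]; linarith
      obtain ⟨x, hx⟩ := exists_lt_of_lt_ciSup h1
      refine ⟨x, ?_⟩
      have hpos : 0 < ‖ω x‖ := norm_pos_iff.2 (hω.ne x (by simp))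
      rw [norm_div, lt_div_iff₀ hpos] at hx
      exact hx.le
  intro l hl
  -- the sign of the imaginary part
  obtain ⟨s, hs1, hs2⟩ : ∃ s : ℝ, |s| = 1 ∧ ∀ t : ℝ, 0 ≤ t → |l.im + s * t| = |l.im| + t := by
    rcases le_total 0 l.im with h | h
    · refine ⟨1, by simp, fun t ht' => ?_⟩
      rw [one_mul, abs_of_nonneg h, abs_of_nonneg (by linarith)]
    · refine ⟨-1, by simp, fun t ht' => ?_⟩
      rw [abs_of_nonpos h, abs_of_nonpos (by linarith)]; ring
  set p : ℝ → ℂ := fun t => ⟨l.re, l.im + s * t⟩ with hp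
  have hpc : Continuous p := by
    have : p = fun t : ℝ => (l.re : ℂ) + (l.im + s * t) * I := by
      funext t
      apply Complex.ext <;> simp [hp]
    rw [this]; fun_prop
  set S : Set ℝ := {t | 0 ≤ t ∧ p t ∈ spectrum ℂ D} with hS
  have hcl : IsClosed S :=
    (isClosed_le continuous_const continuous_id).inter ((spectrum.isClosed D).preimage hpc)
  have hne : S.Nonempty := ⟨0, le_rfl, by
    have : p 0 = l := by apply Complex.ext <;> simp [hp]
    rw [this]; exact hl⟩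
  have hbdd : BddAbove S := by
    obtain ⟨C, hC⟩ := (spectrum.isBounded (𝕜 := ℂ) D).exists_norm_le
    refine ⟨C, fun t ht' => ?_⟩
    have h1 := hC _ ht'.2
    have h2 := Complex.abs_im_le_norm (p t)
    have h3 : |(p t).im| = |l.im| + t := hs2 t ht'.1
    rw [h3] at h2
    linarith [abs_nonneg l.im]
  have hmem := hcl.csSup_mem hne hbdd
  set τ := sSup S with hτ
  have hfrp : p τ ∈ frontier (spectrum ℂ D) := by
    rw [(spectrum.isClosed (𝕜 := ℂ) D).frontier_eq]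
    refine ⟨hmem.2, fun hint => ?_⟩
    have h1 : p ⁻¹' (interior (spectrum ℂ D)) ∈ 𝓝 τ :=
      (isOpen_interior.preimage hpc).mem_nhds hint
    obtain ⟨δ, hδ, hb⟩ := Metric.mem_nhds_iff.1 h1
    have h2 : τ + δ / 2 ∈ S := by
      refine ⟨by linarith [hmem.1], interior_subset (hb ?_)⟩
      rw [mem_ball, Real.dist_eq, add_sub_cancel_left, abs_of_pos (by linarith)]
      linarith
    have := le_csSup hbdd h2
    linarith
  refine adm_of_le (l := p τ) rfl ?_ (hfr _ hfrp)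
  have : |(p τ).im| = |l.im| + τ := hs2 τ hmem.1
  rw [this]
  linarith [hmem.1]

theorem slack_mem_spec {α β τ : ℝ} (hβ : |β| < τ) (hτ : (⟨α, τ⟩ : ℂ) ∈ Adm ω) :
    (⟨α, β⟩ : ℂ) ∈ spectrum ℂ (diffOp hω ht hm) := by
  set D := diffOp hω ht hm with hD
  set l : ℂ := ⟨α, β⟩ with hl
  by_contra hcon
  rw [spectrum.notMem_iff] at hcon
  obtain ⟨u, hu⟩ := hcon
  set R : Space ω σ →L[ℂ] Space ω σ :=
    ((u⁻¹ : (Space ω σ →L[ℂ] Space ω σ)ˣ) : Space ω σ →L[ℂ] Space ω σ) with hR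
  have hRu : ∀ g : Space ω σ, R (l • g - D g) = g := by
    intro g
    have h1 : l • g - D g = (u : Space ω σ →L[ℂ] Space ω σ) g := by
      rw [hu, Algebra.algebraMap_eq_smul_one]; rfl
    rw [h1, hR]
    have : (((u⁻¹ : (Space ω σ →L[ℂ] Space ω σ)ˣ) : Space ω σ →L[ℂ] Space ω σ) *
        (u : Space ω σ →L[ℂ] Space ω σ)) g = g := by
      rw [Units.inv_mul]; rfl
    exact this
  obtain ⟨F, C, x₀, hFd, hFC, hF0, hF⟩ := slack_approx hω hβ hτ
    (ε := 1 / (4 * (‖R‖ + 1))) (by positivity)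
  set f : Space ω σ := Space.mk ht F hFd ⟨C, hFC⟩ with hf
  have hn1 : 1 / 2 ≤ ‖f‖ := by
    have h1 := f.le_norm x₀
    rw [hf, Space.mk_fn, ← hf] at h1
    have h2 : 0 < ‖ω x₀‖ := norm_pos_iff.2 (hω.ne x₀ (by simp))
    have h3 : ‖ω x₀‖ * 1 ≤ ‖ω x₀‖ * (2 * ‖f‖) := by
      calc ‖ω x₀‖ * 1 ≤ 2 * ‖F x₀‖ := by rw [mul_one]; exact hF0
        _ ≤ 2 * (‖f‖ * ‖ω x₀‖) := by gcongr
        _ = _ := by ring
    have h4 := le_of_mul_le_mul_left h3 h2
    linarith
  have hn2 : ‖l • f - D f‖ ≤ 1 / (4 * (‖R‖ + 1)) := by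
    refine Space.norm_le _ (by positivity) fun x => ?_
    have h1 := hF x
    rw [norm_sub_rev] at h1
    have h2 : (l • f - D f).fn x = l * F x - deriv F x := by
      rw [Space.fn_sub, Pi.sub_apply, Space.fn_smul, Pi.smul_apply, smul_eq_mul, hD, diffOp_fn,
        hf, Space.mk_fn]
    rw [h2]
    exact h1
  have h5 : ‖f‖ ≤ ‖R‖ * (1 / (4 * (‖R‖ + 1))) := by
    calc ‖f‖ = ‖R (l • f - D f)‖ := by rw [hRu]
      _ ≤ ‖R‖ * ‖l • f - D f‖ := R.le_opNorm _
      _ ≤ ‖R‖ * (1 / (4 * (‖R‖ + 1))) := by gcongr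
  have h6 : ‖R‖ * (1 / (4 * (‖R‖ + 1))) ≤ 1 / 4 := by
    rw [mul_one_div, div_le_div_iff₀ (by positivity) (by norm_num)]
    nlinarith [norm_nonneg R]
  linarith

theorem hull_sub_spec : Hull ω ⊆ spectrum ℂ (diffOp hω ht hm) := by
  have := complete_of_maj hω ht hm
  rintro l ⟨τ, hτ, hc⟩
  have h1 := clu_sub_spec hω ht hm hc
  have h2 := spec_sub_adm hω ht hm h1
  have hτ0 : 0 ≤ τ := (abs_nonneg _).trans hτ
  have h3 : (⟨l.re, τ⟩ : ℂ) ∈ Adm ω := adm_of_le (l := ⟨l.re, -τ⟩) rfl (by simp) h2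
  rcases hτ0.eq_or_lt with h0 | h0
  · have h4 : l.im = 0 := by
      rw [← h0] at hτ
      exact abs_nonpos_iff.1 hτ
    have h5 : l = ⟨l.re, -τ⟩ := by
      apply Complex.ext <;> simp [h4, ← h0]
    rw [h5]; exact h1
  · -- `l` is a limit of points with smaller imaginary part
    have hcl := spectrum.isClosed (𝕜 := ℂ) (diffOp hω ht hm)
    have hlim : Tendsto (fun n : ℕ => (⟨l.re, (1 - 1 / ((n : ℝ) + 1)) * l.im⟩ : ℂ)) atTop (𝓝 l) := by
      have h6 : Tendsto (fun n : ℕ => (1 - 1 / ((n : ℝ) + 1)) * l.im) atTop (𝓝 l.im) := by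
        have := (tendsto_const_nhds (x := (1 : ℝ))).sub
          (tendsto_one_div_add_atTop_nhds_zero_nat (𝕜 := ℝ))
        simpa using this.mul_const l.im
      have h7 : (fun n : ℕ => (⟨l.re, (1 - 1 / ((n : ℝ) + 1)) * l.im⟩ : ℂ))
          = fun n : ℕ => (l.re : ℂ) + (((1 - 1 / ((n : ℝ) + 1)) * l.im : ℝ) : ℂ) * I := by
        funext n
        exact Complex.mk_eq_add_mul_I _ _
      rw [h7]
      have h8 := ((Complex.continuous_ofReal.tendsto l.im).comp h6).mul_const I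
      have h9 := h8.const_add (l.re : ℂ)
      rw [Complex.re_add_im] at h9
      exact h9
    refine hcl.mem_of_tendsto hlim (Eventually.of_forall fun n => ?_)
    refine slack_mem_spec hω ht hm (τ := τ) ?_ h3
    have h10 : 0 ≤ 1 - 1 / ((n : ℝ) + 1) := by
      have : 1 / ((n : ℝ) + 1) ≤ 1 := by
        rw [div_le_one (by positivity)]; linarith [Nat.cast_nonneg (α := ℝ) n]
      linarith
    rw [abs_mul, abs_of_nonneg h10]
    have h11 : 0 < 1 / ((n : ℝ) + 1) := by positivity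
    rcases (abs_nonneg l.im).eq_or_lt with h12 | h12
    · rw [← h12, mul_zero]; exact h0
    · nlinarith

/-- **The spectrum of differentiation.** -/
theorem spectrum_diffOp : spectrum ℂ (diffOp hω ht hm) = Hull ω ∧
    spectrum ℂ (diffOp hω ht hm) = Adm ω := by
  have h1 := spec_sub_adm hω ht hm
  have h2 := adm_sub_hull hω
  have h3 := hull_sub_spec hω ht hm
  exact ⟨subset_antisymm (h1.trans h2) h3, subset_antisymm h1 (h2.trans h3)⟩

end

end Pool.Agent.Work.MP_6d8919_an
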